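import Pool.Agent.P.MP_5c8462_an.Pl.Defs

set_option autoImplicit false

namespace Pool.Agent.P.MP_5c8462_an.Pl

open MeasureTheory Real Set Pool.Agent.P.MP_5c8462_an.Ord

namespace Basic

open AdmL

variable {d : ℕ} {Ω : Set (E d)}

theorem chg (φ : E d ≃ₗᵢ[ℝ] E d) (G : E d → ℝ) :
    ∫ y in φ '' Ω, G y = ∫ x in Ω, G (φ x) :=
  φ.measurePreserving.setIntegral_image_emb φ.toHomeomorph.measurableEmbedding G Ω

theorem fd_norm (φ : E d ≃ₗᵢ[ℝ] E d) {u : E d → ℝ} (hu : ContDiff ℝ 1 u) (y : E d) :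
    ‖fderiv ℝ (fun y => u (φ.symm y)) y‖ = ‖fderiv ℝ u (φ.symm y)‖ := by
  have h1 := ((hu.differentiable (by norm_num)) (φ.symm y)).hasFDerivAt.comp y
    (φ.symm.toContinuousLinearEquiv.hasFDerivAt (x := y))
  rw [show fderiv ℝ (fun y => u (φ.symm y)) y = _ from h1.fderiv]
  exact ContinuousLinearMap.opNorm_comp_linearIsometryEquiv _ φ.symm

theorem iso {k : ℕ} {M : ℝ} (φ : E d ≃ₗᵢ[ℝ] E d) (h : Adm k Ω M) : Adm k (φ '' Ω) M := by
  obtain ⟨f, hf, hi, hM⟩ := adm_iff.1 h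
  have hc : ∀ a, cm (fun i y => f i (φ.symm y)) a = fun y => cm f a (φ.symm y) := fun a => rfl
  refine adm_iff.2 ⟨fun i y => f i (φ.symm y), fun i => (hf i).comp φ.symm.contDiff,
    fun a ha => hi a fun x hx => ?_, fun a => ?_⟩
  · simpa only [hc, LinearIsometryEquiv.symm_apply_apply] using ha _ ⟨x, hx, rfl⟩
  · have h3 := hM a
    unfold En Sq at h3 ⊢
    simp only [hc, fd_norm φ (cm_cd hf a)]
    rw [chg, chg]
    simpa only [LinearIsometryEquiv.symm_apply_apply] using h3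

/-- Passing from an arbitrary finite index set to `Fin (k + 1)`. -/
theorem adm_of {κ : Type} [Fintype κ] {k : ℕ} {M : ℝ} (hk : k + 1 ≤ Fintype.card κ)
    {f : κ → E d → ℝ} (hf : ∀ i, ContDiff ℝ 1 (f i))
    (hi : ∀ c, (∀ x ∈ Ω, cm f c x = 0) → c = 0) (hM : ∀ c, En Ω (cm f c) ≤ M * Sq Ω (cm f c)) :
    Adm k Ω M := by
  classical
  obtain ⟨e⟩ : Nonempty (Fin (k + 1) ↪ κ) := Function.Embedding.nonempty_of_card_le (by simpa)
  refine adm_iff.2 ⟨fun i => cm f (Pi.single (e i) 1), fun i => cm_cd hf _,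
    fun c hc => ?_, fun c => ?_⟩
  · rw [cm_cm] at hc
    funext i
    have := congrFun (hi _ hc) (e i)
    simpa [Finset.sum_apply, Pi.single_apply] using this
  · rw [cm_cm]
    exact hM _

theorem ds2 : StDS2 := by
  intro d Ω hΩ ι _ U n k M hU hS hk
  choose f hf hz hi hM using hS
  have hb := hΩ.2.2.2
  have hg : ∀ (c : (Σ i, Fin (n i)) → ℝ) (i : ι), ContDiff ℝ 1 (cm (f i) fun j => c ⟨i, j⟩) :=
    fun c i => cm_cd (hf i) _
  have hz1 : ∀ (c : (Σ i, Fin (n i)) → ℝ) (i : ι) (x : E d), x ∉ U i →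
      cm (f i) (fun j => c ⟨i, j⟩) x = 0 ∧ fderiv ℝ (cm (f i) fun j => c ⟨i, j⟩) x = 0 := by
    intro c i x hx
    refine ⟨Finset.sum_eq_zero fun j _ => by rw [(hz i j x hx).1, mul_zero], ?_⟩
    rw [cm_fderiv (hf i)]
    exact Finset.sum_eq_zero fun j _ => by rw [(hz i j x hx).2, smul_zero]
  have hd : ∀ x i l, i ≠ l → x ∉ U i ∨ x ∉ U l := fun x i l h => by
    by_contra hc
    push Not at hc
    exact Set.disjoint_left.1 (hU h) hc.1 hc.2
  have he : ∀ c : (Σ i, Fin (n i)) → ℝ, cm (fun p : Σ i, Fin (n i) => f p.1 p.2) c =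
      cm (fun i => cm (f i) fun j => c ⟨i, j⟩) fun _ => 1 := fun c => by
    funext x
    simp only [cm, one_mul]
    exact Fintype.sum_sigma _
  have h1 : ∀ c : (Σ i, Fin (n i)) → ℝ, Sq Ω (cm (fun p : Σ i, Fin (n i) => f p.1 p.2) c) =
      ∑ i, Sq Ω (cm (f i) fun j => c ⟨i, j⟩) := fun c => by
    rw [he]
    unfold Sq
    have hI : ∀ i, IntegrableOn (fun x => cm (f i) (fun j => c ⟨i, j⟩) x ^ 2) Ω := fun i =>
      intOn hb ((hg c i).continuous.pow 2)
    rw [← integral_finsetSum _ fun i _ => hI i]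
    refine integral_congr_ae (Filter.Eventually.of_forall fun x => ?_)
    have := norm_sq_disj (fun i => cm (f i) (fun j => c ⟨i, j⟩) x) (fun _ => (1 : ℝ))
      fun j l h => (hd x j l h).imp (fun h => (hz1 c _ x h).1) fun h => (hz1 c _ x h).1
    simp only [smul_eq_mul, Real.norm_eq_abs, sq_abs, one_pow, one_mul] at this
    simpa only [cm, one_mul] using this
  have h2 : ∀ c : (Σ i, Fin (n i)) → ℝ, En Ω (cm (fun p : Σ i, Fin (n i) => f p.1 p.2) c) =
      ∑ i, En Ω (cm (f i) fun j => c ⟨i, j⟩) := fun c => by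
    rw [he]
    unfold En
    have hI : ∀ i, IntegrableOn (fun x => ‖fderiv ℝ (cm (f i) fun j => c ⟨i, j⟩) x‖ ^ 2) Ω :=
      fun i => intOn hb (((hg c i).continuous_fderiv (by norm_num)).norm.pow 2)
    rw [← integral_finsetSum _ fun i _ => hI i]
    refine integral_congr_ae (Filter.Eventually.of_forall fun x => ?_)
    have := norm_sq_disj (fun i => fderiv ℝ (cm (f i) fun j => c ⟨i, j⟩) x) (fun _ => (1 : ℝ))
      fun j l h => (hd x j l h).imp (fun h => (hz1 c _ x h).2) fun h => (hz1 c _ x h).2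
    simp only [one_pow, one_mul] at this
    simp only [cm_fderiv (hg c)]
    exact this
  refine adm_of (κ := Σ i, Fin (n i)) (by simpa using hk)
    (f := fun p => f p.1 p.2) (fun p => hf _ _) (fun c hc => ?_) fun c => ?_
  · funext p
    obtain ⟨i, j⟩ := p
    have h3 := hi i (fun j => c ⟨i, j⟩) fun x hx => by
      by_cases hxi : x ∈ U i
      · have h4 := hc x hx
        rw [he, cm, Finset.sum_eq_single i (fun l _ hl => by
          rw [(hz1 c l x ((hd x l i hl).resolve_right (not_not.2 hxi))).1, mul_zero]) (by simp),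
          one_mul] at h4
        exact h4
      · exact (hz1 c i x hxi).1
    exact congrFun h3 j
  · rw [h1, h2, Finset.mul_sum]
    exact Finset.sum_le_sum fun i _ => hM i _

theorem br2 : StBr2 := by
  intro d Ω hΩ ι _ A n k lam M ho hs hd h0 hl hA hk hM
  obtain ⟨f, hf, hi, hM⟩ := adm_iff.1 hM
  choose N φ hN hφ using fun a => piece (hΩ.2.2.2.subset (hs a)) hf (hA a)
  obtain ⟨c, hc, hc0⟩ : ∃ c : Fin (k + 1) → ℝ,
      (LinearMap.pi fun p : (Σ a : ι, N a) => φ p.1 p.2) c = 0 ∧ c ≠ 0 := by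
    refine Submodule.exists_mem_ne_zero_of_ne_bot (LinearMap.ker_ne_bot_of_finrank_lt ?_)
    simp only [Module.finrank_fintype_fun_eq_card, Fintype.card_sigma, Fintype.card_coe,
      Fintype.card_fin]
    calc _ ≤ ∑ a, n a := Finset.sum_le_sum fun a _ => hN a
      _ < k + 1 := by omega
  have h3 : ∀ a, lam * Sq (A a) (cm f c) ≤ En (A a) (cm f c) := fun a =>
    hφ a c fun i hi => congrFun hc ⟨a, i, hi⟩
  have hu := cm_cd hf c
  have hae : Ω =ᵐ[volume] ⋃ a, A a := by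
    rw [ae_eq_set]
    refine ⟨h0, ?_⟩
    rw [sdiff_eq_empty.2 (iUnion_subset hs), measure_empty]
  have hsum : ∀ F : E d → ℝ, Continuous F → ∫ x in Ω, F x = ∑ a, ∫ x in A a, F x := fun F hF => by
    rw [setIntegral_congr_set hae]
    exact integral_iUnion_fintype (fun a => (ho a).measurableSet) hd
      fun a => (intOn hΩ.2.2.2 hF).mono_set (hs a)
  have h4 : En Ω (cm f c) = ∑ a, En (A a) (cm f c) :=
    hsum _ ((hu.continuous_fderiv (by norm_num)).norm.pow 2)
  have h5 : Sq Ω (cm f c) = ∑ a, Sq (A a) (cm f c) := hsum _ (hu.continuous.pow 2)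
  have h6 : lam * Sq Ω (cm f c) ≤ En Ω (cm f c) := by
    rw [h4, h5, Finset.mul_sum]
    exact Finset.sum_le_sum fun a _ => h3 a
  exact le_of_mul_le_mul_right (h6.trans (hM c)) (Sq_pos hΩ hf hi hc0)

end Basic

theorem pIso : StIso := fun _ _ _ _ φ h => Basic.iso φ h

theorem pDS2 : StDS2 := Basic.ds2

theorem pBr2 : StBr2 := Basic.br2

end Pool.Agent.P.MP_5c8462_an.Pl
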