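import Pool.Agent.P.MP_5c8462_an.Pl.Defs

set_option autoImplicit false

namespace Pool.Agent.P.MP_5c8462_an.Pl

open MeasureTheory Real Set Pool.Agent.P.MP_5c8462_an.Ord

namespace CellD

theorem shift (u : ℝ → ℝ) (x0 : ℝ) {l : ℝ} (hl : 0 ≤ l) :
    ∫ x in Ioo x0 (x0 + l), u (x - x0) = ∫ t in Ioo 0 l, u t := by
  rw [← integral_Ioc_eq_integral_Ioo, ← integral_Ioc_eq_integral_Ioo,
    ← intervalIntegral.integral_of_le (by linarith), ← intervalIntegral.integral_of_le hl,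
    intervalIntegral.integral_comp_sub_right]
  simp

theorem rect_open (x0 l y0 h : ℝ) : IsOpen (rect x0 l y0 h) := by
  have h0 : Continuous fun z : E 2 => z 0 := by fun_prop
  have h1 : Continuous fun z : E 2 => z 1 := by fun_prop
  exact (isOpen_lt continuous_const h0).inter ((isOpen_lt h0 continuous_const).inter
    ((isOpen_lt continuous_const h1).inter (isOpen_lt h1 continuous_const)))

theorem rect_pre (x0 l y0 h : ℝ) : (fun q : ℝ × ℝ => pt q.1 q.2) ⁻¹' rect x0 l y0 h =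
    Ioo x0 (x0 + l) ×ˢ Ioo y0 (y0 + h) := by
  ext q
  simp [rect, and_assoc]

theorem int_rect (u v : ℝ → ℝ) (x0 y0 : ℝ) {l h : ℝ} (hl : 0 ≤ l) (hh : 0 ≤ h) :
    ∫ z in rect x0 l y0 h, u (z 0 - x0) * v (z 1 - y0) =
      (∫ t in Ioo 0 l, u t) * ∫ t in Ioo 0 h, v t := by
  rw [← pt_mp.setIntegral_preimage_emb pt_emb, rect_pre, ← shift u x0 hl, ← shift v y0 hh]
  exact setIntegral_prod_mul (fun x => u (x - x0)) (fun y => v (y - y0)) _ _

theorem vol_rect (x0 y0 : ℝ) {l h : ℝ} (hl : 0 ≤ l) :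
    volume (rect x0 l y0 h) = ENNReal.ofReal (l * h) := by
  rw [← pt_mp.measure_preimage (rect_open x0 l y0 h).measurableSet.nullMeasurableSet, rect_pre,
    Measure.volume_eq_prod, Measure.prod_prod, Real.volume_Ioo, Real.volume_Ioo,
    ENNReal.ofReal_mul hl]
  simp

theorem sliver {Ω : Set (E 2)} (hΩ : Dom Ω) {x0 l y0 h δ C : ℝ} (hl : 0 ≤ l) (hh : 0 ≤ h)
    (hδ : 0 ≤ δ) (hC : 0 ≤ C) (hR : rect x0 l y0 h ⊆ Ω) {F : E 2 → ℝ} (hF : Continuous F)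
    (hb : ∀ z, |F z| ≤ C) (h0 : ∀ z ∈ Ω, z ∉ rect x0 l (y0 - δ) (h + 2 * δ) → F z = 0) :
    |(∫ z in Ω, F z) - ∫ z in rect x0 l y0 h, F z| ≤ C * (2 * δ * l) := by
  have hI : IntegrableOn F Ω := AdmL.intOn hΩ.2.2.2 hF
  have m1 := (rect_open x0 l y0 h).measurableSet
  have m2 := (rect_open x0 l (y0 - δ) (h + 2 * δ)).measurableSet
  have mΩ := hΩ.2.1.measurableSet
  have hsub : rect x0 l y0 h ⊆ rect x0 l (y0 - δ) (h + 2 * δ) := by
    rintro z ⟨a, b, c, d⟩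
    exact ⟨a, b, by linarith, by linarith⟩
  rw [← setIntegral_sdiff m1 hI hR]
  have e : ∫ z in Ω \ rect x0 l y0 h, F z =
      ∫ z in (Ω \ rect x0 l y0 h) ∩ rect x0 l (y0 - δ) (h + 2 * δ), F z := by
    refine setIntegral_eq_of_subset_of_forall_sdiff_eq_zero (mΩ.diff m1) inter_subset_left ?_
    rintro z ⟨hz, hz'⟩
    exact h0 z hz.1 fun h2 => hz' ⟨hz, h2⟩
  have v2 : volume (rect x0 l (y0 - δ) (h + 2 * δ)) ≠ ⊤ := by
    rw [vol_rect _ _ hl]
    exact ENNReal.ofReal_ne_top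
  have hv : volume.real ((Ω \ rect x0 l y0 h) ∩ rect x0 l (y0 - δ) (h + 2 * δ)) ≤ 2 * δ * l := by
    have h1 : volume.real ((Ω \ rect x0 l y0 h) ∩ rect x0 l (y0 - δ) (h + 2 * δ)) ≤
        volume.real (rect x0 l (y0 - δ) (h + 2 * δ) \ rect x0 l y0 h) :=
      measureReal_mono (fun z hz => ⟨hz.2, hz.1.2⟩)
        (ne_top_of_le_ne_top v2 (measure_mono sdiff_subset))
    rw [measureReal_sdiff hsub m1 v2, measureReal_def volume (rect _ _ _ _),
      measureReal_def volume (rect _ _ _ _), vol_rect _ _ hl,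
      vol_rect _ _ hl, ENNReal.toReal_ofReal (by positivity),
      ENNReal.toReal_ofReal (by positivity)] at h1
    linarith
  rw [e]
  have h3 := norm_setIntegral_le_of_norm_le_const (μ := volume) (f := F) (C := C)
    (s := (Ω \ rect x0 l y0 h) ∩ rect x0 l (y0 - δ) (h + 2 * δ))
    (lt_of_le_of_lt (measure_mono inter_subset_right) (lt_top_iff_ne_top.2 v2)) fun z _ => hb z
  exact h3.trans (mul_le_mul_of_nonneg_left hv hC)

/-- Tensor product of two functions of one variable. -/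
noncomputable def tp (u v : ℝ → ℝ) (x0 y0 : ℝ) (z : E 2) : ℝ := u (z 0 - x0) * v (z 1 - y0)

theorem tp_smooth {u v : ℝ → ℝ} (hu : ContDiff ℝ 1 u) (hv : ContDiff ℝ 1 v) (x0 y0 : ℝ) :
    ContDiff ℝ 1 (tp u v x0 y0) := by
  have h0 : ContDiff ℝ 1 fun z : E 2 => z 0 := (EuclideanSpace.proj (0 : Fin 2) : E 2 →L[ℝ] ℝ).contDiff
  have h1 : ContDiff ℝ 1 fun z : E 2 => z 1 := (EuclideanSpace.proj (1 : Fin 2) : E 2 →L[ℝ] ℝ).contDiff
  exact (hu.comp (h0.sub contDiff_const)).mul (hv.comp (h1.sub contDiff_const))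

theorem tp_cont {u v : ℝ → ℝ} (hu : Continuous u) (hv : Continuous v) (x0 y0 : ℝ) :
    Continuous (tp u v x0 y0) := by
  unfold tp
  fun_prop

theorem tp_d0 {u v : ℝ → ℝ} (hu : ContDiff ℝ 1 u) (hv : ContDiff ℝ 1 v) (x0 y0 : ℝ) (z : E 2) :
    dd (tp u v x0 y0) 0 z = tp (deriv u) v x0 y0 z := by
  have h1 := dd_x ((tp_smooth hu hv x0 y0).differentiable one_ne_zero) (z 0) (z 1)
  rw [pt_eta] at h1
  have h2 : HasDerivAt (fun s => u (s - x0) * v (z 1 - y0)) (deriv u (z 0 - x0) * v (z 1 - y0))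
      (z 0) :=
    ((hu.differentiable one_ne_zero _).hasDerivAt.comp_sub_const (z 0) x0).mul_const _
  exact h1.unique h2

theorem tp_d1 {u v : ℝ → ℝ} (hu : ContDiff ℝ 1 u) (hv : ContDiff ℝ 1 v) (x0 y0 : ℝ) (z : E 2) :
    dd (tp u v x0 y0) 1 z = tp u (deriv v) x0 y0 z := by
  have h1 := dd_y ((tp_smooth hu hv x0 y0).differentiable one_ne_zero) (z 0) (z 1)
  rw [pt_eta] at h1
  have h2 : HasDerivAt (fun s => u (z 0 - x0) * v (s - y0)) (u (z 0 - x0) * deriv v (z 1 - y0))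
      (z 1) :=
    ((hv.differentiable one_ne_zero _).hasDerivAt.comp_sub_const (z 1) y0).const_mul _
  exact h1.unique h2

theorem prod_est {X Y x y τ K : ℝ} (hX : |X - x| ≤ τ) (hY : |Y - y| ≤ τ) (hx : |x| ≤ K)
    (hy : |y| ≤ K) (hτ : τ ≤ 1) : |X * Y - x * y| ≤ τ * (2 * K + 1) := by
  have e : X * Y - x * y = (X - x) * (Y - y) + (X - x) * y + x * (Y - y) := by ring
  have h0 : 0 ≤ τ := (abs_nonneg _).trans hX
  have hK : 0 ≤ K := (abs_nonneg _).trans hx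
  have a1 : |(X - x) * (Y - y)| ≤ τ * 1 := by
    rw [abs_mul]
    exact mul_le_mul hX (hY.trans hτ) (abs_nonneg _) h0
  have a2 : |(X - x) * y| ≤ τ * K := by
    rw [abs_mul]
    exact mul_le_mul hX hy (abs_nonneg _) h0
  have a3 : |x * (Y - y)| ≤ K * τ := by
    rw [abs_mul]
    exact mul_le_mul hx hY (abs_nonneg _) hK
  rw [e]
  have := abs_add_three ((X - x) * (Y - y)) ((X - x) * y) (x * (Y - y))
  linarith

/-- One Gram entry. -/
theorem entry {Ω : Set (E 2)} (hΩ : Dom Ω) {x0 l y0 h δ D τ K x y : ℝ} (hl : 0 ≤ l) (hh : 0 ≤ h)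
    (hδ : 0 ≤ δ) (hR : rect x0 l y0 h ⊆ Ω) {u u' v v' : ℝ → ℝ} (cu : Continuous u)
    (cu' : Continuous u') (cv : Continuous v) (cv' : Continuous v') (bu : ∀ t, |u t| ≤ D)
    (bu' : ∀ t, |u' t| ≤ D) (bv : ∀ t, |v t| ≤ D) (bv' : ∀ t, |v' t| ≤ D)
    (h0 : ∀ z ∈ Ω, z ∉ rect x0 l (y0 - δ) (h + 2 * δ) → tp u v x0 y0 z = 0)
    (hX : |(∫ t in Ioo 0 l, u t * u' t) - x| ≤ τ) (hY : |(∫ t in Ioo 0 h, v t * v' t) - y| ≤ τ)
    (hx : |x| ≤ K) (hy : |y| ≤ K) (hτ : τ ≤ 1) :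
    |(∫ z in Ω, tp u v x0 y0 z * tp u' v' x0 y0 z) - x * y| ≤
      τ * (2 * K + 1) + D ^ 4 * (2 * δ * l) := by
  have hD : 0 ≤ D := (abs_nonneg _).trans (bu 0)
  have h1 := sliver hΩ hl hh hδ (pow_nonneg hD 4) hR
    (F := fun z => tp u v x0 y0 z * tp u' v' x0 y0 z)
    ((tp_cont cu cv x0 y0).mul (tp_cont cu' cv' x0 y0)) (fun z => by
      simp only [tp, abs_mul]
      calc |u (z 0 - x0)| * |v (z 1 - y0)| * (|u' (z 0 - x0)| * |v' (z 1 - y0)|)
          ≤ D * D * (D * D) := by gcongr <;> first | exact bu _ | exact bv _ | exact bu' _ | exact bv' _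
        _ = D ^ 4 := by ring) (fun z hz hz' => by simp only [h0 z hz hz', zero_mul])
  have h2 : ∫ z in rect x0 l y0 h, tp u v x0 y0 z * tp u' v' x0 y0 z =
      (∫ t in Ioo 0 l, u t * u' t) * ∫ t in Ioo 0 h, v t * v' t := by
    rw [← int_rect (fun t => u t * u' t) (fun t => v t * v' t) x0 y0 hl hh]
    refine integral_congr_ae (Filter.Eventually.of_forall fun z => ?_)
    simp only [tp]
    ring
  rw [h2] at h1
  have h3 := prod_est hX hY hx hy hτ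
  have := abs_sub_le (∫ z in Ω, tp u v x0 y0 z * tp u' v' x0 y0 z)
    ((∫ t in Ioo 0 l, u t * u' t) * ∫ t in Ioo 0 h, v t * v' t) (x * y)
  linarith

theorem core (hG : StGram) {Ω U : Set (E 2)} (hΩ : Dom Ω) {ι : Type} [Fintype ι] (a b : ι → ℕ)
    (hinj : ∀ p q, a p = a q → b p = b q → p = q) (s t : ℕ → ℝ → ℝ) (α γ μ ν : ℕ → ℝ)
    {x0 l y0 h δ D τ K β Λ η : ℝ} (hs : ∀ i, ContDiff ℝ 1 (s i)) (ht : ∀ i, ContDiff ℝ 1 (t i))
    (hl : 0 ≤ l) (hh : 0 ≤ h) (hδ : 0 ≤ δ) (hR : rect x0 l y0 h ⊆ Ω)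
    (hR' : Ω ∩ U ⊆ rect x0 l (y0 - δ) (h + 2 * δ))
    (hU : ∀ p z, z ∉ U → (s (a p) (z 0 - x0) = 0 ∧ deriv (s (a p)) (z 0 - x0) = 0) ∨
      (t (b p) (z 1 - y0) = 0 ∧ deriv (t (b p)) (z 1 - y0) = 0))
    (bs : ∀ p x, |s (a p) x| ≤ D ∧ |deriv (s (a p)) x| ≤ D)
    (bt : ∀ p x, |t (b p) x| ≤ D ∧ |deriv (t (b p)) x| ≤ D)
    (gs : ∀ p q, |(∫ x in Ioo 0 l, s (a p) x * s (a q) x) - if a p = a q then α (a p) else 0| ≤ τ ∧
      |(∫ x in Ioo 0 l, deriv (s (a p)) x * deriv (s (a q)) x) -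
        if a p = a q then μ (a p) * α (a p) else 0| ≤ τ)
    (gt : ∀ p q, |(∫ x in Ioo 0 h, t (b p) x * t (b q) x) - if b p = b q then γ (b p) else 0| ≤ τ ∧
      |(∫ x in Ioo 0 h, deriv (t (b p)) x * deriv (t (b q)) x) -
        if b p = b q then ν (b p) * γ (b p) else 0| ≤ τ)
    (hK : ∀ p, |α (a p)| ≤ K ∧ |μ (a p) * α (a p)| ≤ K ∧ |γ (b p)| ≤ K ∧ |ν (b p) * γ (b p)| ≤ K)
    (hτ : τ ≤ 1) (hΛ : 0 ≤ Λ) (hη : 0 < η) (hβ : 0 < β)
    (hb : ∀ p, β ≤ α (a p) * γ (b p)) (hlam : ∀ p, μ (a p) + ν (b p) ≤ Λ)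
    (hc : Fintype.card ι * (2 * (τ * (2 * K + 1) + D ^ 4 * (2 * δ * l))) * (1 + Λ + η) < η * β) :
    Spc Ω U (Fintype.card ι) (Λ + η) := by
  have cs := fun i => (hs i).continuous
  have ct := fun i => (ht i).continuous
  have cs' := fun i => (hs i).continuous_deriv le_rfl
  have ct' := fun i => (ht i).continuous_deriv le_rfl
  have z0 : ∀ p z, z ∉ U → tp (s (a p)) (t (b p)) x0 y0 z = 0 ∧
      tp (deriv (s (a p))) (t (b p)) x0 y0 z = 0 ∧ tp (s (a p)) (deriv (t (b p))) x0 y0 z = 0 := by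
    intro p z hz
    rcases hU p z hz with ⟨h1, h2⟩ | ⟨h1, h2⟩ <;> simp [tp, h1, h2]
  have nU : ∀ z ∈ Ω, z ∉ rect x0 l (y0 - δ) (h + 2 * δ) → z ∉ U := fun z hz hz' hu =>
    hz' (hR' ⟨hz, hu⟩)
  have ite : ∀ (c : Prop) [Decidable c] (x : ℝ), |x| ≤ K → |if c then x else 0| ≤ K := by
    intro c _ x hx
    split_ifs
    · exact hx
    · simpa using (abs_nonneg _).trans hx
  have e0 := fun p q => entry hΩ hl hh hδ hR (cs (a p)) (cs (a q)) (ct (b p)) (ct (b q))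
    (fun x => (bs p x).1) (fun x => (bs q x).1) (fun x => (bt p x).1) (fun x => (bt q x).1)
    (fun z hz hz' => (z0 p z (nU z hz hz')).1) (gs p q).1 (gt p q).1 (ite _ _ (hK p).1)
    (ite _ _ (hK p).2.2.1) hτ
  have e1 := fun p q => entry hΩ hl hh hδ hR (cs' (a p)) (cs' (a q)) (ct (b p)) (ct (b q))
    (fun x => (bs p x).2) (fun x => (bs q x).2) (fun x => (bt p x).1) (fun x => (bt q x).1)
    (fun z hz hz' => (z0 p z (nU z hz hz')).2.1) (gs p q).2 (gt p q).1 (ite _ _ (hK p).2.1)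
    (ite _ _ (hK p).2.2.1) hτ
  have e2 := fun p q => entry hΩ hl hh hδ hR (cs (a p)) (cs (a q)) (ct' (b p)) (ct' (b q))
    (fun x => (bs p x).1) (fun x => (bs q x).1) (fun x => (bt p x).2) (fun x => (bt q x).2)
    (fun z hz hz' => (z0 p z (nU z hz hz')).2.2) (gs p q).1 (gt p q).2 (ite _ _ (hK p).1)
    (ite _ _ (hK p).2.2.2) hτ
  set T := τ * (2 * K + 1) + D ^ 4 * (2 * δ * l) with hT
  have hT0 : ∀ _p : ι, T ≤ 2 * T := fun p => by
    have := (abs_nonneg _).trans (e0 p p)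
    linarith
  have off : ∀ p q, p ≠ q → ∀ x y : ℝ,
      (if a p = a q then x else 0) * (if b p = b q then y else 0) = 0 := by
    intro p q hpq x y
    by_cases h1 : a p = a q
    · rw [if_neg fun h2 => hpq (hinj p q h1 h2), mul_zero]
    · rw [if_neg h1, zero_mul]
  have split : ∀ p q, ∫ z in Ω, (dd (tp (s (a p)) (t (b p)) x0 y0) 0 z *
      dd (tp (s (a q)) (t (b q)) x0 y0) 0 z + dd (tp (s (a p)) (t (b p)) x0 y0) 1 z *
      dd (tp (s (a q)) (t (b q)) x0 y0) 1 z) =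
      (∫ z in Ω, tp (deriv (s (a p))) (t (b p)) x0 y0 z * tp (deriv (s (a q))) (t (b q)) x0 y0 z) +
      ∫ z in Ω, tp (s (a p)) (deriv (t (b p))) x0 y0 z * tp (s (a q)) (deriv (t (b q))) x0 y0 z := by
    intro p q
    simp only [tp_d0 (hs _) (ht _), tp_d1 (hs _) (ht _)]
    exact integral_add
      (AdmL.intOn hΩ.2.2.2 ((tp_cont (cs' _) (ct _) x0 y0).mul (tp_cont (cs' _) (ct _) x0 y0)))
      (AdmL.intOn hΩ.2.2.2 ((tp_cont (cs _) (ct' _) x0 y0).mul (tp_cont (cs _) (ct' _) x0 y0)))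
  refine hG Ω U hΩ ι (fun p => tp (s (a p)) (t (b p)) x0 y0) (fun p => α (a p) * γ (b p))
    (fun p => μ (a p) + ν (b p)) β (2 * T) Λ η (fun p => tp_smooth (hs _) (ht _) x0 y0)
    (fun p z hz => ⟨(z0 p z hz).1, ?_⟩) hΛ hη hβ hb hlam hc (fun p => ?_) (fun p q hpq => ?_)
    (fun p => ?_) fun p q hpq => ?_
  · have h1 := dd_norm (tp (s (a p)) (t (b p)) x0 y0) z
    rw [tp_d0 (hs _) (ht _), tp_d1 (hs _) (ht _), (z0 p z hz).2.1, (z0 p z hz).2.2] at h1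
    simpa using h1
  · have h1 := e0 p p
    rw [if_pos rfl, if_pos rfl] at h1
    exact h1.trans (hT0 p)
  · have h1 := e0 p q
    rw [off p q hpq, sub_zero] at h1
    exact h1.trans (hT0 p)
  · have h1 := e1 p p
    have h2 := e2 p p
    rw [if_pos rfl, if_pos rfl] at h1 h2
    rw [split p p, abs_le] at *
    constructor <;> nlinarith [h1.1, h1.2, h2.1, h2.2]
  · have h1 := e1 p q
    have h2 := e2 p q
    rw [off p q hpq, sub_zero] at h1 h2
    rw [split p q]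
    exact (abs_add_le _ _).trans (by linarith)

theorem small {C ε : ℝ} (hC : 0 ≤ C) (hε : 0 < ε) : ∃ τ : ℝ, 0 < τ ∧ τ ≤ 1 ∧ C * τ < ε := by
  refine ⟨min 1 (ε / (C + 1)), lt_min one_pos (by positivity), min_le_left _ _, ?_⟩
  calc C * min 1 (ε / (C + 1)) ≤ C * (ε / (C + 1)) :=
        mul_le_mul_of_nonneg_left (min_le_right _ _) hC
    _ < ε := by
      rw [mul_div_assoc', div_lt_iff₀ (by positivity)]
      nlinarith

theorem freq {c Λ : ℝ} {n : ℕ} (hc : 0 < c) (hn : (π * n / c) ^ 2 < Λ) : n ≤ ⌈c * √Λ / π⌉₊ := by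
  have h1 : π * n / c < √Λ := Real.lt_sqrt_of_sq_lt hn
  have h2 : (n : ℝ) ≤ c * √Λ / π := by
    rw [le_div_iff₀ pi_pos]
    rw [div_lt_iff₀ hc] at h1
    linarith
  exact_mod_cast h2.trans (Nat.le_ceil _)

theorem cos_deriv (c x : ℝ) : deriv (fun y => cos (c * y)) x = -(c * sin (c * x)) := by
  have h := ((hasDerivAt_id x).const_mul c).cos
  simp only [id, mul_one] at h
  rw [h.deriv]
  ring

theorem cos_gram {h : ℝ} (hh : 0 < h) (j k : ℕ) :
    (∫ x in Ioo 0 h, cos (π * j / h * x) * cos (π * k / h * x)) = (if j = k then nrm h j else 0) ∧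
    (∫ x in Ioo 0 h, deriv (fun y => cos (π * j / h * y)) x *
      deriv (fun y => cos (π * k / h * y)) x) =
      if j = k then (π * j / h) ^ 2 * nrm h j else 0 := by
  have e : ∫ x in Ioo 0 h, deriv (fun y => cos (π * j / h * y)) x *
      deriv (fun y => cos (π * k / h * y)) x = (π * j / h) * (π * k / h) *
        ∫ x in Icc 0 h, sin (π * j / h * x) * sin (π * k / h * x) := by
    rw [integral_Icc_eq_integral_Ioo, ← integral_const_mul]
    refine integral_congr_ae (Filter.Eventually.of_forall fun x => ?_)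
    simp only [cos_deriv]
    ring
  rw [e, ← integral_Icc_eq_integral_Ioo, cc_eq, ss_eq]
  by_cases hjk : j = k
  · subst hjk
    by_cases h0 : j = 0
    · subst h0
      simp [J_zero hh, nrm]
    · have h1 : (j : ℤ) + j ≠ 0 := by omega
      rw [sub_self, J_zero hh, J_ne hh h1]
      simp only [nrm, if_neg h0, if_true]
      constructor <;> ring
  · have h1 : (j : ℤ) - k ≠ 0 := by omega
    have h2 : (j : ℤ) + k ≠ 0 := by omega
    rw [J_ne hh h1, J_ne hh h2]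
    simp [hjk]

end CellD

open CellD

theorem pCellDD (hC : StCut) (hG : StGram) : StCellDD := by
  intro l Λ η hl hΛ hη Ω hΩ x0 y0 hR
  set S := {q : ℕ × ℕ | 1 ≤ q.1 ∧ 1 ≤ q.2 ∧ (π * q.1 / l) ^ 2 + (π * q.2 / l) ^ 2 < Λ} with hS
  have : Fintype S := (cnt_fin 1 1 hl hl Λ).fintype
  have hcard : Fintype.card S = cnt 1 1 l l Λ := by
    rw [← Nat.card_eq_fintype_card, Nat.card_coe_set_eq]
    rfl
  obtain ⟨τ, hτ0, hτ, hτc⟩ := small (C := Fintype.card S * (2 * (2 * ((1 + Λ) * l) + 1)) *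
    (1 + Λ + η)) (ε := η * (l / 2 * (l / 2))) (by positivity) (by positivity)
  obtain ⟨s, B, hs, h0, hb, hg⟩ := hC l τ ⌈l * √Λ / π⌉₊ hl hτ0
  have f1 : ∀ p : S, (π * p.1.1 / l) ^ 2 < Λ := fun p => by
    nlinarith [p.2.2.2, sq_nonneg (π * p.1.2 / l)]
  have f2 : ∀ p : S, (π * p.1.2 / l) ^ 2 < Λ := fun p => by
    nlinarith [p.2.2.2, sq_nonneg (π * p.1.1 / l)]
  have k1 : |l / 2| ≤ (1 + Λ) * l := by
    rw [abs_of_pos (by positivity)]
    nlinarith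
  have k2 : ∀ x : ℝ, x ^ 2 < Λ → |x ^ 2 * (l / 2)| ≤ (1 + Λ) * l := fun x hx => by
    rw [abs_of_nonneg (by positivity)]
    nlinarith
  have bd : ∀ i, i ≤ ⌈l * √Λ / π⌉₊ → ∀ x, |s i x| ≤ max 1 B ∧ |deriv (s i) x| ≤ max 1 B :=
    fun i hi x => ⟨(hb i hi x).1.trans (le_max_left _ _), (hb i hi x).2.trans (le_max_right _ _)⟩
  rw [← hcard]
  refine core hG hΩ (fun p : S => p.1.1) (fun p => p.1.2)
    (fun p q h1 h2 => Subtype.ext (Prod.ext h1 h2)) s s (fun _ => l / 2) (fun _ => l / 2)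
    (fun i => (π * i / l) ^ 2) (fun i => (π * i / l) ^ 2) (δ := 0) (D := max 1 B)
    (K := (1 + Λ) * l) (β := l / 2 * (l / 2)) hs hs hl.le hl.le le_rfl hR
    (fun z hz => by simpa using hz.2) (fun p z hz => ?_) (fun p => bd _ (freq hl (f1 p)))
    (fun p => bd _ (freq hl (f2 p)))
    (fun p q => hg _ _ p.2.1 (freq hl (f1 p)) q.2.1 (freq hl (f1 q)))
    (fun p q => hg _ _ p.2.2.1 (freq hl (f2 p)) q.2.2.1 (freq hl (f2 q)))
    (fun p => ⟨k1, k2 _ (f1 p), k1, k2 _ (f2 p)⟩) hτ hΛ.le hη (by positivity)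
    (fun _ => le_rfl) (fun p => p.2.2.2.le) (by linarith)
  by_cases h1 : z 0 - x0 ∈ Ioo 0 l
  · refine Or.inr (h0 _ _ fun h2 => hz ⟨?_, ?_, ?_, ?_⟩) <;> linarith [h1.1, h1.2, h2.1, h2.2]
  · exact Or.inl (h0 _ _ h1)

theorem pCellDN (hC : StCut) (hG : StGram) (hn : StCnt) : StCellDN := by
  intro l Λ η w0 W hl hΛ hη hw
  set N : ℝ := ((cnt 1 0 l W Λ : ℕ) : ℝ) with hN
  have hN0 : 0 ≤ N := Nat.cast_nonneg _
  set K : ℝ := (1 + Λ) * (l + |W|) with hK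
  have hK0 : 0 ≤ K := by positivity
  obtain ⟨τ, hτ0, hτ, hτc⟩ := small (C := N * (2 * (2 * K + 1)) * (1 + Λ + η))
    (ε := η * (l / 2 * (w0 / 2)) / 2) (by positivity) (by positivity)
  obtain ⟨s, B, hs, h0, hb, hg⟩ := hC l τ ⌈l * √Λ / π⌉₊ hl hτ0
  set D : ℝ := max (1 + Λ) B with hD
  have hD1 : 1 + Λ ≤ D := le_max_left _ _
  obtain ⟨δ, hδ0, -, hδc⟩ := small (C := N * (2 * (D ^ 4 * (2 * l))) * (1 + Λ + η))
    (ε := η * (l / 2 * (w0 / 2)) / 2) (by positivity) (by positivity)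
  refine ⟨δ, hδ0, fun Ω hΩ x0 y0 h hh hW hR hR' => ?_⟩
  have hp : 0 < h := hw.trans_le hh
  have hW' : h ≤ |W| := hW.trans (le_abs_self W)
  set S := {q : ℕ × ℕ | 1 ≤ q.1 ∧ 0 ≤ q.2 ∧ (π * q.1 / l) ^ 2 + (π * q.2 / h) ^ 2 < Λ} with hS
  have : Fintype S := (cnt_fin 1 0 hl hp Λ).fintype
  have hcard : Fintype.card S = cnt 1 0 l h Λ := by
    rw [← Nat.card_eq_fintype_card, Nat.card_coe_set_eq]
    rfl
  have hle : (Fintype.card S : ℝ) ≤ N := by
    rw [hcard, hN]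
    exact_mod_cast hn.1 1 0 l h W Λ hl hp hW
  have f1 : ∀ p : S, (π * p.1.1 / l) ^ 2 < Λ := fun p => by
    nlinarith [p.2.2.2, sq_nonneg (π * p.1.2 / h)]
  have f2 : ∀ p : S, (π * p.1.2 / h) ^ 2 < Λ := fun p => by
    nlinarith [p.2.2.2, sq_nonneg (π * p.1.1 / l)]
  have n1 : ∀ j, h / 2 ≤ nrm h j ∧ nrm h j ≤ h := fun j => by
    unfold nrm
    split_ifs <;> constructor <;> linarith
  have k1 : ∀ y : ℝ, 0 ≤ y → y ≤ l + |W| → |y| ≤ K := fun y h1 h2 => by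
    rw [abs_of_nonneg h1, hK]
    nlinarith
  have k2 : ∀ x y : ℝ, x ^ 2 < Λ → 0 ≤ y → y ≤ l + |W| → |x ^ 2 * y| ≤ K := fun x y hx h1 h2 => by
    rw [abs_of_nonneg (by positivity), hK]
    nlinarith [mul_le_mul_of_nonneg_right hx.le h1]
  have l1 : l / 2 ≤ l + |W| := by linarith [abs_nonneg W]
  rw [← hcard]
  refine core hG hΩ (fun p : S => p.1.1) (fun p => p.1.2)
    (fun p q h1 h2 => Subtype.ext (Prod.ext h1 h2)) s (fun j y => cos (π * j / h * y))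
    (fun _ => l / 2) (nrm h) (fun i => (π * i / l) ^ 2) (fun j => (π * j / h) ^ 2) (D := D)
    (τ := τ) (K := K) (β := l / 2 * (w0 / 2)) hs (fun j => by fun_prop) hl.le hp.le hδ0.le hR hR'
    (fun p z hz => Or.inl (h0 _ _ fun h1 => hz ⟨by linarith [h1.1], by linarith [h1.2]⟩))
    (fun p x => ⟨(hb _ (freq hl (f1 p)) x).1.trans (by linarith),
      (hb _ (freq hl (f1 p)) x).2.trans (le_max_right _ _)⟩)
    (fun p x => ⟨(abs_cos_le_one _).trans (by linarith), ?_⟩)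
    (fun p q => hg _ _ p.2.1 (freq hl (f1 p)) q.2.1 (freq hl (f1 q))) (fun p q => ?_)
    (fun p => ⟨k1 _ (by positivity) l1, k2 _ _ (f1 p) (by positivity) l1,
      k1 _ (by linarith [(n1 p.1.2).1]) (by linarith [(n1 p.1.2).2]),
      k2 _ _ (f2 p) (by linarith [(n1 p.1.2).1]) (by linarith [(n1 p.1.2).2])⟩) hτ hΛ.le hη
    (by positivity)
    (fun p => mul_le_mul_of_nonneg_left (by linarith [(n1 p.1.2).1]) (by positivity))
    (fun p => p.2.2.2.le) ?_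
  · rw [cos_deriv, abs_neg, abs_mul]
    have h1 : |π * p.1.2 / h| ≤ 1 + Λ := by
      rw [abs_of_nonneg (by positivity)]
      nlinarith [f2 p, sq_nonneg (π * p.1.2 / h - 1)]
    calc |π * p.1.2 / h| * |sin (π * p.1.2 / h * x)| ≤ (1 + Λ) * 1 :=
          mul_le_mul h1 (abs_sin_le_one _) (abs_nonneg _) (by positivity)
      _ ≤ D := by linarith
  · rw [(cos_gram hp p.1.2 q.1.2).1, (cos_gram hp p.1.2 q.1.2).2]
    simp [hτ0.le]
  · have hD0 : 0 ≤ D := by linarith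
    calc (Fintype.card S : ℝ) * (2 * (τ * (2 * K + 1) + D ^ 4 * (2 * δ * l))) * (1 + Λ + η)
        ≤ N * (2 * (τ * (2 * K + 1) + D ^ 4 * (2 * δ * l))) * (1 + Λ + η) := by gcongr
      _ < η * (l / 2 * (w0 / 2)) := by linarith

end Pool.Agent.P.MP_5c8462_an.Pl
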