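import Pool.Agent.P.MP_5c8462_an.Pl.Defs

set_option autoImplicit false

namespace Pool.Agent.P.MP_5c8462_an.Pl

open MeasureTheory Real Set Pool.Agent.P.MP_5c8462_an.Ord

namespace CellThin

theorem sec_meas {Ω : Set (E 2)} (hΩ : MeasurableSet Ω) : Measurable (sec Ω) := by
  have h1 : MeasurableSet {q : ℝ × ℝ | pt q.1 q.2 ∈ Ω} := pt_cont.measurable hΩ
  exact (measurable_measure_prodMk_left (ν := (volume : Measure ℝ)) h1).ennreal_toReal

theorem int_sec {Ω : Set (E 2)} (hΩ : Dom Ω) {F : ℝ → ℝ} (hF : Continuous F) :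
    ∫ z in Ω, F (z 0) = ∫ x, F x * sec Ω x := by
  have hm : MeasurableSet Ω := hΩ.2.1.measurableSet
  have hc : Continuous fun z : E 2 => F (z 0) := hF.comp (by fun_prop)
  rw [← integral_indicator hm, int_fub ((integrable_indicator_iff hm).2 (K.intOn hΩ hc))]
  refine integral_congr_ae (Filter.Eventually.of_forall fun x => ?_)
  have hx : MeasurableSet {y : ℝ | pt x y ∈ Ω} :=
    (pt_cont.comp (Continuous.prodMk_right x)).measurable hm
  have e : (fun y => Ω.indicator (fun z : E 2 => F (z 0)) (pt x y)) =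
      {y : ℝ | pt x y ∈ Ω}.indicator fun _ => F x := by
    funext y
    by_cases h : pt x y ∈ Ω
    · rw [indicator_of_mem h, indicator_of_mem (show y ∈ {y : ℝ | pt x y ∈ Ω} from h)]
      rfl
    · rw [indicator_of_notMem h, indicator_of_notMem (show y ∉ {y : ℝ | pt x y ∈ Ω} from h)]
  show ∫ y, Ω.indicator (fun z : E 2 => F (z 0)) (pt x y) = F x * sec Ω x
  rw [e, integral_indicator hx, setIntegral_const, smul_eq_mul, mul_comm]
  rfl

theorem key {Ω : Set (E 2)} (hΩ : Dom Ω) {F : ℝ → ℝ} (hF : Continuous F) {l x0 w κ A : ℝ}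
    (hl : 0 < l) (h0 : ∀ t, t ∉ Ioo 0 l → F t = 0) (hA : ∀ t, |F t| ≤ A)
    (hs : ∀ x ∈ Ioo x0 (x0 + l), w ≤ sec Ω x ∧ sec Ω x ≤ (1 + κ) * w) :
    |(∫ z in Ω, F (z 0 - x0)) - w * ∫ t in Ioo 0 l, F t| ≤ A * (κ * w) * l := by
  have h1 := int_sec hΩ (F := fun x => F (x - x0)) (hF.comp (by fun_prop))
  have h2 : ∫ x, F (x - x0) * sec Ω x = ∫ t, F t * sec Ω (t + x0) := by
    rw [← integral_add_right_eq_self (fun x => F (x - x0) * sec Ω x) x0]
    simp
  have h3 : ∫ t, F t * sec Ω (t + x0) = ∫ t in Ioo 0 l, F t * sec Ω (t + x0) := by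
    refine (setIntegral_eq_integral_of_forall_compl_eq_zero fun t ht => ?_).symm
    rw [h0 t ht, zero_mul]
  have hb : ∀ t ∈ Ioo (0 : ℝ) l, ‖F t * (sec Ω (t + x0) - w)‖ ≤ A * (κ * w) := by
    intro t ht
    obtain ⟨a1, a2⟩ := hs (t + x0) ⟨by linarith [ht.1], by linarith [ht.2]⟩
    rw [Real.norm_eq_abs, abs_mul, abs_of_nonneg (show 0 ≤ sec Ω (t + x0) - w by linarith)]
    exact mul_le_mul (hA t) (by linarith) (by linarith) ((abs_nonneg _).trans (hA t))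
  have hv : volume (Ioo (0 : ℝ) l) < ⊤ := by simp
  have hm : Measurable fun t => F t * (sec Ω (t + x0) - w) :=
    hF.measurable.mul (((sec_meas hΩ.2.1.measurableSet).comp (by fun_prop)).sub measurable_const)
  have i1 : IntegrableOn (fun t => F t * (sec Ω (t + x0) - w)) (Ioo 0 l) :=
    Measure.integrableOn_of_bounded hv.ne hm.aestronglyMeasurable
      ((ae_restrict_iff' measurableSet_Ioo).2 (Filter.Eventually.of_forall hb))
  have i2 : IntegrableOn (fun t => w * F t) (Ioo 0 l) :=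
    (((continuous_const.mul hF).continuousOn.integrableOn_Icc (a := 0) (b := l)).mono_set
      Ioo_subset_Icc_self)
  have h4 : ∫ t in Ioo 0 l, F t * sec Ω (t + x0) =
      (∫ t in Ioo 0 l, F t * (sec Ω (t + x0) - w)) + w * ∫ t in Ioo 0 l, F t := by
    rw [← integral_const_mul, ← integral_add i1 i2]
    refine integral_congr_ae (Filter.Eventually.of_forall fun t => ?_)
    ring
  have h5 := norm_setIntegral_le_of_norm_le_const hv hb
  rw [h1, h2, h3, h4, add_sub_cancel_right]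
  rw [Real.norm_eq_abs] at h5
  have h6 : volume.real (Ioo (0 : ℝ) l) = l := by simp [hl.le]
  rwa [h6] at h5

theorem fd {s : ℝ → ℝ} (hs : ContDiff ℝ 1 s) (x0 : ℝ) (z : E 2) :
    HasFDerivAt (fun z : E 2 => s (z 0 - x0))
      (deriv s (z 0 - x0) • (EuclideanSpace.proj (0 : Fin 2) : E 2 →L[ℝ] ℝ)) z := by
  have h1 : HasFDerivAt (fun z : E 2 => z 0 - x0)
      (EuclideanSpace.proj (0 : Fin 2) : E 2 →L[ℝ] ℝ) z :=
    (EuclideanSpace.proj (0 : Fin 2) : E 2 →L[ℝ] ℝ).hasFDerivAt.sub_const x0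
  exact ((hs.differentiable one_ne_zero) _).hasDerivAt.comp_hasFDerivAt z h1

theorem dd0 {s : ℝ → ℝ} (hs : ContDiff ℝ 1 s) (x0 : ℝ) (z : E 2) :
    dd (fun z : E 2 => s (z 0 - x0)) 0 z = deriv s (z 0 - x0) := by
  unfold dd
  rw [(fd hs x0 z).fderiv]
  simp

theorem dd1 {s : ℝ → ℝ} (hs : ContDiff ℝ 1 s) (x0 : ℝ) (z : E 2) :
    dd (fun z : E 2 => s (z 0 - x0)) 1 z = 0 := by
  unfold dd
  rw [(fd hs x0 z).fderiv]
  simp

theorem close {a c d w e τ : ℝ} (hw : 0 < w) (h1 : |a - w * c| ≤ e * w) (h2 : |c - d| ≤ τ)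
    (he : e ≤ τ) : |a - w * d| ≤ w * (2 * τ) := by
  have h3 : |w * c - w * d| ≤ w * τ := by
    rw [← mul_sub, abs_mul, abs_of_pos hw]
    exact mul_le_mul_of_nonneg_left h2 hw.le
  have h4 := abs_sub_le a (w * c) (w * d)
  nlinarith

end CellThin

theorem pCellThin (hC : StCut) (hG : StGram) : StCellThin := by
  intro l Λ η hl hΛ hη
  obtain ⟨n, hn⟩ : ∃ n : ℕ, n = ⌈l * √Λ / π⌉₊ := ⟨_, rfl⟩
  obtain ⟨τ, hτ⟩ : ∃ τ : ℝ, τ = η * l / (8 * (n + 1) * (1 + Λ + η)) := ⟨_, rfl⟩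
  have hτ0 : 0 < τ := by rw [hτ]; positivity
  obtain ⟨s, B, hs1, hs2, hs3, hs4⟩ := hC l τ n hl hτ0
  refine ⟨τ / (l * (1 + B ^ 2)), by positivity, ?_⟩
  intro Ω hΩ x0 w h hw hh hhΛ hsec
  obtain ⟨S, hS⟩ : ∃ S : Finset (ℕ × ℕ), S = (cnt_fin 1 0 hl hh Λ).toFinset := ⟨_, rfl⟩
  have hcnt : cnt 1 0 l h Λ = Fintype.card S := by
    rw [Fintype.card_coe, hS, cnt, Set.ncard_eq_toFinset_card _ (cnt_fin 1 0 hl hh Λ)]
  have hmem : ∀ q ∈ S, 1 ≤ q.1 ∧ q.1 ≤ n ∧ q.2 = 0 ∧ (π * q.1 / l) ^ 2 ≤ Λ := by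
    intro q hq
    rw [hS, Set.Finite.mem_toFinset] at hq
    obtain ⟨h1, -, h2⟩ := hq
    have h3 : (π * q.1 / l) ^ 2 < Λ := by nlinarith [sq_nonneg (π * q.2 / h)]
    refine ⟨h1, ?_, ?_, h3.le⟩
    · have h4 : π * q.1 / l < √Λ := Real.lt_sqrt_of_sq_lt h3
      have h5 : (q.1 : ℝ) ≤ l * √Λ / π := by
        rw [le_div_iff₀ pi_pos]
        rw [div_lt_iff₀ hl] at h4
        linarith
      rw [hn]
      exact_mod_cast h5.trans (Nat.le_ceil _)
    · by_contra hne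
      have h4 : (1 : ℝ) ≤ q.2 := by exact_mod_cast Nat.one_le_iff_ne_zero.2 hne
      have h5 : (π * q.2 / h) ^ 2 < Λ := by nlinarith [sq_nonneg (π * q.1 / l)]
      rw [div_pow, div_lt_iff₀ (by positivity), mul_pow] at h5
      have h6 : π ^ 2 * 1 ≤ π ^ 2 * (q.2 : ℝ) ^ 2 :=
        mul_le_mul_of_nonneg_left (by nlinarith) (by positivity)
      nlinarith
  have hne : ∀ p q : S, p ≠ q → p.1.1 ≠ q.1.1 := by
    intro p q hpq he
    exact hpq (Subtype.ext (Prod.ext he ((hmem _ p.2).2.2.1.trans (hmem _ q.2).2.2.1.symm)))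
  have hcard : Fintype.card S ≤ n + 1 := by
    have := Fintype.card_le_of_injective (fun p : S => (⟨p.1.1, Nat.lt_succ_of_le
      (hmem _ p.2).2.1⟩ : Fin (n + 1))) fun p q he => by
        by_contra hpq
        exact hne p q hpq (congrArg Fin.val he)
    simpa using this
  have hκ : ∀ A : ℝ, A ≤ 1 + B ^ 2 → A * (τ / (l * (1 + B ^ 2))) * l ≤ τ := by
    intro A hA
    have e : A * (τ / (l * (1 + B ^ 2))) * l = A / (1 + B ^ 2) * τ := by
      field_simp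
    rw [e]
    have : A / (1 + B ^ 2) ≤ 1 := (div_le_one (by positivity)).2 hA
    nlinarith
  have g1 : ∀ p q : S, |(∫ z in Ω, s p.1.1 (z 0 - x0) * s q.1.1 (z 0 - x0)) -
      w * (if p.1.1 = q.1.1 then l / 2 else 0)| ≤ w * (2 * τ) := by
    intro p q
    obtain ⟨p1, p2, -⟩ := hmem _ p.2
    obtain ⟨q1, q2, -⟩ := hmem _ q.2
    have h1 := CellThin.key hΩ (F := fun t => s p.1.1 t * s q.1.1 t) (A := 1)
      ((hs1 _).continuous.mul (hs1 _).continuous) hl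
      (fun t ht => by rw [(hs2 _ t ht).1, zero_mul])
      (fun t => by
        rw [abs_mul]
        exact mul_le_one₀ (hs3 _ p2 t).1 (abs_nonneg _) (hs3 _ q2 t).1) hsec
    refine CellThin.close hw (e := 1 * (τ / (l * (1 + B ^ 2))) * l) (h1.trans (le_of_eq ?_))
      (hs4 _ _ p1 p2 q1 q2).1 (hκ 1 (by nlinarith [sq_nonneg B]))
    ring
  have g2 : ∀ p q : S, |(∫ z in Ω, deriv (s p.1.1) (z 0 - x0) * deriv (s q.1.1) (z 0 - x0)) -
      w * (if p.1.1 = q.1.1 then (π * p.1.1 / l) ^ 2 * (l / 2) else 0)| ≤ w * (2 * τ) := by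
    intro p q
    obtain ⟨p1, p2, -⟩ := hmem _ p.2
    obtain ⟨q1, q2, -⟩ := hmem _ q.2
    have h1 := CellThin.key hΩ (F := fun t => deriv (s p.1.1) t * deriv (s q.1.1) t) (A := B ^ 2)
      (((hs1 _).continuous_deriv le_rfl).mul ((hs1 _).continuous_deriv le_rfl)) hl
      (fun t ht => by rw [(hs2 _ t ht).2, zero_mul])
      (fun t => by
        rw [abs_mul, sq]
        exact mul_le_mul (hs3 _ p2 t).2 (hs3 _ q2 t).2 (abs_nonneg _)
          ((abs_nonneg _).trans (hs3 _ p2 t).2)) hsec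
    refine CellThin.close hw (e := B ^ 2 * (τ / (l * (1 + B ^ 2))) * l) (h1.trans (le_of_eq ?_))
      (hs4 _ _ p1 p2 q1 q2).2 (hκ _ (by linarith))
    ring
  rw [hcnt]
  refine hG Ω (slab x0 l) hΩ S (fun p z => s p.1.1 (z 0 - x0)) (fun _ => w * (l / 2))
    (fun p => (π * p.1.1 / l) ^ 2) (w * (l / 2)) (w * (2 * τ)) Λ η ?_ ?_ hΛ.le hη (by positivity)
    (fun _ => le_rfl) (fun p => (hmem _ p.2).2.2.2) ?_ ?_ ?_ ?_ ?_
  · intro p
    exact (hs1 _).comp ((EuclideanSpace.proj (0 : Fin 2) : E 2 →L[ℝ] ℝ).contDiff.sub contDiff_const)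
  · intro p z hz
    have ht : z 0 - x0 ∉ Ioo 0 l := fun ht => hz ⟨by linarith [ht.1], by linarith [ht.2]⟩
    refine ⟨(hs2 _ _ ht).1, ?_⟩
    rw [(CellThin.fd (hs1 _) x0 z).fderiv, (hs2 _ _ ht).2, zero_smul]
  · have h1 : (Fintype.card S : ℝ) ≤ n + 1 := by exact_mod_cast hcard
    have h2 : ((n : ℝ) + 1) * (w * (2 * τ)) * (1 + Λ + η) = η * (w * (l / 4)) := by
      rw [hτ]
      field_simp
      ring
    have h3 : (Fintype.card S : ℝ) * (w * (2 * τ)) * (1 + Λ + η) ≤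
        ((n : ℝ) + 1) * (w * (2 * τ)) * (1 + Λ + η) := by gcongr
    have h4 : 0 < η * (w * l) := by positivity
    nlinarith
  · intro p
    simpa using g1 p p
  · intro p q hpq
    simpa [hne p q hpq] using g1 p q
  · intro p
    have h1 := g2 p p
    rw [if_pos rfl] at h1
    simp only [CellThin.dd0 (hs1 _), CellThin.dd1 (hs1 _), mul_zero, add_zero]
    rwa [show (π * p.1.1 / l) ^ 2 * (w * (l / 2)) = w * ((π * p.1.1 / l) ^ 2 * (l / 2)) by ring]
  · intro p q hpq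
    have h1 := g2 p q
    rw [if_neg (hne p q hpq), mul_zero, sub_zero] at h1
    simpa only [CellThin.dd0 (hs1 _), CellThin.dd1 (hs1 _), mul_zero, add_zero] using h1

end Pool.Agent.P.MP_5c8462_an.Pl
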