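import Pool.Agent.P.MP_5c8462_an.Pl.Defs

set_option autoImplicit false

namespace Pool.Agent.P.MP_5c8462_an.Pl

open MeasureTheory Real Set Pool.Agent.P.MP_5c8462_an.Ord

namespace Cnt

theorem plus_one {S T : Set (ℕ × ℕ)} (hT : T.Finite) (φ : ℕ × ℕ → ℕ × ℕ)
    (hφ : Function.Injective φ) (hS : ∀ q ∈ S, φ q ∈ T) (p : ℕ × ℕ) (hp : p ∈ T)
    (hp' : ∀ q, φ q ≠ p) : S.ncard + 1 ≤ T.ncard := by
  have h1 : φ '' S ⊆ T := by
    rintro _ ⟨q, hq, rfl⟩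
    exact hS q hq
  have h2 : p ∉ φ '' S := by
    rintro ⟨q, -, hq⟩
    exact hp' q hq
  rw [← Set.ncard_image_of_injective S hφ, ← Set.ncard_insert_of_notMem h2 (hT.subset h1)]
  exact Set.ncard_le_ncard (Set.insert_subset hp h1) hT

theorem mono (a b : ℕ) (l h h' Λ : ℝ) (hl : 0 < l) (hh : 0 < h) (hh' : h ≤ h') :
    cnt a b l h Λ ≤ cnt a b l h' Λ := by
  refine Set.ncard_le_ncard ?_ (cnt_fin a b hl (hh.trans_le hh') Λ)
  rintro q ⟨h1, h2, h3⟩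
  refine ⟨h1, h2, lt_of_le_of_lt ?_ h3⟩
  have h0 : 0 ≤ π * q.2 := by positivity
  have h4 : π * q.2 / h' ≤ π * q.2 / h := div_le_div_of_nonneg_left h0 hh hh'
  have h5 : 0 ≤ π * q.2 / h' := div_nonneg h0 (hh.trans_le hh').le
  have h6 := pow_le_pow_left₀ h5 h4 2
  linarith

theorem thin (l h Λ : ℝ) (hl : 0 < l) (hh : 0 < h) (hΛ : 0 < Λ) (hπ : h ^ 2 * Λ ≤ π ^ 2) :
    cnt 0 0 l h Λ = ⌈l * √Λ / π⌉₊ := by
  have key : ∀ i : ℕ, (π * i / l) ^ 2 < Λ ↔ i < ⌈l * √Λ / π⌉₊ := by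
    intro i
    rw [Nat.lt_ceil, lt_div_iff₀ pi_pos, ← Real.lt_sqrt (by positivity), div_lt_iff₀ hl]
    constructor <;> intro h <;> linarith
  have e : {q : ℕ × ℕ | 0 ≤ q.1 ∧ 0 ≤ q.2 ∧ (π * q.1 / l) ^ 2 + (π * q.2 / h) ^ 2 < Λ} =
      (fun i : ℕ => (i, (0 : ℕ))) '' (Finset.range ⌈l * √Λ / π⌉₊ : Set ℕ) := by
    ext ⟨i, j⟩
    simp only [Set.mem_setOf_eq, Set.mem_image, Finset.coe_range, Set.mem_Iio, Prod.mk.injEq]
    constructor
    · rintro ⟨-, -, h3⟩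
      have hj : j = 0 := by
        by_contra hj
        have h1 : (1 : ℝ) ≤ j := by exact_mod_cast Nat.one_le_iff_ne_zero.2 hj
        have h2 : π / h ≤ π * j / h := by
          gcongr
          nlinarith [pi_pos]
        have h4 := pow_le_pow_left₀ (by positivity) h2 2
        have h5 : Λ ≤ (π / h) ^ 2 := by
          rw [div_pow, le_div_iff₀ (by positivity)]
          linarith
        nlinarith [sq_nonneg (π * i / l)]
      subst hj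
      refine ⟨i, (key i).1 ?_, rfl, rfl⟩
      simpa using h3
    · rintro ⟨k, hk, rfl, rfl⟩
      refine ⟨Nat.zero_le _, le_rfl, ?_⟩
      simpa using (key k).2 hk
  unfold cnt
  rw [e, Set.ncard_image_of_injective _ (fun i j h => (Prod.mk.inj h).1), Set.ncard_coe_finset,
    Finset.card_range]

theorem ten : 1 ≤ cnt 1 1 10 10 (1 / 2) := by
  refine (Set.ncard_pos (cnt_fin 1 1 (by norm_num) (by norm_num) _)).2 ⟨(1, 1), le_rfl, le_rfl, ?_⟩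
  have h1 := pi_pos
  have h2 := pi_le_four
  simp only [Nat.cast_one, mul_one]
  nlinarith

theorem gap (Λ1 Λ2 : ℝ) (h1 : 0 < Λ1) (h2 : Λ1 < Λ2) : ∃ l : ℝ, 1 ≤ l ∧
    (∀ h : ℝ, 0 < h → cnt 0 0 l h Λ1 + 1 ≤ cnt 1 0 l h Λ2) ∧
    cnt 0 0 l l Λ1 + 1 ≤ cnt 1 1 l l Λ2 := by
  have hs : 0 < √Λ1 := Real.sqrt_pos.2 h1
  have hδ : 0 < Λ2 - Λ1 := by linarith
  have hq : 0 < π * (6 * √Λ1 + 20) / (Λ2 - Λ1) := by have := pi_pos; positivity
  obtain ⟨l, hl⟩ : ∃ l : ℝ, l = 1 + π * (6 * √Λ1 + 20) / (Λ2 - Λ1) := ⟨_, rfl⟩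
  have l1 : 1 ≤ l := by linarith
  have l0 : 0 < l := by linarith
  have a0 : 0 < π / l := div_pos pi_pos l0
  have a4 : π / l ≤ 4 := (div_le_self pi_pos.le l1).trans pi_le_four
  have a1 : π / l * (6 * √Λ1 + 20) < Λ2 - Λ1 := by
    have h3 : π * (6 * √Λ1 + 20) / (Λ2 - Λ1) < l := by linarith
    rw [div_lt_iff₀ hδ] at h3
    rw [div_mul_eq_mul_div, div_lt_iff₀ l0]
    linarith
  have a2 : 6 * (π / l) * √Λ1 + 5 * (π / l) ^ 2 < Λ2 - Λ1 := by nlinarith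
  have lt : ∀ x y : ℝ, x ^ 2 + y ^ 2 < Λ1 → x ≤ √Λ1 := fun x y h =>
    (Real.lt_sqrt_of_sq_lt (by nlinarith [sq_nonneg y])).le
  refine ⟨l, l1, fun h hh => ?_, ?_⟩
  · refine plus_one (cnt_fin 1 0 l0 hh Λ2) (fun q => (q.1 + 2, q.2)) ?_ ?_ (1, 0) ?_ ?_
    · rintro ⟨a, b⟩ ⟨c, d⟩ h
      simp only [Prod.mk.injEq] at h ⊢
      omega
    · rintro ⟨i, j⟩ ⟨-, -, h3⟩
      refine ⟨by simp, Nat.zero_le _, ?_⟩
      have h4 := lt _ _ h3
      have e : π * ((i + 2 : ℕ) : ℝ) / l = π * i / l + 2 * (π / l) := by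
        push_cast
        ring
      simp only at h3 h4 ⊢
      rw [e]
      nlinarith [mul_le_mul_of_nonneg_left h4 a0.le, mul_pos a0 hs]
    · refine ⟨le_rfl, le_rfl, ?_⟩
      simp only [Nat.cast_one, mul_one, Nat.cast_zero, mul_zero, zero_div]
      nlinarith [mul_pos a0 hs]
    · rintro ⟨i, j⟩ h
      simp only [Prod.mk.injEq] at h
      omega
  · refine plus_one (cnt_fin 1 1 l0 l0 Λ2) (fun q => (q.1 + 2, q.2 + 1)) ?_ ?_ (1, 1) ?_ ?_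
    · rintro ⟨a, b⟩ ⟨c, d⟩ h
      simp only [Prod.mk.injEq] at h ⊢
      omega
    · rintro ⟨i, j⟩ ⟨-, -, h3⟩
      refine ⟨by simp, by simp, ?_⟩
      have h4 := lt _ _ h3
      have h5 := lt _ _ ((add_comm _ _).trans_lt h3)
      have e : π * ((i + 2 : ℕ) : ℝ) / l = π * i / l + 2 * (π / l) := by
        push_cast
        ring
      have e' : π * ((j + 1 : ℕ) : ℝ) / l = π * j / l + π / l := by
        push_cast
        ring
      simp only at h3 h4 h5 ⊢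
      rw [e, e']
      nlinarith [mul_le_mul_of_nonneg_left h4 a0.le, mul_le_mul_of_nonneg_left h5 a0.le]
    · refine ⟨le_rfl, le_rfl, ?_⟩
      simp only [Nat.cast_one, mul_one]
      nlinarith [mul_pos a0 hs]
    · rintro ⟨i, j⟩ h
      simp only [Prod.mk.injEq] at h
      omega

end Cnt

theorem pCnt : StCnt :=
  ⟨Cnt.mono, Cnt.thin, Cnt.ten, Cnt.gap⟩

end Pool.Agent.P.MP_5c8462_an.Pl
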