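import Pool.Agent.P.MP_5c8462_an.Pl.Defs

set_option autoImplicit false

namespace Pool.Agent.P.MP_5c8462_an.Pl

open MeasureTheory Real Set Filter Topology

namespace Cut

/-- Zero up to `1`, the identity from `2` on. -/
noncomputable def g (x : ℝ) : ℝ := x * smoothTransition (x - 1)

theorem g_cd : ContDiff ℝ 1 g :=
  contDiff_id.mul (smoothTransition.contDiff.comp (contDiff_id.sub contDiff_const))

theorem g_lo {x : ℝ} (h : x < 1) : g x = 0 ∧ deriv g x = 0 := by
  have e : g =ᶠ[𝓝 x] fun _ => 0 := (gt_mem_nhds h).mono fun y hy => by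
    rw [g, smoothTransition.zero_of_nonpos (by linarith), mul_zero]
  exact ⟨e.self_of_nhds, by rw [e.deriv_eq, deriv_const]⟩

theorem g_hi {x : ℝ} (h : 2 < x) : g x = x ∧ deriv g x = 1 := by
  have e : g =ᶠ[𝓝 x] id := (lt_mem_nhds h).mono fun y hy => by
    rw [g, smoothTransition.one_of_one_le (by linarith), mul_one, id]
  exact ⟨e.self_of_nhds, by rw [e.deriv_eq, deriv_id]⟩

theorem g_bd : ∃ C : ℝ, 1 ≤ C ∧ ∀ x, |deriv g x| ≤ C := by
  obtain ⟨C, hC⟩ := (isCompact_Icc (a := (1 : ℝ)) (b := 2)).exists_bound_of_continuousOn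
    (g_cd.continuous_deriv le_rfl).continuousOn
  refine ⟨max 1 C, le_max_left _ _, fun x => ?_⟩
  by_cases h1 : x < 1
  · simp [(g_lo h1).2]
  by_cases h2 : 2 < x
  · simp [(g_hi h2).2]
  exact (hC x ⟨not_lt.1 h1, not_lt.1 h2⟩).trans (le_max_right _ _)

/-- The change of variable. -/
noncomputable def ph (l θ t : ℝ) : ℝ := θ * g (t / θ) + (l - t) - θ * g ((l - t) / θ)

/-- Its derivative. -/
noncomputable def dph (l θ t : ℝ) : ℝ := deriv g (t / θ) - 1 + deriv g ((l - t) / θ)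

/-- The modified sines. -/
noncomputable def s (l θ : ℝ) (i : ℕ) (t : ℝ) : ℝ := sin (π * i / l * ph l θ t)

theorem s_cd (l θ : ℝ) (i : ℕ) : ContDiff ℝ 1 (s l θ i) := by
  have := g_cd
  unfold s ph
  fun_prop

theorem s_deriv (l : ℝ) {θ : ℝ} (hθ : θ ≠ 0) (i : ℕ) (t : ℝ) :
    deriv (s l θ i) t = cos (π * i / l * ph l θ t) * (π * i / l * dph l θ t) := by
  have hg : ∀ x, HasDerivAt g (deriv g x) x := fun x =>
    (g_cd.differentiable one_ne_zero x).hasDerivAt
  have h1 := ((hg _).comp t ((hasDerivAt_id t).div_const θ)).const_mul θ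
  have h2 := (hasDerivAt_id t).const_sub l
  have h3 := ((hg _).comp t (h2.div_const θ)).const_mul θ
  have h4 : HasDerivAt (ph l θ) (dph l θ t) t := by
    refine ((h1.add h2).sub h3).congr_deriv ?_
    simp only [dph, id]
    field_simp
    ring
  exact (h4.const_mul (π * i / l)).sin.deriv

theorem ph_mid {l θ t : ℝ} (hθ : 0 < θ) (h1 : 2 * θ < t) (h2 : 2 * θ < l - t) :
    ph l θ t = t ∧ dph l θ t = 1 := by
  have a1 := g_hi ((lt_div_iff₀ hθ).2 h1)
  have a2 := g_hi ((lt_div_iff₀ hθ).2 h2)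
  rw [ph, dph, a1.1, a1.2, a2.1, a2.2]
  refine ⟨?_, by ring⟩
  field_simp
  ring

theorem s_out {l θ t : ℝ} (hθ : 0 < θ) (hl : 2 * θ < l) (i : ℕ) (ht : t ∉ Ioo 0 l) :
    s l θ i t = 0 ∧ deriv (s l θ i) t = 0 := by
  rw [s_deriv l hθ.ne', s, ph, dph]
  rcases le_or_gt t 0 with h | h
  · have a1 := g_lo (x := t / θ) ((div_lt_one hθ).2 (by linarith))
    have a2 := g_hi (x := (l - t) / θ) ((lt_div_iff₀ hθ).2 (by linarith))
    rw [a1.1, a1.2, a2.1, a2.2, mul_div_cancel₀ _ hθ.ne']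
    simp
  · have h' : l ≤ t := not_lt.1 fun h' => ht ⟨h, h'⟩
    have a1 := g_hi (x := t / θ) ((lt_div_iff₀ hθ).2 (by linarith))
    have a2 := g_lo (x := (l - t) / θ) ((div_lt_one hθ).2 (by linarith))
    have e : π * i / l * (t + (l - t) - θ * 0) = i * π := by
      have : l ≠ 0 := by linarith
      field_simp
      ring
    rw [a1.1, a1.2, a2.1, a2.2, mul_div_cancel₀ _ hθ.ne', e]
    simp

theorem lim {l : ℝ} {F : ℝ → ℝ → ℝ} {f : ℝ → ℝ} {B : ℝ} (hF : ∀ θ, Continuous (F θ))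
    (hB : ∀ θ, 0 < θ → ∀ t, |F θ t| ≤ B)
    (h : ∀ θ t, 0 < θ → 2 * θ < t → 2 * θ < l - t → F θ t = f t) :
    Tendsto (fun θ => ∫ t in Ioo 0 l, F θ t) (𝓝[>] 0) (𝓝 (∫ t in Icc 0 l, f t)) := by
  rw [integral_Icc_eq_integral_Ioo]
  refine tendsto_integral_filter_of_dominated_convergence (fun _ => B)
    (Eventually.of_forall fun θ => (hF θ).aestronglyMeasurable)
    (eventually_mem_nhdsWithin.mono fun θ hθ => Eventually.of_forall (hB θ hθ))
    (integrable_const _) ((ae_restrict_mem measurableSet_Ioo).mono fun t ht => ?_)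
  refine tendsto_const_nhds.congr' ?_
  have h1 : 0 < min t (l - t) / 2 := by
    have := lt_min ht.1 (sub_pos.2 ht.2)
    linarith
  filter_upwards [Ioo_mem_nhdsGT h1] with θ hθ
  have := hθ.2
  exact (h θ t hθ.1 (by linarith [min_le_left t (l - t)])
    (by linarith [min_le_right t (l - t)])).symm

end Cut

open Cut in
theorem pCut : StCut := by
  intro l τ n hl hτ
  obtain ⟨C, hC1, hC⟩ := g_bd
  have b1 : ∀ θ i t, |s l θ i t| ≤ 1 := fun θ i t => abs_sin_le_one _
  have b2 : ∀ θ, 0 < θ → ∀ i ≤ n, ∀ t, |deriv (s l θ i) t| ≤ π * n / l * (3 * C) := by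
    intro θ hθ i hi t
    have a1 : |dph l θ t| ≤ 3 * C := by
      have := abs_le.1 (hC (t / θ))
      have := abs_le.1 (hC ((l - t) / θ))
      rw [dph, abs_le]
      constructor <;> linarith
    rw [s_deriv l hθ.ne', abs_mul, abs_mul, abs_of_nonneg (a := π * i / l) (by positivity)]
    refine (mul_le_of_le_one_left (by positivity) (abs_cos_le_one _)).trans ?_
    gcongr
  have key : ∀ i ≤ n, ∀ i' ≤ n, ∀ᶠ θ in 𝓝[>] 0, 1 ≤ i → 1 ≤ i' →
      |(∫ t in Ioo 0 l, s l θ i t * s l θ i' t) - if i = i' then l / 2 else 0| ≤ τ ∧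
      |(∫ t in Ioo 0 l, deriv (s l θ i) t * deriv (s l θ i') t) -
        if i = i' then (π * i / l) ^ 2 * (l / 2) else 0| ≤ τ := by
    intro i hi i' hi'
    have h1 := lim (l := l) (F := fun θ t => s l θ i t * s l θ i' t) (B := 1 * 1)
      (f := fun t => sin (π * i / l * t) * sin (π * i' / l * t))
      (fun θ => (s_cd l θ i).continuous.mul (s_cd l θ i').continuous)
      (fun θ _ t => by rw [abs_mul]; exact mul_le_mul (b1 _ _ _) (b1 _ _ _) (abs_nonneg _) one_pos.le)
      fun θ t a1 a2 a3 => by simp only [s, (ph_mid a1 a2 a3).1]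
    have h2 := lim (l := l) (F := fun θ t => deriv (s l θ i) t * deriv (s l θ i') t)
      (B := π * n / l * (3 * C) * (π * n / l * (3 * C)))
      (f := fun t => π * i / l * (π * i' / l) * (cos (π * i / l * t) * cos (π * i' / l * t)))
      (fun θ => ((s_cd l θ i).continuous_deriv le_rfl).mul ((s_cd l θ i').continuous_deriv le_rfl))
      (fun θ hθ t => by
        rw [abs_mul]
        exact mul_le_mul (b2 θ hθ i hi t) (b2 θ hθ i' hi' t) (abs_nonneg _) (by positivity))
      fun θ t a1 a2 a3 => by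
        simp only [s_deriv l a1.ne', (ph_mid a1 a2 a3).1, (ph_mid a1 a2 a3).2]
        ring
    rw [ss_eq] at h1
    rw [integral_const_mul, cc_eq] at h2
    filter_upwards [Metric.tendsto_nhds.1 h1 τ hτ, Metric.tendsto_nhds.1 h2 τ hτ] with θ a1 a2 c1 c2
    rw [Real.dist_eq, J_ne hl (z := i + i') (by omega)] at a1 a2
    by_cases h : i = i'
    · subst h
      rw [sub_self, J_zero hl] at a1 a2
      simp only [if_true]
      exact ⟨by simpa using a1.le, by simpa [sq] using a2.le⟩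
    · rw [J_ne hl (by omega)] at a1 a2
      simp only [h, if_false]
      exact ⟨by simpa using a1.le, by simpa using a2.le⟩
  have k2 := (eventually_all_finite (Set.finite_Iic n)).2 fun i hi =>
    (eventually_all_finite (Set.finite_Iic n)).2 (key i hi)
  obtain ⟨θ, h1, h2⟩ := (k2.and (Ioo_mem_nhdsGT (half_pos hl))).exists
  exact ⟨s l θ, _, s_cd l θ, fun i t => s_out h2.1 (by linarith [h2.2]) i,
    fun i hi t => ⟨b1 θ i t, b2 θ h2.1 i hi t⟩, fun i i' a1 a2 a3 a4 => h1 i a2 i' a4 a1 a3⟩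

end Pool.Agent.P.MP_5c8462_an.Pl
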