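import Pool.Agent.P.MP_5c8462_an.Ord.Main

set_option autoImplicit false

namespace Pool.Agent.P.MP_5c8462_an.Pl

open MeasureTheory Real Set Pool.Agent.P.MP_5c8462_an.Ord

/-- A point of the plane. -/
noncomputable def pt (x y : ℝ) : E 2 := !₂[x, y]

@[simp] theorem pt_zero (x y : ℝ) : pt x y 0 = x := rfl
@[simp] theorem pt_one (x y : ℝ) : pt x y 1 = y := rfl

theorem pt_eta (z : E 2) : pt (z 0) (z 1) = z := by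
  ext i
  fin_cases i <;> rfl

theorem pt_cont : Continuous fun q : ℝ × ℝ => pt q.1 q.2 := by
  unfold pt
  fun_prop

theorem pt_mp : MeasurePreserving (fun q : ℝ × ℝ => pt q.1 q.2) volume volume := by
  have h1 := (PiLp.volume_preserving_toLp (Fin 2)).comp
    (volume_preserving_finTwoArrow ℝ).symm
  exact h1

theorem pt_emb : MeasurableEmbedding fun q : ℝ × ℝ => pt q.1 q.2 :=
  (MeasurableEquiv.toLp 2 (Fin 2 → ℝ)).measurableEmbedding.comp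
    (MeasurableEquiv.finTwoArrow (α := ℝ)).symm.measurableEmbedding

/-- Fubini in the plane. -/
theorem int_fub {F : E 2 → ℝ} (hF : Integrable F) : ∫ z, F z = ∫ x, ∫ y, F (pt x y) := by
  rw [← pt_mp.integral_comp pt_emb]
  exact integral_prod _ (pt_mp.integrable_comp_of_integrable hF)

/-- Open rectangle. -/
def rect (x0 l y0 h : ℝ) : Set (E 2) := {z | x0 < z 0 ∧ z 0 < x0 + l ∧ y0 < z 1 ∧ z 1 < y0 + h}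

/-- Open vertical slab. -/
def slab (x0 l : ℝ) : Set (E 2) := {z | x0 < z 0 ∧ z 0 < x0 + l}

/-- Length of a vertical section. -/
noncomputable def sec (Ω : Set (E 2)) (x : ℝ) : ℝ := volume.real {y : ℝ | pt x y ∈ Ω}

/-- Number of rectangle frequencies below a level. -/
noncomputable def cnt (a b : ℕ) (l h Λ : ℝ) : ℕ :=
  Set.ncard {q : ℕ × ℕ | a ≤ q.1 ∧ b ≤ q.2 ∧ (π * q.1 / l) ^ 2 + (π * q.2 / h) ^ 2 < Λ}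

/-- An `n`-dimensional space of test functions living in `U`. -/
def Spc {d : ℕ} (Ω U : Set (E d)) (n : ℕ) (M : ℝ) : Prop :=
  ∃ f : Fin n → E d → ℝ, (∀ i, ContDiff ℝ 1 (f i)) ∧
    (∀ i x, x ∉ U → f i x = 0 ∧ fderiv ℝ (f i) x = 0) ∧
    (∀ c : Fin n → ℝ, (∀ x ∈ Ω, ∑ i, c i * f i x = 0) → c = 0) ∧
    ∀ c : Fin n → ℝ, En Ω (fun x => ∑ i, c i * f i x) ≤ M * Sq Ω fun x => ∑ i, c i * f i x

/-- Partial derivative. -/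
noncomputable def dd (u : E 2 → ℝ) (r : Fin 2) (z : E 2) : ℝ :=
  fderiv ℝ u z (EuclideanSpace.single r 1)

/-- Squared norm of a cosine on an interval of length `h`. -/
noncomputable def nrm (h : ℝ) (j : ℕ) : ℝ := if j = 0 then h else h / 2

theorem dd_norm (u : E 2 → ℝ) (z : E 2) : ‖fderiv ℝ u z‖ ^ 2 = dd u 0 z ^ 2 + dd u 1 z ^ 2 := by
  have h := (EuclideanSpace.basisFun (Fin 2) ℝ).norm_dual (fderiv ℝ u z)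
  rw [h, Fin.sum_univ_two]
  simp [dd]

theorem dd_x {u : E 2 → ℝ} (hu : Differentiable ℝ u) (x y : ℝ) :
    HasDerivAt (fun s => u (pt s y)) (dd u 0 (pt x y)) x := by
  have h1 : HasDerivAt (fun s : ℝ => pt s y) (EuclideanSpace.single 0 1) x := by
    have e : (fun s : ℝ => pt s y) =
        fun s : ℝ => s • (EuclideanSpace.single 0 1 : E 2) + pt 0 y := by
      funext s
      ext i
      fin_cases i <;> simp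
    rw [e]
    simpa using ((hasDerivAt_id x).smul_const (EuclideanSpace.single 0 1 : E 2)).add_const (pt 0 y)
  exact (hu _).hasFDerivAt.comp_hasDerivAt x h1

theorem dd_y {u : E 2 → ℝ} (hu : Differentiable ℝ u) (x y : ℝ) :
    HasDerivAt (fun s => u (pt x s)) (dd u 1 (pt x y)) y := by
  have h1 : HasDerivAt (fun s : ℝ => pt x s) (EuclideanSpace.single 1 1) y := by
    have e : (fun s : ℝ => pt x s) =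
        fun s : ℝ => s • (EuclideanSpace.single 1 1 : E 2) + pt x 0 := by
      funext s
      ext i
      fin_cases i <;> simp
    rw [e]
    simpa using ((hasDerivAt_id y).smul_const (EuclideanSpace.single 1 1 : E 2)).add_const (pt x 0)
  exact (hu _).hasFDerivAt.comp_hasDerivAt y h1

theorem dd_cont {u : E 2 → ℝ} (hu : ContDiff ℝ 1 u) (r : Fin 2) : Continuous (dd u r) :=
  (hu.continuous_fderiv one_ne_zero).clm_apply continuous_const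

theorem cnt_fin (a b : ℕ) {l h : ℝ} (hl : 0 < l) (hh : 0 < h) (Λ : ℝ) :
    Set.Finite {q : ℕ × ℕ | a ≤ q.1 ∧ b ≤ q.2 ∧ (π * q.1 / l) ^ 2 + (π * q.2 / h) ^ 2 < Λ} := by
  have key : ∀ (c : ℝ) (n : ℕ), 0 < c → (π * n / c) ^ 2 < Λ → n ≤ ⌈c * √Λ / π⌉₊ := by
    intro c n hc hn
    have h1 : π * n / c < √Λ := Real.lt_sqrt_of_sq_lt hn
    have h2 : (n : ℝ) ≤ c * √Λ / π := by
      rw [le_div_iff₀ pi_pos]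
      rw [div_lt_iff₀ hc] at h1
      linarith
    exact_mod_cast h2.trans (Nat.le_ceil _)
  refine ((Set.finite_Iic ⌈l * √Λ / π⌉₊).prod (Set.finite_Iic ⌈h * √Λ / π⌉₊)).subset ?_
  rintro q ⟨-, -, hq⟩
  exact ⟨key l q.1 hl (by nlinarith [sq_nonneg (π * q.2 / h)]),
    key h q.2 hh (by nlinarith [sq_nonneg (π * q.1 / l)])⟩

/-- Spectral inequality and Bessel inequality on an interval. -/
def StOne : Prop :=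
  ∀ (a h : ℝ) (J : ℕ), 0 < h →
    (∀ (Λ : ℝ) (v g : ℝ → ℝ), Λ ≤ (π * J / h) ^ 2 → (∀ t, HasDerivAt v (g t) t) → Continuous g →
      Λ * ∫ t in Ioo a (a + h), v t ^ 2 ≤ (∫ t in Ioo a (a + h), g t ^ 2) +
        ∑ j ∈ Finset.range J, (Λ - (π * j / h) ^ 2) *
          ((∫ t in Ioo a (a + h), v t * cos (π * j / h * (t - a))) ^ 2 / nrm h j)) ∧
    ∀ g : ℝ → ℝ, Continuous g →
      ∑ j ∈ Finset.range J, (∫ t in Ioo a (a + h), g t * cos (π * j / h * (t - a))) ^ 2 / nrm h j ≤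
        ∫ t in Ioo a (a + h), g t ^ 2

/-- Sines cut off near the end points. -/
def StCut : Prop :=
  ∀ (l τ : ℝ) (n : ℕ), 0 < l → 0 < τ → ∃ (s : ℕ → ℝ → ℝ) (B : ℝ),
    (∀ i, ContDiff ℝ 1 (s i)) ∧ (∀ i t, t ∉ Ioo 0 l → s i t = 0 ∧ deriv (s i) t = 0) ∧
    (∀ i, i ≤ n → ∀ t, |s i t| ≤ 1 ∧ |deriv (s i) t| ≤ B) ∧
    ∀ i i', 1 ≤ i → i ≤ n → 1 ≤ i' → i' ≤ n →
      |(∫ t in Ioo 0 l, s i t * s i' t) - if i = i' then l / 2 else 0| ≤ τ ∧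
      |(∫ t in Ioo 0 l, deriv (s i) t * deriv (s i') t) -
        if i = i' then (π * i / l) ^ 2 * (l / 2) else 0| ≤ τ

/-- Almost diagonal Gram matrices give a test space. -/
def StGram : Prop :=
  ∀ Ω U : Set (E 2), Dom Ω → ∀ (ι : Type) [Fintype ι] (f : ι → E 2 → ℝ) (β lam : ι → ℝ)
    (b τ Λ η : ℝ), (∀ p, ContDiff ℝ 1 (f p)) →
    (∀ p z, z ∉ U → f p z = 0 ∧ fderiv ℝ (f p) z = 0) → 0 ≤ Λ → 0 < η → 0 < b →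
    (∀ p, b ≤ β p) → (∀ p, lam p ≤ Λ) → Fintype.card ι * τ * (1 + Λ + η) < η * b →
    (∀ p, |(∫ z in Ω, f p z * f p z) - β p| ≤ τ) →
    (∀ p q, p ≠ q → |∫ z in Ω, f p z * f q z| ≤ τ) →
    (∀ p, |(∫ z in Ω, (dd (f p) 0 z * dd (f p) 0 z + dd (f p) 1 z * dd (f p) 1 z)) -
      lam p * β p| ≤ τ) →
    (∀ p q, p ≠ q → |∫ z in Ω, (dd (f p) 0 z * dd (f q) 0 z + dd (f p) 1 z * dd (f q) 1 z)| ≤ τ) →
    Spc Ω U (Fintype.card ι) (Λ + η)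

def StIso : Prop :=
  ∀ (d k : ℕ) (Ω : Set (E d)) (M : ℝ) (φ : E d ≃ₗᵢ[ℝ] E d), Adm k Ω M → Adm k (φ '' Ω) M

/-- Neumann bracketing with varying counts. -/
def StBr2 : Prop :=
  ∀ (d : ℕ) (Ω : Set (E d)), Dom Ω → ∀ (ι : Type) [Fintype ι] (A : ι → Set (E d)) (n : ι → ℕ)
    (k : ℕ) (lam M : ℝ), (∀ i, IsOpen (A i)) → (∀ i, A i ⊆ Ω) →
    Pairwise (Function.onFun Disjoint A) → volume (Ω \ ⋃ i, A i) = 0 → 0 < lam →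
    (∀ i, ¬ Adm (n i) (A i) lam) → ∑ i, n i ≤ k → Adm k Ω M → lam ≤ M

/-- Disjointly supported test spaces. -/
def StDS2 : Prop :=
  ∀ (d : ℕ) (Ω : Set (E d)), Dom Ω → ∀ (ι : Type) [Fintype ι] (U : ι → Set (E d)) (n : ι → ℕ)
    (k : ℕ) (M : ℝ), Pairwise (Function.onFun Disjoint U) → (∀ i, Spc Ω (U i) (n i) M) →
    k + 1 ≤ ∑ i, n i → Adm k Ω M

def StCnt : Prop :=
  (∀ (a b : ℕ) (l h h' Λ : ℝ), 0 < l → 0 < h → h ≤ h' → cnt a b l h Λ ≤ cnt a b l h' Λ) ∧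
  (∀ l h Λ : ℝ, 0 < l → 0 < h → 0 < Λ → h ^ 2 * Λ ≤ π ^ 2 → cnt 0 0 l h Λ = ⌈l * √Λ / π⌉₊) ∧
  (1 ≤ cnt 1 1 10 10 (1 / 2)) ∧
  ∀ Λ1 Λ2 : ℝ, 0 < Λ1 → Λ1 < Λ2 → ∃ l : ℝ, 1 ≤ l ∧
    (∀ h : ℝ, 0 < h → cnt 0 0 l h Λ1 + 1 ≤ cnt 1 0 l h Λ2) ∧
    cnt 0 0 l l Λ1 + 1 ≤ cnt 1 1 l l Λ2

/-- Neumann spectrum of a rectangle, lower bound. -/
def StRectN : Prop :=
  ∀ x0 l y0 h Λ M : ℝ, 0 < l → 0 < h → M < Λ → ¬ Adm (cnt 0 0 l h Λ) (rect x0 l y0 h) M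

def StCellDD : Prop :=
  ∀ l Λ η : ℝ, 0 < l → 0 < Λ → 0 < η → ∀ Ω : Set (E 2), Dom Ω → ∀ x0 y0 : ℝ,
    rect x0 l y0 l ⊆ Ω → Spc Ω (rect x0 l y0 l) (cnt 1 1 l l Λ) (Λ + η)

def StCellDN : Prop :=
  ∀ l Λ η w0 W : ℝ, 0 < l → 0 < Λ → 0 < η → 0 < w0 → ∃ δ : ℝ, 0 < δ ∧
    ∀ Ω : Set (E 2), Dom Ω → ∀ x0 y0 h : ℝ, w0 ≤ h → h ≤ W → rect x0 l y0 h ⊆ Ω →
      Ω ∩ slab x0 l ⊆ rect x0 l (y0 - δ) (h + 2 * δ) →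
      Spc Ω (slab x0 l) (cnt 1 0 l h Λ) (Λ + η)

def StCellThin : Prop :=
  ∀ l Λ η : ℝ, 0 < l → 0 < Λ → 0 < η → ∃ κ : ℝ, 0 < κ ∧
    ∀ Ω : Set (E 2), Dom Ω → ∀ x0 w h : ℝ, 0 < w → 0 < h → h ^ 2 * Λ ≤ π ^ 2 →
      (∀ x ∈ Ioo x0 (x0 + l), w ≤ sec Ω x ∧ sec Ω x ≤ (1 + κ) * w) →
      Spc Ω (slab x0 l) (cnt 1 0 l h Λ) (Λ + η)

def StSliver : Prop :=
  ∀ w0 η : ℝ, 0 < w0 → 0 < η → ∃ δ : ℝ, 0 < δ ∧
    ∀ P : Set (E 2), Dom P → ∀ x0 l y0 h : ℝ, w0 ≤ h → rect x0 l y0 h ⊆ P →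
      P ⊆ rect x0 l (y0 - δ) (h + 2 * δ) → ∀ u : E 2 → ℝ, ContDiff ℝ 1 u →
      Sq P u ≤ (1 + η) * Sq (rect x0 l y0 h) u + η * En P u

def StSlab : Prop :=
  ∀ l Λ0 Λ1 : ℝ, 0 < l → 0 < Λ0 → Λ0 < Λ1 → ∃ w1 : ℝ, 0 < w1 ∧ ∀ w0 : ℝ, 0 < w0 → w0 ≤ w1 →
    ∃ δ : ℝ, 0 < δ ∧ ∀ P : Set (E 2), Dom P → ∀ x0 y0 h : ℝ,
      P ⊆ rect x0 l (y0 - δ) (h + 2 * δ) →
      (w0 ≤ h → rect x0 l y0 h ⊆ P → ¬ Adm (cnt 0 0 l h Λ1) P Λ0) ∧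
      (h ≤ w0 → ¬ Adm (cnt 0 0 l w0 Λ1) P Λ0)

def StFat : Prop :=
  ∀ ε : ℝ, 0 < ε → ∃ ρ : ℝ, 0 < ρ ∧ ∀ Ω₁ Ω₂ : Set (E 2), Dom Ω₁ → Dom Ω₂ → Ω₁ ⊆ Ω₂ →
    ∀ c : E 2, Metric.ball c ρ ⊆ Ω₁ → ∀ k : ℕ, Adm k Ω₁ 1 → Adm k Ω₂ (1 + ε)

def StMixed : Prop :=
  ∀ W : ℝ, 0 < W → ∃ W' D0 : ℝ, W ≤ W' ∧ ∀ D : ℝ, D0 ≤ D → ∀ Ω₁ Ω₂ : Set (E 2),
    Dom Ω₁ → Dom Ω₂ → Ω₁ ⊆ Ω₂ → pt 0 0 ∈ Ω₁ → pt D 0 ∈ Ω₁ →
    (∀ z ∈ Ω₁, -1 ≤ z 0 ∧ z 0 ≤ D + 1 ∧ |z 1| ≤ W) → (∃ z ∈ Ω₂, W' ≤ |z 1|) →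
    ∀ k : ℕ, Adm k Ω₁ 1 → Adm k Ω₂ 1

def StThin : Prop :=
  ∀ ε W : ℝ, 0 < ε → 0 < W → ∃ D0 : ℝ, ∀ D : ℝ, D0 ≤ D → ∀ Ω₁ Ω₂ : Set (E 2),
    Dom Ω₁ → Dom Ω₂ → Ω₁ ⊆ Ω₂ → pt 0 0 ∈ Ω₁ → pt D 0 ∈ Ω₁ →
    (∀ z ∈ Ω₁, -1 ≤ z 0 ∧ z 0 ≤ D + 1) → (∀ z ∈ Ω₂, |z 1| ≤ W) →
    ∀ k : ℕ, Adm k Ω₁ 1 → Adm k Ω₂ (1 + ε)

def StPlane : Prop := Filter.Tendsto (fun k : ℕ => alpha k 2) Filter.atTop (nhds 1)

/-- A long domain has low eigenvalues. -/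
theorem diam : ∃ C : ℝ, 0 < C ∧ ∀ Ω : Set (E 2), Dom Ω → ∀ x ∈ Ω, ∀ y ∈ Ω, ∀ L : ℝ, 0 < L →
    L ≤ dist x y → ∀ k : ℕ, Adm k Ω (C * ((k : ℝ) + 3) ^ 2 / L ^ 2) := by
  obtain ⟨C, hC, hR⟩ := pR pBM
  refine ⟨64 * C, by positivity, fun Ω hΩ x hx y hy L hL hxy k => ?_⟩
  obtain ⟨p, hp, -, hV⟩ := Low.centre hΩ hΩ subset_rfl hx hy hL hxy
  obtain ⟨U, g, -, hU, hg⟩ := hR 2 (by norm_num) Ω hΩ p hp (L / 8) (by positivity) hV (k + 1)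
  have h := pDS 2 Ω hΩ (Fin (k + 1)) U g _ k (by simp) hU hg
  have e : C * (((2 : ℕ) : ℝ) + ((k + 1 : ℕ) : ℝ)) ^ 2 / (L / 8) ^ 2 =
      64 * C * ((k : ℝ) + 3) ^ 2 / L ^ 2 := by
    push_cast
    field_simp
    ring
  rwa [e] at h

/-- Points of a triangle with a horizontal base. -/
theorem tri {Ω : Set (E 2)} (hc : Convex ℝ Ω) {D : ℝ} (hD : 0 < D) (h0 : pt 0 0 ∈ Ω)
    (h1 : pt D 0 ∈ Ω) {z : E 2} (hz : z ∈ Ω) {s x : ℝ} (hs0 : 0 ≤ s) (hs1 : s < 1)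
    (ha : s * z 0 ≤ x) (hb : x ≤ D + s * (z 0 - D)) : pt x (s * z 1) ∈ Ω := by
  have hs : 0 < 1 - s := by linarith
  set t : ℝ := (x - s * z 0) / ((1 - s) * D) with ht
  have hden : 0 < (1 - s) * D := mul_pos hs hD
  have t0 : 0 ≤ t := div_nonneg (by linarith) hden.le
  have t1 : t ≤ 1 := (div_le_one hden).2 (by linarith)
  have a1 := hc h0 h1 (by linarith : 0 ≤ 1 - t) t0 (by ring)
  have a2 := hc a1 hz hs.le hs0 (by ring)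
  have e : (1 - s) • ((1 - t) • pt 0 0 + t • pt D 0) + s • z = pt x (s * z 1) := by
    ext i
    fin_cases i
    · simp [ht]
      field_simp
      ring
    · simp
  rwa [e] at a2

end Pool.Agent.P.MP_5c8462_an.Pl
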