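import Pool.Agent.P.MP_5c8462_an.Pl.Defs

set_option autoImplicit false

namespace Pool.Agent.P.MP_5c8462_an.Pl

open MeasureTheory Real Set Pool.Agent.P.MP_5c8462_an.Ord

namespace Fat

/-- A grid square. -/
def Q (l : ℝ) (q : ℤ × ℤ) : Set (E 2) := rect (q.1 * l) l (q.2 * l) l

theorem fl {l x : ℝ} (hl : 0 < l) {i : ℤ} (h1 : i * l < x) (h2 : x < i * l + l) : ⌊x / l⌋ = i := by
  rw [Int.floor_eq_iff, le_div_iff₀ hl, div_lt_iff₀ hl]
  constructor <;> linarith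

theorem Q_idx {l : ℝ} (hl : 0 < l) {q : ℤ × ℤ} {z : E 2} (h : z ∈ Q l q) :
    q = (⌊z 0 / l⌋, ⌊z 1 / l⌋) :=
  Prod.ext (fl hl h.1 h.2.1).symm (fl hl h.2.2.1 h.2.2.2).symm

theorem Q_disj {l : ℝ} (hl : 0 < l) {q q' : ℤ × ℤ} (h : q ≠ q') : Disjoint (Q l q) (Q l q') :=
  Set.disjoint_left.2 fun _ h1 h2 => h ((Q_idx hl h1).trans (Q_idx hl h2).symm)

theorem Q_open (l : ℝ) (q : ℤ × ℤ) : IsOpen (Q l q) := by
  have c0 : Continuous fun z : E 2 => z 0 := by fun_prop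
  have c1 : Continuous fun z : E 2 => z 1 := by fun_prop
  exact (isOpen_lt continuous_const c0).inter ((isOpen_lt c0 continuous_const).inter
    ((isOpen_lt continuous_const c1).inter (isOpen_lt c1 continuous_const)))

theorem Q_convex (l : ℝ) (q : ℤ × ℤ) : Convex ℝ (Q l q) := by
  intro x hx y hy a b ha hb hab
  have h0 := convex_Ioo (𝕜 := ℝ) (q.1 * l) (q.1 * l + l) ⟨hx.1, hx.2.1⟩ ⟨hy.1, hy.2.1⟩ ha hb hab
  have h1 := convex_Ioo (𝕜 := ℝ) (q.2 * l) (q.2 * l + l) hx.2.2 hy.2.2 ha hb hab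
  exact ⟨h0.1, h0.2, h1.1, h1.2⟩

theorem Q_dist {l : ℝ} (hl : 0 < l) {q : ℤ × ℤ} {x y : E 2} (hx : x ∈ Q l q) (hy : y ∈ Q l q) :
    dist y x < 2 * l := by
  obtain ⟨a1, a2, a3, a4⟩ := hx
  obtain ⟨b1, b2, b3, b4⟩ := hy
  rw [EuclideanSpace.dist_eq, Real.sqrt_lt' (by positivity), Fin.sum_univ_two, Real.dist_eq,
    Real.dist_eq, sq_abs, sq_abs]
  have e0 : (y 0 - x 0) ^ 2 < l ^ 2 := sq_lt_sq' (by linarith) (by linarith)
  have e1 : (y 1 - x 1) ^ 2 < l ^ 2 := sq_lt_sq' (by linarith) (by linarith)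
  nlinarith

theorem vol_pt {s : Set (E 2)} (hs : MeasurableSet s) :
    volume s = volume ((fun q : ℝ × ℝ => pt q.1 q.2) ⁻¹' s) :=
  (pt_mp.measure_preimage hs.nullMeasurableSet).symm

theorem Q_vol {l : ℝ} (hl : 0 < l) (q : ℤ × ℤ) : volume.real (Q l q) = l ^ 2 := by
  have e : (fun q : ℝ × ℝ => pt q.1 q.2) ⁻¹' Q l q =
      Ioo (q.1 * l) (q.1 * l + l) ×ˢ Ioo (q.2 * l) (q.2 * l + l) := by
    ext z
    simp [Q, rect, and_assoc]
  rw [Measure.real, vol_pt (Q_open l q).measurableSet, e, Measure.volume_eq_prod,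
    Measure.prod_prod, Real.volume_Ioo, Real.volume_Ioo, add_sub_cancel_left, add_sub_cancel_left,
    ENNReal.toReal_mul, ENNReal.toReal_ofReal hl.le, sq]

theorem lines_null {l : ℝ} (hl : 0 < l) : volume (⋃ q, Q l q)ᶜ = 0 := by
  have c0 : Continuous fun z : E 2 => z 0 := by fun_prop
  have c1 : Continuous fun z : E 2 => z 1 := by fun_prop
  have n0 : ∀ a : ℝ, volume {z : E 2 | z 0 = a} = 0 := fun a => by
    have e : (fun q : ℝ × ℝ => pt q.1 q.2) ⁻¹' {z : E 2 | z 0 = a} = {a} ×ˢ univ := by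
      ext z
      simp
    rw [vol_pt (isClosed_eq c0 continuous_const).measurableSet, e, Measure.volume_eq_prod,
      Measure.prod_prod, Real.volume_singleton, zero_mul]
  have n1 : ∀ a : ℝ, volume {z : E 2 | z 1 = a} = 0 := fun a => by
    have e : (fun q : ℝ × ℝ => pt q.1 q.2) ⁻¹' {z : E 2 | z 1 = a} = univ ×ˢ {a} := by
      ext z
      simp
    rw [vol_pt (isClosed_eq c1 continuous_const).measurableSet, e, Measure.volume_eq_prod,
      Measure.prod_prod, Real.volume_singleton, mul_zero]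
  have key : ∀ x : ℝ, x ≠ ⌊x / l⌋ * l → ⌊x / l⌋ * l < x ∧ x < ⌊x / l⌋ * l + l := fun x hx => by
    have h1 := Int.floor_le (x / l)
    have h2 := Int.lt_floor_add_one (x / l)
    rw [le_div_iff₀ hl] at h1
    rw [div_lt_iff₀ hl] at h2
    exact ⟨lt_of_le_of_ne h1 hx.symm, by linarith⟩
  refine measure_mono_null (t := (⋃ i : ℤ, {z : E 2 | z 0 = i * l}) ∪
    ⋃ i : ℤ, {z : E 2 | z 1 = i * l}) (fun z hz => ?_)
    (measure_union_null (measure_iUnion_null fun i => n0 _) (measure_iUnion_null fun i => n1 _))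
  by_contra hc
  simp only [mem_union, mem_iUnion, mem_ofPred_eq, not_or, not_exists] at hc
  exact hz (mem_iUnion.2 ⟨(⌊z 0 / l⌋, ⌊z 1 / l⌋), (key _ (hc.1 _)).1, (key _ (hc.1 _)).2,
    key _ (hc.2 _)⟩)

theorem fin_meet {l : ℝ} (hl : 0 < l) {Ω : Set (E 2)} (hΩ : Bornology.IsBounded Ω) :
    {q | (Q l q ∩ Ω).Nonempty}.Finite := by
  obtain ⟨R, hR⟩ := hΩ.exists_norm_le
  have key : ∀ z ∈ Ω, ∀ r : Fin 2, ⌊z r / l⌋ ∈ Icc ⌊-R / l⌋ ⌊R / l⌋ := fun z hz r => by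
    have h := abs_le.1 ((EuclideanSpace.norm_eq z ▸ PiLp.norm_apply_le z r).trans
      (EuclideanSpace.norm_eq z ▸ hR z hz))
    exact ⟨Int.floor_mono (div_le_div_of_nonneg_right h.1 hl.le),
      Int.floor_mono (div_le_div_of_nonneg_right h.2 hl.le)⟩
  refine ((finite_Icc ⌊-R / l⌋ ⌊R / l⌋).prod (finite_Icc ⌊-R / l⌋ ⌊R / l⌋)).subset ?_
  rintro q ⟨z, h1, h2⟩
  rw [Q_idx hl h1]
  exact ⟨key z h2 0, key z h2 1⟩

theorem shift {c x y : E 2} {ρ t : ℝ} (ht : 0 < t) (h : dist y x < t * ρ) :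
    c + t⁻¹ • (y - x) ∈ Metric.ball c ρ := by
  rw [mem_ball_iff_norm, add_sub_cancel_left, norm_smul, norm_inv, Real.norm_of_nonneg ht.le,
    ← dist_eq_norm, inv_mul_lt_iff₀ ht]
  exact h

theorem outer {Ω : Set (E 2)} (hc : Convex ℝ Ω) {c x y : E 2} {ρ t : ℝ} (ht : 0 < t)
    (hb : Metric.ball c ρ ⊆ Ω) (hx : x ∈ Ω) (h : dist y x < t * ρ) :
    y ∈ AffineMap.homothety c (1 + t) '' Ω := by
  have h1 : 0 < 1 + t := by linarith
  refine ⟨_, hc hx (hb (shift ht h)) (a := 1 / (1 + t)) (b := t / (1 + t)) (by positivity)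
    (by positivity) (by field_simp), ?_⟩
  rw [AffineMap.homothety_apply]
  ext i
  simp
  field_simp
  ring

theorem inner {Ω : Set (E 2)} (hc : Convex ℝ Ω) {c x y : E 2} {ρ t : ℝ} (ht : 0 < t) (h1 : t ≤ 1)
    (hb : Metric.ball c ρ ⊆ Ω) (hx : x ∈ AffineMap.homothety c (1 - t) '' Ω)
    (h : dist y x < t * ρ) : y ∈ Ω := by
  obtain ⟨z, hz, rfl⟩ := hx
  have h2 := hc hz (hb (shift ht h)) (a := 1 - t) (b := t) (by linarith) ht.le (by ring)
  have e : (1 - t) • z + t • (c + t⁻¹ • (y - AffineMap.homothety c (1 - t) z)) = y := by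
    rw [AffineMap.homothety_apply]
    ext i
    simp
    field_simp
    ring
  rwa [e] at h2

theorem hom_vol (Ω : Set (E 2)) (c : E 2) (r : ℝ) :
    volume (AffineMap.homothety c r '' Ω) = ENNReal.ofReal (r ^ 2) * volume Ω := by
  rw [Measure.addHaar_image_homothety, finrank_euclideanSpace_fin, abs_of_nonneg (sq_nonneg r)]

theorem un_vol {l : ℝ} (hl : 0 < l) (T : Finset (ℤ × ℤ)) :
    volume.real (⋃ q ∈ T, Q l q) = T.card * l ^ 2 := by
  rw [measureReal_biUnion_finset (fun q _ q' _ h => Q_disj hl h)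
    (fun q _ => (Q_open l q).measurableSet) fun q _ h => ?_]
  · simp [Q_vol hl]
  · have := Q_vol hl q
    rw [Measure.real, h, ENNReal.toReal_top] at this
    exact (pow_pos hl 2).ne this

/-- Most squares that meet a fat domain lie inside. -/
theorem count {l ρ t : ℝ} (hl : 0 < l) (ht : 0 < t) (h1 : t ≤ 1) (hρ : 2 * l ≤ t * ρ)
    {Ω : Set (E 2)} (hΩ : Dom Ω) {c : E 2} (hb : Metric.ball c ρ ⊆ Ω) (S I : Finset (ℤ × ℤ))
    (hS : ∀ q ∈ S, (Q l q ∩ Ω).Nonempty) (hI : ∀ q, Q l q ⊆ Ω → (Q l q).Nonempty → q ∈ I) :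
    (S.card : ℝ) * (1 - t) ^ 2 ≤ I.card * (1 + t) ^ 2 := by
  have hf : volume Ω ≠ ⊤ := hΩ.2.2.2.measure_lt_top.ne
  have hv : ∀ r : ℝ, volume.real (AffineMap.homothety c r '' Ω) = r ^ 2 * volume.real Ω :=
    fun r => by
      rw [Measure.real, hom_vol, ENNReal.toReal_mul, ENNReal.toReal_ofReal (sq_nonneg r),
        Measure.real]
  have a1 : (S.card : ℝ) * l ^ 2 ≤ (1 + t) ^ 2 * volume.real Ω := by
    rw [← un_vol hl, ← hv]
    refine measureReal_mono (iUnion₂_subset fun q hq y hy => ?_) ?_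
    · obtain ⟨x, x1, x2⟩ := hS q hq
      exact outer hΩ.2.2.1 ht hb x2 ((Q_dist hl x1 hy).trans_le hρ)
    · rw [hom_vol]
      exact ENNReal.mul_ne_top ENNReal.ofReal_ne_top hf
  have a2 : (1 - t) ^ 2 * volume.real Ω ≤ I.card * l ^ 2 := by
    rw [← un_vol hl, ← hv]
    refine ENNReal.toReal_mono ?_ ?_
    · refine (measure_biUnion_lt_top I.finite_toSet fun q _ => lt_top_iff_ne_top.2 fun h => ?_).ne
      have := Q_vol hl q
      rw [Measure.real, h, ENNReal.toReal_top] at this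
      exact (pow_pos hl 2).ne this
    · calc _ ≤ volume ((⋃ q ∈ I, Q l q) ∪ (⋃ q, Q l q)ᶜ) := measure_mono fun x hx => ?_
        _ ≤ _ := measure_union_le _ _
        _ = _ := by rw [lines_null hl, add_zero]
      by_cases h : x ∈ ⋃ q, Q l q
      · obtain ⟨q, hq⟩ := mem_iUnion.1 h
        exact Or.inl (mem_iUnion₂.2 ⟨q, hI q (fun y hy =>
          inner hΩ.2.2.1 ht h1 hb hx ((Q_dist hl hq hy).trans_le hρ)) ⟨x, hq⟩, hq⟩)
      · exact Or.inr h
  refine le_of_mul_le_mul_right ?_ (pow_pos hl 2)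
  have b1 := mul_le_mul_of_nonneg_right a1 (sq_nonneg (1 - t))
  have b2 := mul_le_mul_of_nonneg_right a2 (sq_nonneg (1 + t))
  nlinarith

end Fat

open Fat in
theorem pFat (hB : StBr2) (hD : StDS2) (hn : StCnt) (hR : StRectN) (hC : StCellDD) : StFat := by
  classical
  intro ε hε
  obtain ⟨l, l1, -, hl⟩ := hn.2.2.2 (1 + ε / 2) (1 + 3 * ε / 4) (by linarith) (by linarith)
  have l0 : 0 < l := by linarith
  set n0 := ⌈exp (130 * (√(1 + ε / 4) * (2 * l)))⌉₊ with hn0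
  set t : ℝ := 1 / (8 * (n0 + 1)) with ht
  have n00 : (0 : ℝ) ≤ n0 := Nat.cast_nonneg _
  have t0 : 0 < t := by positivity
  have t1 : 8 * (n0 + 1) * t = 1 := by rw [ht]; field_simp
  have t2 : t ≤ 1 / 8 := by nlinarith
  refine ⟨2 * l / t, by positivity, fun Ω₁ Ω₂ h1 h2 h12 c hc k hk => ?_⟩
  set S := (fin_meet l0 h1.2.2.2).toFinset with hS
  have mS : ∀ q, q ∈ S ↔ (Q l q ∩ Ω₁).Nonempty := fun q => Set.Finite.mem_toFinset _
  set I := S.filter fun q => Q l q ⊆ Ω₁ with hI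
  set B := S.filter fun q => ¬ Q l q ⊆ Ω₁ with hBd
  have c1 := count l0 t0 (by linarith) (le_of_eq (by field_simp)) h1 hc S I
    (fun q hq => (mS q).1 hq) fun q a1 a2 =>
      Finset.mem_filter.2 ⟨(mS q).2 (by rwa [inter_eq_left.2 a1]), a1⟩
  have c2 : I.card + B.card = S.card := Finset.card_filter_add_card_filter_not _
  have c3 : B.card * n0 ≤ I.card := by
    have e1 : (S.card : ℝ) = I.card + B.card := by exact_mod_cast c2.symm
    have i0 : (0 : ℝ) ≤ I.card := Nat.cast_nonneg _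
    have e2 : (n0 : ℝ) * (4 * t) ≤ (1 - t) ^ 2 := by nlinarith
    have e3 : (B.card : ℝ) * (1 - t) ^ 2 ≤ I.card * (4 * t) := by rw [e1] at c1; nlinarith
    have e4 : (B.card : ℝ) * n0 * (1 - t) ^ 2 ≤ I.card * (1 - t) ^ 2 := by
      have := mul_le_mul_of_nonneg_right e3 n00
      have := mul_le_mul_of_nonneg_left e2 i0
      nlinarith
    exact_mod_cast le_of_mul_le_mul_right e4 (pow_pos (by linarith) 2)
  have c4 : k + 1 ≤ I.card * cnt 0 0 l l (1 + ε / 2) + B.card * n0 := by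
    by_contra hc4
    have := hB 2 Ω₁ h1 S (fun q => Q l q ∩ Ω₁)
      (fun q => if Q l q ⊆ Ω₁ then cnt 0 0 l l (1 + ε / 2) else n0) k (1 + ε / 4) 1
      (fun q => (Q_open l q).inter h1.2.1) (fun q => inter_subset_right)
      (fun q q' h => (Q_disj l0 fun e => h (Subtype.ext e)).mono inter_subset_left
        inter_subset_left)
      ?_ (by linarith) (fun q => ?_) ?_ hk
    · linarith
    · refine measure_mono_null (t := (⋃ q, Q l q)ᶜ) (fun x hx hx' => ?_) (lines_null l0)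
      obtain ⟨q, hq⟩ := mem_iUnion.1 hx'
      exact hx.2 (mem_iUnion.2 ⟨⟨q, (mS q).2 ⟨x, hq, hx.1⟩⟩, hq, hx.1⟩)
    · split_ifs with h
      · rw [inter_eq_left.2 h]
        exact hR _ l _ l _ _ l0 l0 (by linarith)
      · intro ha
        obtain ⟨x, hx⟩ := (mS q).1 q.2
        have := hN 2 (by norm_num) _ ⟨⟨x, hx⟩, (Q_open l q).inter h1.2.1,
          (Q_convex l q).inter h1.2.2.1, h1.2.2.2.subset inter_subset_right⟩ n0 (1 + ε / 4) (2 * l)
          (by linarith) (by linarith) {x} (fun y hy => by simpa using Q_dist l0 hx.1 hy.1) ha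
        rw [Finset.card_singleton, Nat.cast_one, one_mul] at this
        linarith [Nat.le_ceil (exp (130 * (√(1 + ε / 4) * (2 * l))))]
    · rw [Finset.sum_coe_sort S fun q => if Q l q ⊆ Ω₁ then cnt 0 0 l l (1 + ε / 2) else n0,
        Finset.sum_ite, Finset.sum_const, Finset.sum_const, smul_eq_mul, smul_eq_mul]
      exact Nat.lt_succ_iff.1 (not_le.1 hc4)
  refine hD 2 Ω₂ h2 I (fun q => Q l q) (fun _ => cnt 1 1 l l (1 + 3 * ε / 4)) k _
    (fun q q' h => Q_disj l0 fun e => h (Subtype.ext e)) (fun q => ?_) ?_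
  · have := hC l (1 + 3 * ε / 4) (ε / 4) l0 (by linarith) (by linarith) Ω₂ h2 _ _
      ((Finset.mem_filter.1 q.2).2.trans h12)
    rwa [show 1 + 3 * ε / 4 + ε / 4 = 1 + ε by ring] at this
  · rw [Finset.sum_const, Finset.card_univ, Fintype.card_coe, smul_eq_mul]
    have := Nat.mul_le_mul_left I.card hl
    rw [mul_add, mul_one] at this
    omega

end Pool.Agent.P.MP_5c8462_an.Pl
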