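import Pool.Agent.P.MP_5c8462_an.Pl.Defs

set_option autoImplicit false

namespace Pool.Agent.P.MP_5c8462_an.Pl

open MeasureTheory Real Set Pool.Agent.P.MP_5c8462_an.Ord

namespace Gram

theorem quad {ι : Type} [Fintype ι] (G : ι → ι → ℝ) (D c : ι → ℝ) (τ : ℝ)
    (h1 : ∀ p, |G p p - D p| ≤ τ) (h2 : ∀ p q, p ≠ q → |G p q| ≤ τ) :
    |∑ p, ∑ q, c p * c q * G p q - ∑ p, D p * c p ^ 2| ≤
      Fintype.card ι * τ * ∑ p, c p ^ 2 := by
  classical
  have e1 : ∑ p, ∑ q, c p * c q * G p q - ∑ p, D p * c p ^ 2 =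
      ∑ p, ∑ q, c p * c q * (G p q - if p = q then D p else 0) := by
    rw [← Finset.sum_sub_distrib]
    refine Finset.sum_congr rfl fun p _ => ?_
    simp only [mul_sub, Finset.sum_sub_distrib, mul_ite, mul_zero, Finset.sum_ite_eq,
      Finset.mem_univ, if_true]
    ring
  have e2 : Fintype.card ι * τ * ∑ p, c p ^ 2 =
      ∑ p : ι, ∑ q : ι, (τ / 2 * c p ^ 2 + τ / 2 * c q ^ 2) := by
    simp only [Finset.sum_add_distrib, Finset.sum_const, Finset.card_univ, nsmul_eq_mul,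
      ← Finset.mul_sum]
    ring
  rw [e1, e2]
  refine (Finset.abs_sum_le_sum_abs _ _).trans (Finset.sum_le_sum fun p _ => ?_)
  refine (Finset.abs_sum_le_sum_abs _ _).trans (Finset.sum_le_sum fun q _ => ?_)
  have h3 : |G p q - if p = q then D p else 0| ≤ τ := by
    split_ifs with h
    · subst h
      exact h1 p
    · rw [sub_zero]
      exact h2 p q h
  have h4 : |c p * c q| ≤ (c p ^ 2 + c q ^ 2) / 2 :=
    abs_le.2 ⟨by nlinarith [sq_nonneg (c p + c q)], by nlinarith [sq_nonneg (c p - c q)]⟩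
  rw [abs_mul]
  calc _ ≤ (c p ^ 2 + c q ^ 2) / 2 * τ := mul_le_mul h4 h3 (abs_nonneg _) (by positivity)
    _ = _ := by ring

theorem intOn {Ω : Set (E 2)} (hΩ : Dom Ω) {F : E 2 → ℝ} (hF : Continuous F) : IntegrableOn F Ω :=
  (hF.continuousOn.integrableOn_compact hΩ.2.2.2.isCompact_closure).mono_set subset_closure

theorem int_dsum {Ω : Set (E 2)} (hΩ : Dom Ω) {ι : Type} [Fintype ι] (F : ι → ι → E 2 → ℝ)
    (hF : ∀ p q, Continuous (F p q)) (c : ι → ℝ) :
    ∫ z in Ω, ∑ p, ∑ q, c p * c q * F p q z = ∑ p, ∑ q, c p * c q * ∫ z in Ω, F p q z := by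
  rw [integral_finsetSum _ fun p _ =>
    integrable_finsetSum _ fun q _ => (intOn hΩ (hF p q)).const_mul _]
  refine Finset.sum_congr rfl fun p _ => ?_
  rw [integral_finsetSum _ fun q _ => (intOn hΩ (hF p q)).const_mul _]
  exact Finset.sum_congr rfl fun q _ => integral_const_mul _ _

theorem dd_sum {ι : Type} [Fintype ι] (f : ι → E 2 → ℝ) (hf : ∀ p, ContDiff ℝ 1 (f p)) (c : ι → ℝ)
    (r : Fin 2) (z : E 2) : dd (fun x => ∑ p, c p * f p x) r z = ∑ p, c p * dd (f p) r z := by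
  have h : HasFDerivAt (fun x => ∑ p, c p * f p x) (∑ p, c p • fderiv ℝ (f p) z) z :=
    HasFDerivAt.fun_sum fun p _ =>
      (((hf p).differentiable one_ne_zero z).hasFDerivAt).const_mul (c p)
  unfold dd
  rw [h.fderiv]
  simp

theorem Sq_eq {Ω : Set (E 2)} (hΩ : Dom Ω) {ι : Type} [Fintype ι] (f : ι → E 2 → ℝ)
    (hf : ∀ p, ContDiff ℝ 1 (f p)) (c : ι → ℝ) :
    Sq Ω (fun x => ∑ p, c p * f p x) = ∑ p, ∑ q, c p * c q * ∫ z in Ω, f p z * f q z := by
  rw [← int_dsum hΩ (fun p q z => f p z * f q z)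
    (fun p q => (hf p).continuous.mul (hf q).continuous) c]
  unfold Sq
  refine integral_congr_ae (Filter.Eventually.of_forall fun z => ?_)
  simp only [sq, Finset.sum_mul_sum]
  exact Finset.sum_congr rfl fun p _ => Finset.sum_congr rfl fun q _ => by ring

theorem En_eq {Ω : Set (E 2)} (hΩ : Dom Ω) {ι : Type} [Fintype ι] (f : ι → E 2 → ℝ)
    (hf : ∀ p, ContDiff ℝ 1 (f p)) (c : ι → ℝ) :
    En Ω (fun x => ∑ p, c p * f p x) = ∑ p, ∑ q, c p * c q *
      ∫ z in Ω, (dd (f p) 0 z * dd (f q) 0 z + dd (f p) 1 z * dd (f q) 1 z) := by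
  rw [← int_dsum hΩ (fun p q z => dd (f p) 0 z * dd (f q) 0 z + dd (f p) 1 z * dd (f q) 1 z)
    (fun p q => ((dd_cont (hf p) 0).mul (dd_cont (hf q) 0)).add
      ((dd_cont (hf p) 1).mul (dd_cont (hf q) 1))) c]
  unfold En
  refine integral_congr_ae (Filter.Eventually.of_forall fun z => ?_)
  simp only [dd_norm, dd_sum f hf c]
  simp only [sq, Finset.sum_mul_sum, ← Finset.sum_add_distrib]
  exact Finset.sum_congr rfl fun p _ => Finset.sum_congr rfl fun q _ => by ring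

end Gram

theorem pGram : StGram := by
  intro Ω U hΩ ι _ f β lam b τ Λ η hf hU hΛ hη hb hβ hlam hτ s1 s2 e1 e2
  have key : ∀ c : ι → ℝ, b * ∑ p, c p ^ 2 ≤ ∑ p, β p * c p ^ 2 ∧
      ∑ p, β p * c p ^ 2 - Fintype.card ι * τ * ∑ p, c p ^ 2 ≤ Sq Ω (fun x => ∑ p, c p * f p x) ∧
      En Ω (fun x => ∑ p, c p * f p x) ≤
        Λ * ∑ p, β p * c p ^ 2 + Fintype.card ι * τ * ∑ p, c p ^ 2 := by
    intro c
    refine ⟨?_, ?_, ?_⟩
    · rw [Finset.mul_sum]
      exact Finset.sum_le_sum fun p _ => mul_le_mul_of_nonneg_right (hβ p) (sq_nonneg _)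
    · rw [Gram.Sq_eq hΩ f hf c]
      have := (abs_le.1 (Gram.quad (fun p q => ∫ z in Ω, f p z * f q z) β c τ s1 s2)).1
      linarith
    · rw [Gram.En_eq hΩ f hf c]
      have h1 := (abs_le.1 (Gram.quad (fun p q =>
        ∫ z in Ω, (dd (f p) 0 z * dd (f q) 0 z + dd (f p) 1 z * dd (f q) 1 z))
        (fun p => lam p * β p) c τ e1 e2)).2
      have h2 : ∑ p, lam p * β p * c p ^ 2 ≤ Λ * ∑ p, β p * c p ^ 2 := by
        rw [Finset.mul_sum]
        refine Finset.sum_le_sum fun p _ => ?_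
        rw [mul_assoc]
        exact mul_le_mul_of_nonneg_right (hlam p) (mul_nonneg (hb.le.trans (hβ p)) (sq_nonneg _))
      linarith
  obtain ⟨N, hN⟩ : ∃ N : ℝ, N = Fintype.card ι * τ := ⟨_, rfl⟩
  rw [← hN] at hτ key
  have hNb : N < b := by
    by_contra h
    push Not at h
    nlinarith [mul_le_mul_of_nonneg_right h (by linarith : 0 ≤ 1 + Λ + η), mul_nonneg hb.le hΛ]
  set e := Fintype.equivFin ι
  have hre : ∀ c : Fin (Fintype.card ι) → ℝ,
      (fun x => ∑ i, c i * f (e.symm i) x) = fun x => ∑ p, c (e p) * f p x := fun c => by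
    funext x
    rw [← e.sum_comp]
    simp
  refine ⟨fun i => f (e.symm i), fun i => hf _, fun i x hx => hU _ x hx, fun c hc => ?_,
    fun c => ?_⟩
  · obtain ⟨k1, k2, -⟩ := key fun p => c (e p)
    have h0 : Sq Ω (fun x => ∑ p, c (e p) * f p x) = 0 := by
      rw [← hre c]
      exact setIntegral_eq_zero_of_forall_eq_zero fun x hx => by
        have h : ∑ i, c i * f (e.symm i) x = 0 := hc x hx
        simp only [h]
        simp
    have h1 : 0 ≤ ∑ p, c (e p) ^ 2 := Finset.sum_nonneg fun p _ => sq_nonneg _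
    have h2 : ∑ p, c (e p) ^ 2 = 0 := by
      refine le_antisymm ?_ h1
      by_contra h
      push Not at h
      nlinarith [mul_pos (sub_pos.2 hNb) h]
    funext i
    have h3 := (Finset.sum_eq_zero_iff_of_nonneg fun p _ => sq_nonneg (c (e p))).1 h2 (e.symm i)
      (Finset.mem_univ _)
    simpa using h3
  · obtain ⟨k1, k2, k3⟩ := key fun p => c (e p)
    rw [hre c]
    have h1 : 0 ≤ ∑ p, c (e p) ^ 2 := Finset.sum_nonneg fun p _ => sq_nonneg _
    have h2 := mul_le_mul_of_nonneg_left k2 (by linarith : 0 ≤ Λ + η)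
    have h3 := mul_le_mul_of_nonneg_left k1 hη.le
    have h4 := mul_le_mul_of_nonneg_right hτ.le h1
    nlinarith

end Pool.Agent.P.MP_5c8462_an.Pl
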