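import Pool.Agent.P.MP_5c8462_an.Pl.Defs

set_option autoImplicit false

namespace Pool.Agent.P.MP_5c8462_an.Pl

open MeasureTheory Real Set Pool.Agent.P.MP_5c8462_an.Ord

namespace Mixed

theorem dist_le (z : E 2) (a : ℝ) : dist z (pt a 0) ≤ |z 0 - a| + |z 1| := by
  rw [EuclideanSpace.dist_eq, Fin.sum_univ_two]
  simp only [pt_zero, pt_one, Real.dist_eq, sub_zero]
  apply Real.sqrt_le_iff.2
  refine ⟨by positivity, ?_⟩
  nlinarith [mul_nonneg (abs_nonneg (z 0 - a)) (abs_nonneg (z 1))]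

theorem le_dist (z : E 2) : |z 0| ≤ dist z (pt 0 0) := by
  have h := PiLp.dist_apply_le z (pt 0 0) 0
  simpa [Real.dist_eq] using h

/-- The number of low levels of a thin domain is linear in its length. -/
theorem count {W D : ℝ} (hW : 0 < W) (hD : 2 ≤ D) {Ω : Set (E 2)} (hΩ : Dom Ω)
    (hb : ∀ z ∈ Ω, -1 ≤ z 0 ∧ z 0 ≤ D + 1 ∧ |z 1| ≤ W) {k : ℕ} (hk : Adm k Ω 1) :
    (k + 1 : ℝ) ≤ 2 * exp (130 * (W + 2)) * D := by
  classical
  set X : Finset (E 2) := (Finset.range (⌊D + 1⌋₊ + 1)).image fun i : ℕ => pt i 0 with hX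
  have hcov : Ω ⊆ ⋃ x ∈ X, Metric.ball x (W + 2) := by
    intro z hz
    obtain ⟨h1, h2, h3⟩ := hb z hz
    have hi : pt (⌊z 0⌋₊ : ℕ) 0 ∈ X :=
      Finset.mem_image.2 ⟨⌊z 0⌋₊, Finset.mem_range.2 (Nat.lt_succ_of_le (Nat.floor_mono h2)), rfl⟩
    refine Set.mem_iUnion₂.2 ⟨_, hi, ?_⟩
    rw [Metric.mem_ball]
    have h4 : |z 0 - (⌊z 0⌋₊ : ℝ)| ≤ 1 := by
      rcases le_total 0 (z 0) with h | h
      · have a := Nat.floor_le h
        have b := Nat.lt_floor_add_one (z 0)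
        rw [abs_le]
        constructor <;> linarith
      · rw [Nat.floor_of_nonpos h, abs_le]
        constructor <;> simp <;> linarith
    have := dist_le z (⌊z 0⌋₊ : ℝ)
    linarith
  have h := hN 2 (by norm_num) Ω hΩ k 1 (W + 2) one_pos (by linarith) X hcov hk
  rw [Real.sqrt_one, one_mul] at h
  have hc : (X.card : ℝ) ≤ 2 * D := by
    have a : X.card ≤ ⌊D + 1⌋₊ + 1 := Finset.card_image_le.trans (by simp)
    have b : (⌊D + 1⌋₊ : ℝ) ≤ D + 1 := Nat.floor_le (by linarith)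
    have c : (X.card : ℝ) ≤ (⌊D + 1⌋₊ : ℝ) + 1 := by exact_mod_cast a
    linarith
  have he := Real.exp_pos (130 * (W + 2))
  nlinarith

/-- A rectangle inside the triangle. -/
theorem box {Ω : Set (E 2)} (hc : Convex ℝ Ω) {D K H : ℝ} (hD : 0 < D) (hK : 0 ≤ K) (hH : 0 ≤ H)
    (h0 : pt 0 0 ∈ Ω) (h1 : pt D 0 ∈ Ω) {z : E 2} (hz : z ∈ Ω) (hx : |z 0| ≤ K * D)
    (hy : 4 * (K + 1) * H + 1 ≤ |z 1|) :
    ∃ y0 : ℝ, ∀ x y : ℝ, D / 4 ≤ x → x ≤ 3 * D / 4 → y0 < y → y < y0 + H → pt x y ∈ Ω := by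
  have hp : 0 ≤ 4 * (K + 1) * H := by positivity
  have key : ∀ x y : ℝ, D / 4 ≤ x → x ≤ 3 * D / 4 → 0 ≤ y / z 1 → |y| ≤ H → pt x y ∈ Ω := by
    intro x y hx1 hx2 hs hyH
    have hz1 : 0 < |z 1| := by linarith
    have hne : z 1 ≠ 0 := abs_pos.1 hz1
    set s := y / z 1 with hsd
    have e : s * |z 1| = |y| := by
      rw [← abs_of_nonneg hs, ← abs_mul, hsd, div_mul_cancel₀ _ hne]
    have hs1 : 4 * (K + 1) * s ≤ 1 := by
      have : (4 * (K + 1) * s) * |z 1| ≤ 1 * |z 1| := by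
        have : 4 * (K + 1) * |y| ≤ 4 * (K + 1) * H :=
          mul_le_mul_of_nonneg_left hyH (by positivity)
        calc (4 * (K + 1) * s) * |z 1| = 4 * (K + 1) * (s * |z 1|) := by ring
          _ ≤ 1 * |z 1| := by rw [e]; linarith
      exact le_of_mul_le_mul_right this hz1
    have hKs : 0 ≤ K * s := mul_nonneg hK hs
    obtain ⟨a1, a2⟩ := abs_le.1 hx
    have b1 : s * z 0 ≤ s * (K * D) := mul_le_mul_of_nonneg_left a2 hs
    have b2 : s * (-(K * D)) ≤ s * z 0 := mul_le_mul_of_nonneg_left a1 hs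
    have b3 : (4 * (K + 1) * s) * D ≤ 1 * D := mul_le_mul_of_nonneg_right hs1 hD.le
    have b4 : 0 ≤ s * D := mul_nonneg hs hD.le
    have h := tri hc hD h0 h1 hz (s := s) (x := x) hs (by nlinarith) (by nlinarith) (by nlinarith)
    rwa [hsd, div_mul_cancel₀ _ hne] at h
  rcases le_total 0 (z 1) with h | h
  · refine ⟨0, fun x y a b c d => key x y a b (div_nonneg c.le h) ?_⟩
    rw [abs_le]
    constructor <;> linarith
  · refine ⟨-H, fun x y a b c d => key x y a b (div_nonneg_of_nonpos (by linarith) h) ?_⟩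
    rw [abs_le]
    constructor <;> linarith

theorem sep {a t : ℝ} {i j : ℕ} (h1 : a + 10 * i < t) (h2 : t < a + 10 * i + 10)
    (h3 : a + 10 * j < t) (h4 : t < a + 10 * j + 10) : i = j := by
  have b1 : (i : ℝ) < j + 1 := by linarith
  have b2 : (j : ℝ) < i + 1 := by linarith
  have c1 : i < j + 1 := by exact_mod_cast b1
  have c2 : j < i + 1 := by exact_mod_cast b2
  omega

end Mixed

theorem pMixed (hD : StDS2) (hn : StCnt) (hC : StCellDD) : StMixed := by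
  intro W hW
  obtain ⟨C, hC0, hdi⟩ := diam
  set A : ℝ := exp (130 * (W + 2)) with hA
  have hA1 : 1 ≤ A := Real.one_le_exp (by positivity)
  set K : ℝ := 3 * A * √C with hK
  have hsC : 0 < √C := Real.sqrt_pos.2 hC0
  have hK0 : 0 < K := by positivity
  set m2 : ℕ := ⌈80 * A⌉₊ with hm2
  have hm2' : 80 * A ≤ m2 := Nat.le_ceil _
  refine ⟨max W (4 * (K + 1) * (10 * m2) + 1), 40, le_max_left _ _, ?_⟩
  rintro D hD40 Ω₁ Ω₂ d1 d2 hsub p0 p1 hb ⟨z, hz, hz1⟩ k hk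
  have hD0 : 0 < D := by linarith
  have hcnt : (k + 1 : ℝ) ≤ 2 * A * D := Mixed.count hW (by linarith) d1 hb hk
  rcases le_total (K * D) |z 0| with h | h
  · have h2 := hdi Ω₂ d2 z hz (pt 0 0) (hsub p0) (K * D) (by positivity)
      (h.trans (Mixed.le_dist z)) k
    refine AdmL.mono_level ?_ h2
    rw [div_le_one (by positivity)]
    have h3 : (k : ℝ) + 3 ≤ 3 * A * D := by nlinarith
    have h4 : ((k : ℝ) + 3) ^ 2 ≤ (3 * A * D) ^ 2 := pow_le_pow_left₀ (by positivity) h3 2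
    have h5 : (K * D) ^ 2 = C * (3 * A * D) ^ 2 := by
      have := Real.sq_sqrt hC0.le
      rw [hK]
      calc (3 * A * √C * D) ^ 2 = √C ^ 2 * (3 * A * D) ^ 2 := by ring
        _ = _ := by rw [this]
    rw [h5]
    exact mul_le_mul_of_nonneg_left h4 hC0.le
  · obtain ⟨y0, hy0⟩ := Mixed.box d2.2.2.1 hD0 hK0.le (H := 10 * m2) (by positivity) (hsub p0)
      (hsub p1) hz h ((le_max_right _ _).trans hz1)
    set m1 : ℕ := ⌊D / 20⌋₊ with hm1
    have a1 : (m1 : ℝ) ≤ D / 20 := Nat.floor_le (by positivity)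
    have a2 : D / 20 < m1 + 1 := Nat.lt_floor_add_one _
    have h1 := hD 2 Ω₂ d2 (Fin m1 × Fin m2)
      (fun q => rect (D / 4 + 10 * (q.1 : ℕ)) 10 (y0 + 10 * (q.2 : ℕ)) 10)
      (fun _ => cnt 1 1 10 10 (1 / 2)) k (1 / 2 + 1 / 2) ?_ ?_ ?_
    · rwa [add_halves] at h1
    · intro p q hpq
      rw [Function.onFun, Set.disjoint_left]
      rintro w ⟨b1, b2, b3, b4⟩ ⟨c1, c2, c3, c4⟩
      exact hpq (Prod.ext (Fin.ext (Mixed.sep b1 b2 c1 c2)) (Fin.ext (Mixed.sep b3 b4 c3 c4)))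
    · intro q
      refine hC 10 (1 / 2) (1 / 2) (by norm_num) (by norm_num) (by norm_num) Ω₂ d2 _ _ ?_
      rintro w ⟨b1, b2, b3, b4⟩
      have c1 : ((q.1 : ℕ) : ℝ) + 1 ≤ m1 := by exact_mod_cast q.1.2
      have c2 : ((q.2 : ℕ) : ℝ) + 1 ≤ m2 := by exact_mod_cast q.2.2
      have c3 : (0 : ℝ) ≤ (q.1 : ℕ) := Nat.cast_nonneg _
      have c4 : (0 : ℝ) ≤ (q.2 : ℕ) := Nat.cast_nonneg _
      rw [← pt_eta w]
      exact hy0 _ _ (by linarith) (by linarith) (by linarith) (by linarith)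
    · have c1 : (k + 1 : ℝ) ≤ (m1 : ℝ) * m2 := by
        have c2 : D / 40 ≤ m1 := by linarith
        have c3 : D / 40 * (80 * A) ≤ (m1 : ℝ) * m2 :=
          mul_le_mul c2 hm2' (by positivity) (Nat.cast_nonneg _)
        linarith
      have c4 : k + 1 ≤ m1 * m2 := by exact_mod_cast c1
      rw [Finset.sum_const, Finset.card_univ, Fintype.card_prod, Fintype.card_fin,
        Fintype.card_fin, smul_eq_mul]
      exact c4.trans (Nat.le_mul_of_pos_right _ hn.2.2.1)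

end Pool.Agent.P.MP_5c8462_an.Pl
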