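import Pool.Agent.P.MP_5c8462_an.Pl.Defs

set_option autoImplicit false

namespace Pool.Agent.P.MP_5c8462_an.Pl

open MeasureTheory Real Set Pool.Agent.P.MP_5c8462_an.Ord

namespace One

/-- Folding a symmetric interval. -/
theorem fold {F : Type} [NormedAddCommGroup F] [NormedSpace ℝ F] {h : ℝ} (hh : 0 < h)
    {Φ p q : ℝ → F} (hp : Continuous p) (hq : Continuous q) (e1 : ∀ t, t ≤ 0 → Φ t = p t)
    (e2 : ∀ t, 0 < t → Φ t = q t) :
    ∫ t in (-h)..h, Φ t = ∫ t in (0 : ℝ)..h, (p (-t) + q t) := by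
  have h1 : -h ≤ 0 := by linarith
  have i1 : IntervalIntegrable Φ volume (-h) 0 := by
    rw [intervalIntegrable_iff_integrableOn_Ioc_of_le h1]
    exact (hp.integrableOn_Ioc).congr_fun (fun t ht => (e1 t ht.2).symm) measurableSet_Ioc
  have i2 : IntervalIntegrable Φ volume 0 h := by
    rw [intervalIntegrable_iff_integrableOn_Ioc_of_le hh.le]
    exact (hq.integrableOn_Ioc).congr_fun (fun t ht => (e2 t ht.1).symm) measurableSet_Ioc
  have j1 : ∫ t in (-h)..0, Φ t = ∫ t in (-h)..0, p t := by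
    rw [intervalIntegral.integral_of_le h1, intervalIntegral.integral_of_le h1]
    exact setIntegral_congr_fun measurableSet_Ioc fun t ht => e1 t ht.2
  have j2 : ∫ t in (0 : ℝ)..h, Φ t = ∫ t in (0 : ℝ)..h, q t := by
    rw [intervalIntegral.integral_of_le hh.le, intervalIntegral.integral_of_le hh.le]
    exact setIntegral_congr_fun measurableSet_Ioc fun t ht => e2 t ht.1
  have hp' : Continuous fun t : ℝ => p (-t) := hp.comp continuous_neg
  rw [← intervalIntegral.integral_add_adjacent_intervals i1 i2, j1, j2,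
    intervalIntegral.integral_add (hp'.intervalIntegrable _ _)
      (hq.intervalIntegrable _ _), intervalIntegral.integral_comp_neg, neg_zero]

/-- Even or odd extension. -/
noncomputable def ext (g : ℝ → ℝ) (ε : ℝ) (t : ℝ) : ℂ :=
  (((if 0 < t then 1 else ε) * g |t| : ℝ) : ℂ)

theorem ext_neg (g : ℝ → ℝ) (ε : ℝ) {t : ℝ} (ht : t ≤ 0) : ext g ε t = ((ε * g (-t) : ℝ) : ℂ) := by
  rw [ext, if_neg (not_lt.2 ht), abs_of_nonpos ht]

theorem ext_pos (g : ℝ → ℝ) (ε : ℝ) {t : ℝ} (ht : 0 < t) : ext g ε t = ((g t : ℝ) : ℂ) := by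
  rw [ext, if_pos ht, abs_of_pos ht, one_mul]

theorem ext_mem {g : ℝ → ℝ} (hg : Continuous g) {ε : ℝ} (hε : |ε| = 1) (h : ℝ) :
    MemLp (ext g ε) 2 (volume.restrict (Ioc (-h) h)) := by
  have hc : Continuous fun t : ℝ => g |t| := hg.comp continuous_abs
  obtain ⟨C, hC⟩ := (isCompact_Icc (a := -h) (b := h)).exists_bound_of_continuousOn hc.continuousOn
  have hm : Measurable (ext g ε) := by
    unfold ext
    refine Complex.measurable_ofReal.comp (Measurable.mul ?_ hc.measurable)
    exact Measurable.ite measurableSet_Ioi measurable_const measurable_const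
  refine MemLp.of_bound hm.aestronglyMeasurable C ?_
  refine (ae_restrict_iff' measurableSet_Ioc).2 (Filter.Eventually.of_forall fun t ht => ?_)
  have h1 := hC t (Ioc_subset_Icc_self ht)
  rw [ext, Complex.norm_real, norm_mul]
  split_ifs
  · simpa using h1
  · rw [Real.norm_eq_abs ε, hε, one_mul]; exact h1

theorem neg_lt {h : ℝ} (hh : 0 < h) : -h < h := by linarith

theorem ext_sq {g : ℝ → ℝ} (hg : Continuous g) {ε : ℝ} (hε : |ε| = 1) {h : ℝ} (hh : 0 < h) :
    (h - -h)⁻¹ • ∫ t in (-h)..h, ‖ext g ε t‖ ^ 2 = (∫ t in (0 : ℝ)..h, g t ^ 2) / h := by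
  rw [fold hh (p := fun t => g (-t) ^ 2) (q := fun t => g t ^ 2) (by fun_prop) (by fun_prop)
    (fun t ht => by
      rw [ext_neg g ε ht, Complex.norm_real, norm_mul, Real.norm_eq_abs ε, hε, one_mul,
        Real.norm_eq_abs, sq_abs])
    (fun t ht => by rw [ext_pos g ε ht, Complex.norm_real, Real.norm_eq_abs, sq_abs])]
  simp only [neg_neg, ← two_mul, intervalIntegral.integral_const_mul, smul_eq_mul]
  field_simp
  ring

theorem four (h : ℝ) (hh : 0 < h) (n : ℤ) (t : ℝ) :
    fourier (-n) (t : AddCircle (h - -h)) =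
      ((cos (π * n / h * t) : ℝ) : ℂ) - ((sin (π * n / h * t) : ℝ) : ℂ) * Complex.I := by
  rw [fourier_coe_apply]
  have hh' : (h : ℂ) ≠ 0 := by exact_mod_cast hh.ne'
  have e : 2 * (π : ℂ) * Complex.I * ((-n : ℤ) : ℂ) * (t : ℂ) / ((h - -h : ℝ) : ℂ) =
      ((-(π * n / h * t) : ℝ) : ℂ) * Complex.I := by
    push_cast
    field_simp
    ring
  rw [e, Complex.exp_mul_I, ← Complex.ofReal_cos, ← Complex.ofReal_sin, cos_neg, sin_neg]
  push_cast
  ring

theorem coeff {g : ℝ → ℝ} (hg : Continuous g) (ε : ℝ) {h : ℝ} (hh : 0 < h) (n : ℤ) :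
    fourierCoeffOn (neg_lt hh) (ext g ε) n = (1 / (h - -h)) • ∫ t in (0 : ℝ)..h,
      ((((1 + ε) * (g t * cos (π * n / h * t)) : ℝ) : ℂ) +
        (((ε - 1) * (g t * sin (π * n / h * t)) : ℝ) : ℂ) * Complex.I) := by
  rw [fourierCoeffOn_eq_integral]
  congr 1
  simp only [four h hh n]
  rw [fold hh
    (p := fun t => (((cos (π * n / h * t) : ℝ) : ℂ) - ((sin (π * n / h * t) : ℝ) : ℂ) * Complex.I) •
      ((ε * g (-t) : ℝ) : ℂ))
    (q := fun t => (((cos (π * n / h * t) : ℝ) : ℂ) - ((sin (π * n / h * t) : ℝ) : ℂ) * Complex.I) •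
      ((g t : ℝ) : ℂ)) (by fun_prop) (by fun_prop)
    (fun t ht => by rw [ext_neg g ε ht]) (fun t ht => by rw [ext_pos g ε ht])]
  refine intervalIntegral.integral_congr fun t _ => ?_
  simp only [neg_neg, mul_neg, cos_neg, sin_neg, smul_eq_mul]
  push_cast
  ring

theorem coeff_cos {g : ℝ → ℝ} (hg : Continuous g) {h : ℝ} (hh : 0 < h) (n : ℤ) :
    ‖fourierCoeffOn (neg_lt hh) (ext g 1) n‖ ^ 2 =
      ((∫ t in (0 : ℝ)..h, g t * cos (π * n / h * t)) / h) ^ 2 := by
  rw [coeff hg 1 hh n]
  simp only [sub_self, zero_mul, Complex.ofReal_zero, add_zero]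
  rw [intervalIntegral.integral_ofReal, intervalIntegral.integral_const_mul, norm_smul,
    Complex.norm_real, ← norm_mul, Real.norm_eq_abs, sq_abs]
  congr 1
  field_simp
  ring

theorem coeff_sin {g : ℝ → ℝ} (hg : Continuous g) {h : ℝ} (hh : 0 < h) (n : ℤ) :
    ‖fourierCoeffOn (neg_lt hh) (ext g (-1)) n‖ ^ 2 =
      ((∫ t in (0 : ℝ)..h, g t * sin (π * n / h * t)) / h) ^ 2 := by
  rw [coeff hg (-1) hh n]
  simp only [add_neg_cancel, zero_mul, Complex.ofReal_zero, zero_add]
  rw [intervalIntegral.integral_mul_const, intervalIntegral.integral_ofReal,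
    intervalIntegral.integral_const_mul, norm_smul, norm_mul, Complex.norm_I, mul_one,
    Complex.norm_real, ← norm_mul, Real.norm_eq_abs, sq_abs]
  field_simp
  ring

/-- From a sum over the integers to a sum over the naturals. -/
theorem toNat {h I : ℝ} (hh : 0 < h) {X : ℤ → ℝ} (hX : ∀ n, X (-n) ^ 2 = X n ^ 2)
    (H : HasSum (fun n : ℤ => (X n / h) ^ 2) (I / h)) :
    HasSum (fun n : ℕ => X n ^ 2 / nrm h n) I := by
  have H1 := (H.nat_add_neg.mul_left h).sub (hasSum_ite_eq (0 : ℕ) (X 0 ^ 2 / h))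
  have e1 : h * (I / h + (X 0 / h) ^ 2) - X 0 ^ 2 / h = I := by
    field_simp
    ring
  rw [e1] at H1
  have e2 : (fun n : ℕ => X n ^ 2 / nrm h n) = fun n : ℕ =>
      h * ((X n / h) ^ 2 + (X (-n) / h) ^ 2) - if n = 0 then X 0 ^ 2 / h else 0 := by
    funext n
    rw [div_pow, div_pow, hX, nrm]
    split_ifs with hn
    · subst hn
      simp only [Nat.cast_zero]
      field_simp
      ring
    · field_simp
      ring
  rw [e2]
  exact H1

theorem pars_cos0 {g : ℝ → ℝ} (hg : Continuous g) {h : ℝ} (hh : 0 < h) :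
    HasSum (fun n : ℕ => (∫ t in (0 : ℝ)..h, g t * cos (π * n / h * t)) ^ 2 / nrm h n)
      (∫ t in (0 : ℝ)..h, g t ^ 2) := by
  have H := hasSum_sq_fourierCoeffOn (neg_lt hh) (ext_mem hg (ε := 1) (by simp) h)
  rw [ext_sq hg (by simp) hh] at H
  simp only [coeff_cos hg hh] at H
  have := toNat hh (X := fun n : ℤ => ∫ t in (0 : ℝ)..h, g t * cos (π * n / h * t))
    (fun n => by
      congr 1
      refine intervalIntegral.integral_congr fun t _ => ?_
      have e : π * ((-n : ℤ) : ℝ) / h * t = -(π * n / h * t) := by push_cast; ring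
      simp only [e, cos_neg]) H
  simpa only [Int.cast_natCast] using this

theorem pars_sin0 {g : ℝ → ℝ} (hg : Continuous g) {h : ℝ} (hh : 0 < h) :
    HasSum (fun n : ℕ => (∫ t in (0 : ℝ)..h, g t * sin (π * n / h * t)) ^ 2 / nrm h n)
      (∫ t in (0 : ℝ)..h, g t ^ 2) := by
  have H := hasSum_sq_fourierCoeffOn (neg_lt hh) (ext_mem hg (ε := -1) (by simp) h)
  rw [ext_sq hg (by simp) hh] at H
  simp only [coeff_sin hg hh] at H
  have := toNat hh (X := fun n : ℤ => ∫ t in (0 : ℝ)..h, g t * sin (π * n / h * t))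
    (fun n => by
      have e : ∀ t : ℝ, π * ((-n : ℤ) : ℝ) / h * t = -(π * n / h * t) := fun t => by
        push_cast; ring
      simp only [e, sin_neg, mul_neg, intervalIntegral.integral_neg, neg_sq]) H
  simpa only [Int.cast_natCast] using this

theorem shift (f : ℝ → ℝ) (a : ℝ) {h : ℝ} (hh : 0 < h) :
    ∫ t in (0 : ℝ)..h, f (a + t) = ∫ t in Ioo a (a + h), f t := by
  rw [intervalIntegral.integral_comp_add_left, add_zero,
    intervalIntegral.integral_of_le (by linarith), integral_Ioc_eq_integral_Ioo]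

theorem pars_cos {g : ℝ → ℝ} (hg : Continuous g) (a : ℝ) {h : ℝ} (hh : 0 < h) :
    HasSum (fun n : ℕ => (∫ t in Ioo a (a + h), g t * cos (π * n / h * (t - a))) ^ 2 / nrm h n)
      (∫ t in Ioo a (a + h), g t ^ 2) := by
  have H := pars_cos0 (g := fun t => g (a + t)) (by fun_prop) hh
  simp only [← shift _ a hh, add_sub_cancel_left]
  exact H

theorem pars_sin {g : ℝ → ℝ} (hg : Continuous g) (a : ℝ) {h : ℝ} (hh : 0 < h) :
    HasSum (fun n : ℕ => (∫ t in Ioo a (a + h), g t * sin (π * n / h * (t - a))) ^ 2 / nrm h n)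
      (∫ t in Ioo a (a + h), g t ^ 2) := by
  have H := pars_sin0 (g := fun t => g (a + t)) (by fun_prop) hh
  simp only [← shift _ a hh, add_sub_cancel_left]
  exact H

theorem parts {v g : ℝ → ℝ} (hv : ∀ t, HasDerivAt v (g t) t) (hg : Continuous g) (a : ℝ) {h : ℝ}
    (hh : 0 < h) (n : ℕ) :
    ∫ t in Ioo a (a + h), g t * sin (π * n / h * (t - a)) =
      -(π * n / h * ∫ t in Ioo a (a + h), v t * cos (π * n / h * (t - a))) := by
  have hvc : Continuous v := continuous_iff_continuousAt.2 fun x => (hv x).continuousAt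
  have hle : a ≤ a + h := by linarith
  simp only [← integral_Ioc_eq_integral_Ioo, ← intervalIntegral.integral_of_le hle]
  have hd : ∀ t, HasDerivAt (fun t => v t * sin (π * n / h * (t - a)))
      (g t * sin (π * n / h * (t - a)) + π * n / h * (v t * cos (π * n / h * (t - a)))) t := by
    intro t
    have h1 : HasDerivAt (fun t : ℝ => π * n / h * (t - a)) (π * n / h) t := by
      simpa using ((hasDerivAt_id t).sub_const a).const_mul (π * n / h)
    have h2 := (hv t).mul h1.sin
    refine h2.congr_deriv ?_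
    ring
  have H := intervalIntegral.integral_eq_sub_of_hasDerivAt (a := a) (b := a + h)
    (fun t _ => hd t) (Continuous.intervalIntegrable (by fun_prop) _ _)
  have e : π * n / h * (a + h - a) = n * π := by
    field_simp
    ring
  rw [intervalIntegral.integral_add (Continuous.intervalIntegrable (by fun_prop) _ _)
    (Continuous.intervalIntegrable (by fun_prop) _ _), intervalIntegral.integral_const_mul, e,
    sin_nat_mul_pi, sub_self] at H
  simp only [mul_zero, sin_zero, sub_self] at H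
  linarith

theorem nrm_pos {h : ℝ} (hh : 0 < h) (n : ℕ) : 0 < nrm h n := by
  unfold nrm
  split_ifs
  · exact hh
  · positivity

end One

theorem pOne : StOne := by
  intro a h J hh
  refine ⟨fun Λ v g hΛ hv hg => ?_, fun g hg => ?_⟩
  · have hvc : Continuous v := continuous_iff_continuousAt.2 fun x => (hv x).continuousAt
    have H1 := One.pars_cos hvc a hh
    have H2 := One.pars_sin hg a hh
    simp only [One.parts hv hg a hh] at H2
    have H3 := H2.sub (H1.mul_left Λ)
    have e0 : ∀ j : ℕ,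
        (-(π * j / h * ∫ t in Ioo a (a + h), v t * cos (π * j / h * (t - a)))) ^ 2 / nrm h j -
          Λ * ((∫ t in Ioo a (a + h), v t * cos (π * j / h * (t - a))) ^ 2 / nrm h j) =
        -((Λ - (π * j / h) ^ 2) *
          ((∫ t in Ioo a (a + h), v t * cos (π * j / h * (t - a))) ^ 2 / nrm h j)) := by
      intro j
      ring
    simp only [e0] at H3
    have H4 := sum_le_hasSum (Finset.range J) (fun i hi => by
      have h1 : (J : ℝ) ≤ i := by exact_mod_cast not_lt.1 fun e => hi (Finset.mem_range.2 e)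
      have h2 : π * J / h ≤ π * i / h := by gcongr
      have h3 : (π * J / h) ^ 2 ≤ (π * i / h) ^ 2 := pow_le_pow_left₀ (by positivity) h2 2
      have h4 : 0 ≤ (∫ t in Ioo a (a + h), v t * cos (π * i / h * (t - a))) ^ 2 / nrm h i :=
        div_nonneg (sq_nonneg _) (One.nrm_pos hh i).le
      exact neg_nonneg.2 (mul_nonpos_of_nonpos_of_nonneg (by linarith) h4)) H3
    rw [Finset.sum_neg_distrib] at H4
    linarith
  · exact sum_le_hasSum _ (fun i _ => div_nonneg (sq_nonneg _) (One.nrm_pos hh i).le)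
      (One.pars_cos hg a hh)

end Pool.Agent.P.MP_5c8462_an.Pl
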