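import Pool.Agent.P.MP_5c8462_an.Pl.Defs

set_option autoImplicit false

namespace Pool.Agent.P.MP_5c8462_an.Pl

open MeasureTheory Real Set Pool.Agent.P.MP_5c8462_an.Ord

namespace Plane

theorem dom_iso {Ω : Set (E 2)} (h : Dom Ω) (φ : E 2 ≃ₗᵢ[ℝ] E 2) : Dom (φ '' Ω) := by
  obtain ⟨h1, h2, h3, h4⟩ := h
  exact ⟨h1.image _, φ.toHomeomorph.isOpenMap Ω h2, h3.linear_image φ.toLinearEquiv.toLinearMap,
    φ.lipschitz.isBounded_image h4⟩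

theorem coord_le (z w : E 2) (i : Fin 2) : |z i - w i| ≤ dist z w := by
  rw [← Real.dist_eq]
  exact PiLp.dist_apply_le z w i

theorem norm_pt {D : ℝ} (hD : 0 ≤ D) : ‖pt D 0‖ = D := by
  rw [EuclideanSpace.norm_eq, Fin.sum_univ_two]
  simp [Real.sqrt_sq_eq_abs, abs_of_nonneg hD]

/-- A high point gives a ball. -/
theorem ball_in {Ω : Set (E 2)} (hc : Convex ℝ Ω) {D ρ : ℝ} (hρ : 0 < ρ) (hD : 4 * ρ + 1 ≤ D)
    (h0 : pt 0 0 ∈ Ω) (h1 : pt D 0 ∈ Ω) {z : E 2} (hz : z ∈ Ω) (ha : -1 ≤ z 0) (hb : z 0 ≤ D + 1)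
    (hw : 8 * ρ < |z 1|) : ∃ c : E 2, Metric.ball c ρ ⊆ Ω := by
  have hD0 : 0 < D := by linarith
  have key : ∀ (w : E 2) (s : ℝ), |w 0 - D / 2| < ρ → 0 ≤ s → s ≤ 1 / 4 → w 1 = s * z 1 →
      w ∈ Ω := by
    intro w s hx s0 s1 e
    have hx' := abs_lt.1 hx
    have := tri hc hD0 h0 h1 hz (x := w 0) s0 (by linarith) (by nlinarith) (by nlinarith)
    rwa [← e, pt_eta] at this
  rcases lt_abs.1 hw with h | h
  · refine ⟨pt (D / 2) ρ, fun w hw' => ?_⟩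
    have e0 := (coord_le w (pt (D / 2) ρ) 0).trans_lt hw'
    have e1 := abs_lt.1 ((coord_le w (pt (D / 2) ρ) 1).trans_lt hw')
    simp only [pt_zero, pt_one] at e0 e1
    have hz1 : 0 < z 1 := by linarith
    refine key w (w 1 / z 1) e0 (div_nonneg (by linarith) hz1.le) ?_ (by field_simp)
    rw [div_le_iff₀ hz1]
    linarith
  · refine ⟨pt (D / 2) (-ρ), fun w hw' => ?_⟩
    have e0 := (coord_le w (pt (D / 2) (-ρ)) 0).trans_lt hw'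
    have e1 := abs_lt.1 ((coord_le w (pt (D / 2) (-ρ)) 1).trans_lt hw')
    simp only [pt_zero, pt_one] at e0 e1
    have hz1 : 0 < -z 1 := by linarith
    have hz2 : z 1 ≠ 0 := by linarith
    refine key w (-w 1 / -z 1) e0 (div_nonneg (by linarith) hz1.le) ?_ (by field_simp)
    rw [div_le_iff₀ hz1]
    linarith

/-- Long domains in standard position. -/
theorem std (hF : StFat) (hM : StMixed) (hT : StThin) {ε : ℝ} (hε : 0 < ε) :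
    ∃ D0 : ℝ, 0 < D0 ∧ ∀ D : ℝ, D0 ≤ D → ∀ Ω₁ Ω₂ : Set (E 2), Dom Ω₁ → Dom Ω₂ → Ω₁ ⊆ Ω₂ →
      pt 0 0 ∈ Ω₁ → pt D 0 ∈ Ω₁ → (∀ z ∈ Ω₁, -1 ≤ z 0 ∧ z 0 ≤ D + 1) →
      ∀ k : ℕ, Adm k Ω₁ 1 → Adm k Ω₂ (1 + ε) := by
  obtain ⟨ρ, hρ, hF⟩ := hF ε hε
  obtain ⟨W', D1, hW, hM⟩ := hM (8 * ρ) (by positivity)
  obtain ⟨D2, hT⟩ := hT ε W' hε (by linarith)
  refine ⟨max (max D1 D2) (4 * ρ + 1), lt_max_of_lt_right (by positivity), ?_⟩
  intro D hD Ω₁ Ω₂ h₁ h₂ hs p0 p1 hx k hA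
  have d1 : D1 ≤ D := ((le_max_left _ _).trans (le_max_left _ _)).trans hD
  have d2 : D2 ≤ D := ((le_max_right _ _).trans (le_max_left _ _)).trans hD
  have d3 : 4 * ρ + 1 ≤ D := (le_max_right _ _).trans hD
  by_cases c1 : ∃ z ∈ Ω₁, 8 * ρ < |z 1|
  · obtain ⟨z, hz, hw⟩ := c1
    obtain ⟨c, hc⟩ := ball_in h₁.2.2.1 hρ d3 p0 p1 hz (hx z hz).1 (hx z hz).2 hw
    exact hF Ω₁ Ω₂ h₁ h₂ hs c hc k hA
  · push Not at c1
    by_cases c2 : ∃ z ∈ Ω₂, W' ≤ |z 1|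
    · exact (pAdm 2 Ω₂ k).2.2.1 1 _ (by linarith) (hM D d1 Ω₁ Ω₂ h₁ h₂ hs p0 p1
        (fun z hz => ⟨(hx z hz).1, (hx z hz).2, c1 z hz⟩) c2 k hA)
    · push Not at c2
      exact hT D d2 Ω₁ Ω₂ h₁ h₂ hs p0 p1 hx (fun z hz => (c2 z hz).le) k hA

/-- Level one. -/
theorem one (hI : StIso) (hF : StFat) (hM : StMixed) (hT : StThin) {ε : ℝ} (hε : 0 < ε) :
    ∃ k0 : ℕ, ∀ k : ℕ, k0 ≤ k → ∀ Ω₁ Ω₂ : Set (E 2), Dom Ω₁ → Dom Ω₂ → Ω₁ ⊆ Ω₂ →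
      Adm k Ω₁ 1 → Adm k Ω₂ (1 + ε) := by
  obtain ⟨D0, hD0, hS⟩ := std hF hM hT hε
  refine ⟨⌈exp (130 * (D0 + 2))⌉₊, fun k hk Ω₁ Ω₂ h₁ h₂ hs hA => ?_⟩
  have hb := h₁.2.2.2
  have big : D0 + 1 < Metric.diam Ω₁ := by
    by_contra hc
    push Not at hc
    obtain ⟨x, hx⟩ := h₁.1
    have h := hN 2 (by norm_num) Ω₁ h₁ k 1 (D0 + 2) one_pos (by linarith) {x} (by
      intro y hy
      have := Metric.dist_le_diam_of_mem hb hy hx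
      simp only [Finset.mem_singleton, iUnion_iUnion_eq_left, Metric.mem_ball]
      linarith) hA
    simp only [Finset.card_singleton, Nat.cast_one, one_mul, Real.sqrt_one] at h
    have h2 : exp (130 * (D0 + 2)) ≤ k := Nat.ceil_le.1 hk
    linarith
  obtain ⟨A, hA1, B, hB1, hAB⟩ : ∃ A ∈ Ω₁, ∃ B ∈ Ω₁, Metric.diam Ω₁ - 1 < dist A B := by
    by_contra hc
    push Not at hc
    have := Metric.diam_le_of_forall_dist_le (by linarith) hc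
    linarith
  set D := dist A B with hD
  have hn : ‖B - A‖ = ‖pt D 0‖ := by
    rw [norm_pt dist_nonneg, dist_comm, dist_eq_norm]
  obtain ⟨φ, hφ⟩ : ∃ φ : E 2 ≃ₗᵢ[ℝ] E 2, φ (B - A) = pt D 0 := ⟨_, Submodule.reflection_sub hn⟩
  have z0 : pt 0 0 = 0 := by
    ext i
    fin_cases i <;> rfl
  set τ : E 2 → E 2 := fun x => (1 : ℝ) • x + -A with hτ
  have hτ' : ∀ x, τ x = x - A := fun x => by simp [hτ, sub_eq_add_neg]
  have hdist : ∀ x y, dist (φ (τ x)) (φ (τ y)) = dist x y := fun x y => by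
    rw [φ.dist_map, hτ', hτ', dist_sub_right]
  have eA : φ (τ A) = pt 0 0 := by rw [hτ', sub_self, map_zero, z0]
  have eB : φ (τ B) = pt D 0 := by rw [hτ', hφ]
  have a1 : Adm k (φ '' (τ '' Ω₁)) 1 := by
    have := hI 2 k _ _ φ ((pAdm 2 Ω₁ k).1 1 1 (-A) one_pos hA)
    rwa [one_pow, div_one] at this
  have a2 := hS D (by linarith) (φ '' (τ '' Ω₁)) (φ '' (τ '' Ω₂))
    (dom_iso (First.dom_image h₁ one_pos _) φ) (dom_iso (First.dom_image h₂ one_pos _) φ)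
    (image_mono (image_mono hs)) ⟨_, ⟨A, hA1, rfl⟩, eA⟩ ⟨_, ⟨B, hB1, rfl⟩, eB⟩ ?_ k a1
  · have a3 := hI 2 k _ _ φ.symm a2
    rw [← image_comp, φ.symm_comp_self, image_id] at a3
    have a4 := (pAdm 2 _ k).1 _ 1 A one_pos a3
    rw [← image_comp] at a4
    have e : ((fun x : E 2 => (1 : ℝ) • x + A) ∘ τ) = id := by
      funext x
      simp [hτ']
    rw [e, image_id] at a4
    simpa using a4
  · rintro _ ⟨_, ⟨x, hx, rfl⟩, rfl⟩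
    have b1 := coord_le (φ (τ x)) (φ (τ A)) 0
    have b2 := coord_le (φ (τ x)) (φ (τ B)) 0
    rw [hdist] at b1 b2
    rw [eA] at b1
    rw [eB] at b2
    have c1 := Metric.dist_le_diam_of_mem hb hx hA1
    have c2 := Metric.dist_le_diam_of_mem hb hx hB1
    simp only [pt_zero] at b1 b2
    have := abs_le.1 b1
    have := abs_le.1 b2
    constructor <;> linarith

/-- Any level. -/
theorem level (hI : StIso) (hF : StFat) (hM : StMixed) (hT : StThin) {ε : ℝ} (hε : 0 < ε) :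
    ∃ k0 : ℕ, ∀ k : ℕ, k0 ≤ k → ∀ Ω₁ Ω₂ : Set (E 2), Dom Ω₁ → Dom Ω₂ → Ω₁ ⊆ Ω₂ →
      ∀ M : ℝ, 0 < M → Adm k Ω₁ M → Adm k Ω₂ ((1 + ε) * M) := by
  obtain ⟨k0, h⟩ := one hI hF hM hT hε
  refine ⟨k0, fun k hk Ω₁ Ω₂ h₁ h₂ hs M hM0 hA => ?_⟩
  have hr : 0 < √M := Real.sqrt_pos.2 hM0
  have a1 := (pAdm 2 Ω₁ k).1 M (√M) 0 hr hA
  rw [Real.sq_sqrt hM0.le, div_self hM0.ne'] at a1
  have a2 := h k hk _ _ (First.dom_image h₁ hr 0) (First.dom_image h₂ hr 0) (image_mono hs) a1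
  have a3 := (pAdm 2 _ k).1 _ (√M)⁻¹ 0 (inv_pos.2 hr) a2
  rw [← image_comp] at a3
  have e : ((fun x : E 2 => (√M)⁻¹ • x + 0) ∘ fun x : E 2 => √M • x + 0) = id := by
    funext x
    simp [smul_smul, inv_mul_cancel₀ hr.ne']
  rwa [e, image_id, inv_pow, div_inv_eq_mul, Real.sq_sqrt hM0.le] at a3

end Plane

theorem pPlane (hI : StIso) (hF : StFat) (hM : StMixed) (hT : StThin) : StPlane := by
  refine Metric.tendsto_atTop.2 fun ε hε => ?_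
  obtain ⟨k0, h⟩ := Plane.level hI hF hM hT (half_pos hε)
  refine ⟨max k0 1, fun k hk => ?_⟩
  have hk1 : 1 ≤ k := (le_max_right _ _).trans hk
  have up := Low.alpha_le_one hN pAdm (d := 2) (by norm_num) hk1
  have lo : (1 + ε / 2)⁻¹ ≤ alpha k 2 := by
    refine le_csInf ⟨_, _, _, Low.dom_ball 2, Low.dom_ball 2, subset_rfl, rfl⟩ ?_
    rintro r ⟨Ω₁, Ω₂, h₁, h₂, hs, rfl⟩
    have h2 := Low.mu_pos hN pAdm (d := 2) (by norm_num) hk1 h₂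
    rw [le_div_iff₀ h2]
    obtain ⟨m, hm, hmM⟩ := Low.level_pos hN pAdm (d := 2) (by norm_num) hk1 h₁
    refine le_csInf ((pAdm 2 Ω₁ k).2.2.2.1 (by norm_num) h₁) fun M hM' => ?_
    have h3 : mu k Ω₂ ≤ (1 + ε / 2) * M :=
      csInf_le ⟨0, fun M hM => Adm.nonneg h₂.2.1 h₂.2.2.2 hM⟩
        (h k ((le_max_left _ _).trans hk) Ω₁ Ω₂ h₁ h₂ hs M (hm.trans_le (hmM M hM')) hM')
    rw [inv_mul_le_iff₀ (by positivity)]
    exact h3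
  have h4 : 1 - ε / 2 ≤ (1 + ε / 2)⁻¹ := by
    rw [inv_eq_one_div, le_div_iff₀ (by positivity)]
    nlinarith
  rw [Real.dist_eq, abs_lt]
  constructor <;> linarith

end Pool.Agent.P.MP_5c8462_an.Pl
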