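import Pool.Agent.P.MP_5c8462_an.Pl.Defs

set_option autoImplicit false

namespace Pool.Agent.P.MP_5c8462_an.Pl

open MeasureTheory Real Set Pool.Agent.P.MP_5c8462_an.Ord

namespace Slab

theorem line_null (c : ℝ) : volume {z : E 2 | z 0 = c} = 0 := by
  have hm : MeasurableSet {z : E 2 | z 0 = c} :=
    (isClosed_eq (by fun_prop) continuous_const).measurableSet
  rw [← pt_mp.measure_preimage hm.nullMeasurableSet]
  have e : (fun q : ℝ × ℝ => pt q.1 q.2) ⁻¹' {z : E 2 | z 0 = c} = {c} ×ˢ univ := by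
    ext q
    simp
  rw [e, Measure.volume_eq_prod, Measure.prod_prod]
  simp

theorem co (i : Fin 2) : Continuous fun z : E 2 => z i := by fun_prop

theorem slab_open (a l : ℝ) : IsOpen (slab a l) :=
  (isOpen_lt continuous_const (co 0)).inter (isOpen_lt (co 0) continuous_const)

theorem rect_open (a l b h : ℝ) : IsOpen (rect a l b h) :=
  (isOpen_lt continuous_const (co 0)).inter ((isOpen_lt (co 0) continuous_const).inter
    ((isOpen_lt continuous_const (co 1)).inter (isOpen_lt (co 1) continuous_const)))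

theorem slab_conv (a l : ℝ) : Convex ℝ (slab a l) :=
  (convex_Ioo a (a + l)).linear_preimage (EuclideanSpace.proj (𝕜 := ℝ) (0 : Fin 2)).toLinearMap

theorem not_adm {A : Set (E 2)} (ho : IsOpen A) (hc : Convex ℝ A) (hb : Bornology.IsBounded A)
    {D lam : ℝ} (hD : ∀ x ∈ A, ∀ y ∈ A, dist x y ≤ D) (h : D ^ 2 * lam < π ^ 2) :
    ¬ Adm 1 A lam := by
  intro hA
  obtain ⟨f, hf, hi, hM⟩ := AdmL.adm_iff.1 hA
  rcases A.eq_empty_or_nonempty with rfl | hn
  · exact one_ne_zero (congrFun (hi 1 fun x hx => hx.elim) 0)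
  have hd : Dom A := ⟨hn, ho, hc, hb⟩
  have hI : ∀ c : Fin 2 → ℝ, ∫ x in A, AdmL.cm f c x =
      c 0 * (∫ x in A, f 0 x) + c 1 * ∫ x in A, f 1 x := fun c => by
    have e : AdmL.cm f c = fun x => c 0 * f 0 x + c 1 * f 1 x :=
      funext fun x => Fin.sum_univ_two _
    simp only [e]
    rw [integral_add ((AdmL.intOn hb (hf 0).continuous).const_mul _)
      ((AdmL.intOn hb (hf 1).continuous).const_mul _), integral_const_mul, integral_const_mul]
  obtain ⟨c, c0, c1⟩ : ∃ c : Fin 2 → ℝ, c ≠ 0 ∧ ∫ x in A, AdmL.cm f c x = 0 := by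
    by_cases e : ∫ x in A, f 0 x = 0
    · exact ⟨![1, 0], fun k => one_ne_zero (congrFun k 0), by simp [hI, e]⟩
    · exact ⟨![-∫ x in A, f 1 x, ∫ x in A, f 0 x], fun k => e (congrFun k 1), by
        rw [hI]; simp [mul_comm]⟩
  have h1 := hPW 2 (by norm_num) A hd D hD _ (AdmL.cm_cd hf c) c1
  have h2 := mul_le_mul_of_nonneg_left (hM c) (sq_nonneg D)
  nlinarith [AdmL.Sq_pos hd hf hi c0]

end Slab

open Slab

theorem pSlab (hR : StRectN) (hS : StSliver) (hB : StBr2) (hn : StCnt) : StSlab := by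
  intro l Λ0 Λ1 hl h0 h01
  obtain ⟨L, l1, l2⟩ := exists_between h01
  have hL : 0 < L := h0.trans l1
  have h1 : 0 < Λ1 := hL.trans l2
  have hg : 0 < π ^ 2 / L - π ^ 2 / Λ1 :=
    sub_pos.2 (div_lt_div_of_pos_left (by positivity) hL l2)
  obtain ⟨w1, w10, w11, w12, w13⟩ : ∃ w1 : ℝ, 0 < w1 ∧ w1 ≤ 1 ∧ w1 ≤ π ^ 2 / Λ1 ∧
      w1 ≤ (π ^ 2 / L - π ^ 2 / Λ1) / 10 :=
    ⟨min 1 (min (π ^ 2 / Λ1) ((π ^ 2 / L - π ^ 2 / Λ1) / 10)), by positivity, by simp, by simp,
      by simp⟩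
  refine ⟨w1, w10, fun w0 w00 w01 => ?_⟩
  have hη : 0 < (L - Λ0) / (2 * Λ0 * (1 + L)) := div_pos (sub_pos.2 l1) (by positivity)
  obtain ⟨δ, hδ, hS⟩ := hS w0 _ w00 hη
  refine ⟨min δ w0, lt_min hδ w00, fun P hP x0 y0 h hs => ⟨fun hw hr hA => ?_, fun hw hA => ?_⟩⟩
  · have k := pBr 2 P hP 1 _ _ (fun _ => rect x0 l y0 h) L _ _ Λ0 (fun _ => rect_open _ _ _ _)
      (fun _ => hr) Subsingleton.pairwise hL (add_nonneg zero_le_one hη.le) hη.le
      (fun _ => hR x0 l y0 h Λ1 L hl (by linarith) l2)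
      (fun u hu => by
        rw [Fin.sum_univ_one]
        refine hS P hP x0 l y0 h hw hr (fun z hz => ?_) u hu
        obtain ⟨a, b, c, d⟩ := hs hz
        exact ⟨a, b, by linarith [min_le_left δ w0], by linarith [min_le_left δ w0]⟩)
      (one_mul _).le hA
    have e : Λ0 * ((1 + (L - Λ0) / (2 * Λ0 * (1 + L))) / L + (L - Λ0) / (2 * Λ0 * (1 + L))) =
        (L + Λ0) / (2 * L) := by
      field_simp
      ring
    rw [e, le_div_iff₀ (by positivity)] at k
    linarith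
  · have hw2 : w0 ^ 2 ≤ w1 := by nlinarith
    rw [hn.2.1 l w0 Λ1 hl w00 h1 (by
      rw [le_div_iff₀ h1] at w12
      nlinarith)] at hA
    obtain ⟨m, hm⟩ : ∃ m, m = ⌈l * √Λ1 / π⌉₊ := ⟨_, rfl⟩
    have hs1 : 0 < √Λ1 := Real.sqrt_pos.2 h1
    have m1 : l * √Λ1 / π ≤ m := hm ▸ Nat.le_ceil _
    have m0 : (0 : ℝ) < m := lt_of_lt_of_le (by positivity) m1
    have hr : 0 < l / m := div_pos hl m0
    have m2 : (l / m) ^ 2 ≤ π ^ 2 / Λ1 := by
      rw [← Real.sq_sqrt h1.le, ← div_pow]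
      refine pow_le_pow_left₀ hr.le ?_ 2
      rw [div_le_iff₀ pi_pos] at m1
      rw [div_le_div_iff₀ m0 hs1]
      linarith
    rw [← hm] at hA
    refine l1.not_ge (hB 2 P hP (Fin m) (fun i => P ∩ slab (x0 + i * (l / m)) (l / m)) (fun _ => 1)
      m L Λ0 (fun i => hP.2.1.inter (slab_open _ _)) (fun i => inter_subset_left) ?_ ?_ hL
      (fun i => ?_) (by simp) hA)
    · intro i j hij
      refine Set.disjoint_left.2 fun z hi hj => hij (Fin.ext ?_)
      have a1 : (i : ℝ) < j + 1 := lt_of_mul_lt_mul_right (by linarith [hi.2.1, hj.2.2]) hr.le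
      have a2 : (j : ℝ) < i + 1 := lt_of_mul_lt_mul_right (by linarith [hi.2.2, hj.2.1]) hr.le
      have a3 : (i : ℕ) < j + 1 := by exact_mod_cast a1
      have a4 : (j : ℕ) < i + 1 := by exact_mod_cast a2
      omega
    · refine measure_mono_null (t := ⋃ j : ℕ, {z : E 2 | z 0 = x0 + j * (l / m)})
        (fun z hz => ?_) (measure_iUnion_null fun j => line_null _)
      obtain ⟨a, b, -⟩ := hs hz.1
      have t0 : 0 ≤ (z 0 - x0) / (l / m) := div_nonneg (by linarith) hr.le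
      have t1 := Nat.floor_le t0
      have t2 := Nat.lt_floor_add_one ((z 0 - x0) / (l / m))
      have t3 : ⌊(z 0 - x0) / (l / m)⌋₊ < m := by
        rw [Nat.floor_lt t0, div_lt_iff₀ hr, mul_div_cancel₀ _ m0.ne']
        linarith
      rw [le_div_iff₀ hr] at t1
      rw [div_lt_iff₀ hr] at t2
      refine mem_iUnion.2 ⟨⌊(z 0 - x0) / (l / m)⌋₊, ?_⟩
      by_contra hne
      refine hz.2 (mem_iUnion.2 ⟨⟨_, t3⟩, hz.1, lt_of_le_of_ne (by linarith) (Ne.symm hne), ?_⟩)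
      linarith
    · refine not_adm (hP.2.1.inter (slab_open _ _)) (hP.2.2.1.inter (slab_conv _ _))
        (hP.2.2.2.subset inter_subset_left) (D := √(π ^ 2 / Λ1 + 9 * w1)) (fun x hx y hy => ?_) ?_
      · rw [EuclideanSpace.dist_eq, Fin.sum_univ_two, Real.dist_eq, Real.dist_eq, sq_abs, sq_abs]
        refine Real.sqrt_le_sqrt (add_le_add (le_trans ?_ m2) (le_trans ?_
          (by linarith : (3 * w0) ^ 2 ≤ 9 * w1)))
        · exact sq_le_sq' (by linarith [hx.2.1, hy.2.2]) (by linarith [hx.2.2, hy.2.1])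
        · obtain ⟨-, -, a, b⟩ := hs hx.1
          obtain ⟨-, -, c, d⟩ := hs hy.1
          have := min_le_right δ w0
          exact sq_le_sq' (by linarith) (by linarith)
      · rw [Real.sq_sqrt (by positivity), ← lt_div_iff₀ hL]
        linarith

end Pool.Agent.P.MP_5c8462_an.Pl
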