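import Pool.Agent.P.MP_5c8462_an.Pl.Defs

set_option autoImplicit false

namespace Pool.Agent.P.MP_5c8462_an.Pl

open MeasureTheory Real Set Pool.Agent.P.MP_5c8462_an.Ord

namespace Sliver

theorem intB {I : Set ℝ} {a b : ℝ} (hI : I ⊆ Ioo a b) {f : ℝ → ℝ} (hf : Continuous f) :
    IntegrableOn f I :=
  (hf.continuousOn.integrableOn_compact (isCompact_Icc (a := a) (b := b))).mono_set
    (hI.trans Ioo_subset_Icc_self)

/-- Increment bound inside an interval. -/
theorem incr {I : Set ℝ} {a b : ℝ} (hI : I ⊆ Ioo a b) (hc : I.OrdConnected) {v e : ℝ → ℝ}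
    (hv : ContDiff ℝ 1 v) (he : Continuous e) (hve : ∀ t, deriv v t ^ 2 ≤ e t) {s t : ℝ}
    (hs : s ∈ I) (ht : t ∈ I) : (v t - v s) ^ 2 ≤ |t - s| * ∫ y in I, e y := by
  have he0 : ∀ t, 0 ≤ e t := fun t => (sq_nonneg _).trans (hve t)
  have hd : Continuous (deriv v) := hv.continuous_deriv le_rfl
  have key : ∀ s t : ℝ, s ∈ I → t ∈ I → s < t → (v t - v s) ^ 2 ≤ (t - s) * ∫ y in I, e y := by
    intro s t hs ht hst
    have h1 := OneH.cs hv (sub_pos.2 hst) s
    rw [add_sub_cancel] at h1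
    refine h1.trans (mul_le_mul_of_nonneg_left ?_ (sub_pos.2 hst).le)
    have h2 : ∫ y in s..t, deriv v y ^ 2 ≤ ∫ y in s..t, e y :=
      intervalIntegral.integral_mono_on hst.le ((hd.pow 2).intervalIntegrable _ _)
        (he.intervalIntegrable _ _) fun y _ => hve y
    refine h2.trans ?_
    rw [intervalIntegral.integral_of_le hst.le]
    exact setIntegral_mono_set (intB hI he) (Filter.Eventually.of_forall he0)
      (Filter.Eventually.of_forall fun y hy => hc.out hs ht (Ioc_subset_Icc_self hy))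
  rcases lt_trichotomy s t with h | h | h
  · rw [abs_of_pos (sub_pos.2 h)]; exact key s t hs ht h
  · subst h; simp
  · rw [abs_of_neg (sub_neg.2 h), neg_sub, ← neg_sub (v s), neg_sq]; exact key t s ht hs h

theorem point {I : Set ℝ} {a b : ℝ} (hI : I ⊆ Ioo a b) (hc : I.OrdConnected) {v e : ℝ → ℝ}
    (hv : ContDiff ℝ 1 v) (he : Continuous e) (hve : ∀ t, deriv v t ^ 2 ≤ e t) {c w r : ℝ}
    (hw : 0 < w) {J : Set ℝ} (hJ : J ⊆ I) (hcJ : Ioo c (c + w) ⊆ J) {t : ℝ} (ht : t ∈ I)
    (hr : ∀ s ∈ Ioo c (c + w), |t - s| ≤ r) :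
    v t ^ 2 ≤ 2 / w * (∫ y in J, v y ^ 2) + 2 * r * ∫ y in I, e y := by
  have he0 : ∀ t, 0 ≤ e t := fun t => (sq_nonneg _).trans (hve t)
  have hG : 0 ≤ ∫ y in I, e y := integral_nonneg he0
  have hvc : Continuous fun y => v y ^ 2 := hv.continuous.pow 2
  have h1 : ∫ _y in Ioo c (c + w), (v t ^ 2 / 2 - r * ∫ y in I, e y) ≤
      ∫ y in Ioo c (c + w), v y ^ 2 := by
    refine setIntegral_mono_on (intB subset_rfl continuous_const) (intB subset_rfl hvc)
      measurableSet_Ioo fun s hs => ?_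
    have h2 := incr hI hc hv he hve (hJ (hcJ hs)) ht
    have h3 := mul_le_mul_of_nonneg_right (hr s hs) hG
    nlinarith [sq_nonneg (v t - 2 * v s)]
  have h4 : ∫ y in Ioo c (c + w), v y ^ 2 ≤ ∫ y in J, v y ^ 2 :=
    setIntegral_mono_set (intB (hJ.trans hI) hvc) (Filter.Eventually.of_forall fun y => sq_nonneg _)
      (Filter.Eventually.of_forall hcJ)
  rw [setIntegral_const, Real.volume_real_Ioo_of_le (by linarith), add_sub_cancel_left,
    smul_eq_mul] at h1
  have h5 : v t ^ 2 / 2 - r * ∫ y in I, e y ≤ (∫ y in J, v y ^ 2) / w := by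
    rw [le_div_iff₀ hw]; linarith
  have h6 : 2 / w * (∫ y in J, v y ^ 2) = 2 * ((∫ y in J, v y ^ 2) / w) := by ring
  rw [h6]
  linarith

theorem one {I : Set ℝ} {a h δ w : ℝ} (hm : MeasurableSet I) (hI : I ⊆ Ioo (a - δ) (a + h + δ))
    (hc : I.OrdConnected) (hJ : Ioo a (a + h) ⊆ I) (hw : 0 < w) (hwh : w ≤ h) (hδ : 0 < δ)
    {v e : ℝ → ℝ} (hv : ContDiff ℝ 1 v) (he : Continuous e) (hve : ∀ t, deriv v t ^ 2 ≤ e t) :
    ∫ y in I, v y ^ 2 ≤ (1 + 4 * δ / w) * (∫ y in Ioo a (a + h), v y ^ 2) +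
      4 * δ * (w + δ) * ∫ y in I, e y := by
  have he0 : ∀ t, 0 ≤ e t := fun t => (sq_nonneg _).trans (hve t)
  have hG : 0 ≤ ∫ y in I, e y := integral_nonneg he0
  have hQ : 0 ≤ ∫ y in Ioo a (a + h), v y ^ 2 := integral_nonneg fun y => sq_nonneg _
  have hvc : Continuous fun y => v y ^ 2 := hv.continuous.pow 2
  obtain ⟨m, hm'⟩ : ∃ m : ℝ, m = 2 / w * (∫ y in Ioo a (a + h), v y ^ 2) +
    2 * (w + δ) * ∫ y in I, e y := ⟨_, rfl⟩
  have m0 : 0 ≤ m := by rw [hm']; positivity
  have hpt : ∀ t ∈ I \ Ioo a (a + h), v t ^ 2 ≤ m := by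
    rintro t ⟨ht, ht'⟩
    obtain ⟨t1, t2⟩ := hI ht
    rw [hm']
    by_cases hta : t ≤ a
    · refine point hI hc hv he hve (c := a) hw hJ (Ioo_subset_Ioo_right (by linarith)) ht
        fun s hs => abs_le.2 ⟨by linarith [hs.2], by linarith [hs.1]⟩
    · have htb : a + h ≤ t := by
        by_contra hlt
        exact ht' ⟨not_le.1 hta, not_le.1 hlt⟩
      refine point hI hc hv he hve (c := a + h - w) hw hJ
        (Ioo_subset_Ioo (by linarith) (by linarith)) ht
        fun s hs => abs_le.2 ⟨by linarith [hs.2], by linarith [hs.1]⟩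
  have hsplit : ∫ y in I \ Ioo a (a + h), v y ^ 2 =
      (∫ y in I, v y ^ 2) - ∫ y in Ioo a (a + h), v y ^ 2 :=
    setIntegral_sdiff measurableSet_Ioo (intB hI hvc) hJ
  have hfin : volume (Ioo (a - δ) (a + h + δ)) ≠ ⊤ := by simp
  have hvol : volume.real (I \ Ioo a (a + h)) ≤ 2 * δ := by
    have h1 : volume.real (I \ Ioo a (a + h)) ≤
        volume.real (Ioo (a - δ) (a + h + δ) \ Ioo a (a + h)) :=
      measureReal_mono (sdiff_subset_sdiff_left hI)
        (ne_top_of_le_ne_top hfin (measure_mono sdiff_subset))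
    rw [measureReal_sdiff (hJ.trans hI) measurableSet_Ioo hfin,
      Real.volume_real_Ioo_of_le (by linarith), Real.volume_real_Ioo_of_le (by linarith)] at h1
    linarith
  have hb : ∫ y in I \ Ioo a (a + h), v y ^ 2 ≤ ∫ _y in I \ Ioo a (a + h), m :=
    setIntegral_mono_on (intB (sdiff_subset.trans hI) hvc)
      (intB (sdiff_subset.trans hI) continuous_const) (hm.diff measurableSet_Ioo) hpt
  rw [setIntegral_const, smul_eq_mul, hsplit] at hb
  have h7 := mul_le_mul_of_nonneg_right hvol m0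
  have h8 : 2 * δ * m = 4 * δ / w * (∫ y in Ioo a (a + h), v y ^ 2) +
      4 * δ * (w + δ) * ∫ y in I, e y := by rw [hm']; ring
  linarith

theorem lin {α : Type} [MeasurableSpace α] {μ : Measure α} {f g k : α → ℝ} (hf : Integrable f μ)
    (hg : Integrable g μ) (hk : Integrable k μ) (a b : ℝ) :
    ∫ z, (a * f z + b * g z - k z) ∂μ = a * ∫ z, f z ∂μ + b * ∫ z, g z ∂μ - ∫ z, k z ∂μ := by
  have h1 : Integrable (fun z => a * f z + b * g z) μ := (hf.const_mul a).add (hg.const_mul b)
  rw [integral_sub h1 hk, integral_add (hf.const_mul a) (hg.const_mul b), integral_const_mul,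
    integral_const_mul]

theorem ind_sec (A : Set (E 2)) (f : E 2 → ℝ) (x : ℝ) :
    (fun y => A.indicator f (pt x y)) = {y | pt x y ∈ A}.indicator fun y => f (pt x y) := by
  funext y
  by_cases h : pt x y ∈ A
  · rw [indicator_of_mem h, indicator_of_mem (show y ∈ {y | pt x y ∈ A} from h)]
  · rw [indicator_of_notMem h, indicator_of_notMem (show y ∉ {y | pt x y ∈ A} from h)]

theorem ptx (x : ℝ) : Continuous fun y : ℝ => pt x y :=
  pt_cont.comp (continuous_const.prodMk continuous_id)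

theorem ptx_diff (x : ℝ) : ContDiff ℝ 1 fun y : ℝ => pt x y := by
  have e : (fun s : ℝ => pt x s) =
      fun s : ℝ => s • (EuclideanSpace.single 1 1 : E 2) + pt x 0 := by
    funext s
    ext i
    fin_cases i <;> simp
  rw [e]
  fun_prop

theorem ord {P : Set (E 2)} (hc : Convex ℝ P) (x : ℝ) : {y | pt x y ∈ P}.OrdConnected := by
  refine Convex.ordConnected fun y hy y' hy' a b ha hb hab => ?_
  have h := hc hy hy' ha hb hab
  have e : a • pt x y + b • pt x y' = pt x (a • y + b • y') := by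
    ext i
    fin_cases i
    · simp [← add_mul, hab]
    · simp
  rw [e] at h
  exact h

theorem rect_open (x0 l y0 h : ℝ) : IsOpen (rect x0 l y0 h) := by
  have h0 : Continuous fun z : E 2 => z 0 := by fun_prop
  have h1 : Continuous fun z : E 2 => z 1 := by fun_prop
  exact (isOpen_lt continuous_const h0).inter ((isOpen_lt h0 continuous_const).inter
    ((isOpen_lt continuous_const h1).inter (isOpen_lt h1 continuous_const)))

end Sliver

open Sliver in
theorem pSliver : StSliver := by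
  intro w0 η hw hη
  obtain ⟨δ, hδ, d1, d2⟩ : ∃ δ : ℝ, 0 < δ ∧ 4 * δ / w0 ≤ η ∧ 4 * δ * (w0 + δ) ≤ η := by
    refine ⟨min 1 (min (η * w0 / 4) (η / (4 * (w0 + 1)))), by positivity, ?_, ?_⟩
    · rw [div_le_iff₀ hw]
      have := (min_le_right 1 _).trans (min_le_left (η * w0 / 4) (η / (4 * (w0 + 1))))
      linarith
    · have h1 := min_le_left 1 (min (η * w0 / 4) (η / (4 * (w0 + 1))))
      have h2 := (min_le_right 1 _).trans (min_le_right (η * w0 / 4) (η / (4 * (w0 + 1))))
      have h3 : 0 < min 1 (min (η * w0 / 4) (η / (4 * (w0 + 1)))) := by positivity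
      rw [le_div_iff₀ (by positivity)] at h2
      nlinarith
  refine ⟨δ, hδ, fun P hP x0 l y0 h hh h1 h2 u hu => ?_⟩
  have hPm : MeasurableSet P := hP.2.1.measurableSet
  have hRm : MeasurableSet (rect x0 l y0 h) := (rect_open x0 l y0 h).measurableSet
  have c1 : Continuous fun z => u z ^ 2 := hu.continuous.pow 2
  have c2 : Continuous fun z => ‖fderiv ℝ u z‖ ^ 2 := (hu.continuous_fderiv one_ne_zero).norm.pow 2
  have i1 : Integrable (P.indicator fun z => u z ^ 2) :=
    (AdmL.intOn hP.2.2.2 c1).integrable_indicator hPm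
  have i2 : Integrable ((rect x0 l y0 h).indicator fun z => u z ^ 2) :=
    (AdmL.intOn (hP.2.2.2.subset h1) c1).integrable_indicator hRm
  have i3 : Integrable (P.indicator fun z => ‖fderiv ℝ u z‖ ^ 2) :=
    (AdmL.intOn hP.2.2.2 c2).integrable_indicator hPm
  have iF : Integrable fun z => (1 + η) * (rect x0 l y0 h).indicator (fun z => u z ^ 2) z +
      η * P.indicator (fun z => ‖fderiv ℝ u z‖ ^ 2) z - P.indicator (fun z => u z ^ 2) z :=
    ((i2.const_mul _).add (i3.const_mul _)).sub i1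
  have hF := int_fub iF
  rw [lin i2 i3 i1, integral_indicator hRm, integral_indicator hPm, integral_indicator hPm] at hF
  have hpos : 0 ≤ ∫ x, ∫ y, ((1 + η) * (rect x0 l y0 h).indicator (fun z => u z ^ 2) (pt x y) +
      η * P.indicator (fun z => ‖fderiv ℝ u z‖ ^ 2) (pt x y) -
        P.indicator (fun z => u z ^ 2) (pt x y)) := by
    refine integral_nonneg fun x => ?_
    by_cases hx : x0 < x ∧ x < x0 + l
    · have hI : {y | pt x y ∈ P} ⊆ Ioo (y0 - δ) (y0 + h + δ) := fun y hy => by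
        obtain ⟨_, _, a, b⟩ := h2 hy
        simp only [pt_one] at a b
        exact ⟨a, by linarith⟩
      have hJ : {y | pt x y ∈ rect x0 l y0 h} = Ioo y0 (y0 + h) := by
        ext y
        simp [rect, hx.1, hx.2]
      have hJI : Ioo y0 (y0 + h) ⊆ {y | pt x y ∈ P} := by
        rw [← hJ]; exact fun y hy => h1 hy
      have hIm : MeasurableSet {y | pt x y ∈ P} := (ptx x).measurable hPm
      have hv : ContDiff ℝ 1 fun y => u (pt x y) := hu.comp (ptx_diff x)
      have k1 : Continuous fun y => u (pt x y) ^ 2 := c1.comp (ptx x)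
      have k2 : Continuous fun y => ‖fderiv ℝ u (pt x y)‖ ^ 2 := c2.comp (ptx x)
      have hve : ∀ t, deriv (fun y => u (pt x y)) t ^ 2 ≤ ‖fderiv ℝ u (pt x t)‖ ^ 2 := fun t => by
        rw [(dd_y (hu.differentiable one_ne_zero) x t).deriv, dd_norm]
        nlinarith [sq_nonneg (dd u 0 (pt x t))]
      have main := one hIm hI (ord hP.2.2.1 x) hJI hw hh hδ hv k2 hve
      have j1 : Integrable fun y => P.indicator (fun z => u z ^ 2) (pt x y) := by
        rw [ind_sec]; exact (intB hI k1).integrable_indicator hIm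
      have j2 : Integrable fun y => (rect x0 l y0 h).indicator (fun z => u z ^ 2) (pt x y) := by
        rw [ind_sec, hJ]; exact (intB subset_rfl k1).integrable_indicator measurableSet_Ioo
      have j3 : Integrable fun y => P.indicator (fun z => ‖fderiv ℝ u z‖ ^ 2) (pt x y) := by
        rw [ind_sec]; exact (intB hI k2).integrable_indicator hIm
      show 0 ≤ ∫ y, ((1 + η) * (rect x0 l y0 h).indicator (fun z => u z ^ 2) (pt x y) +
        η * P.indicator (fun z => ‖fderiv ℝ u z‖ ^ 2) (pt x y) -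
          P.indicator (fun z => u z ^ 2) (pt x y))
      rw [lin j2 j3 j1, ind_sec, ind_sec, ind_sec, hJ, integral_indicator measurableSet_Ioo,
        integral_indicator hIm, integral_indicator hIm]
      have q1 : 0 ≤ ∫ y in Ioo y0 (y0 + h), u (pt x y) ^ 2 := integral_nonneg fun y => sq_nonneg _
      have q2 : 0 ≤ ∫ y in {y | pt x y ∈ P}, ‖fderiv ℝ u (pt x y)‖ ^ 2 :=
        integral_nonneg fun y => sq_nonneg _
      have q3 := mul_le_mul_of_nonneg_right d1 q1
      have q4 := mul_le_mul_of_nonneg_right d2 q2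
      linarith
    · refine integral_nonneg fun y => ?_
      have n1 : pt x y ∉ P := fun hy => hx ⟨(h2 hy).1, (h2 hy).2.1⟩
      have n2 : pt x y ∉ rect x0 l y0 h := fun hy => n1 (h1 hy)
      simp [indicator_of_notMem n1, indicator_of_notMem n2]
  rw [← hF] at hpos
  unfold Sq En
  linarith

end Pool.Agent.P.MP_5c8462_an.Pl
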