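import Pool.Agent.P.MP_5c8462_an.Pl.Defs

set_option autoImplicit false

namespace Pool.Agent.P.MP_5c8462_an.Pl

open MeasureTheory Real Set Pool.Agent.P.MP_5c8462_an.Ord

namespace Thin

/-- The data of a long domain of bounded height. -/
structure Lg (Ω : Set (E 2)) (D W : ℝ) : Prop where
  dom : Dom Ω
  pos : 0 < D
  h0 : pt 0 0 ∈ Ω
  h1 : pt D 0 ∈ Ω
  bd : ∀ z ∈ Ω, |z 1| ≤ W

/-- Vertical section. -/
def S (Ω : Set (E 2)) (x : ℝ) : Set ℝ := {y : ℝ | pt x y ∈ Ω}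

theorem move {Ω : Set (E 2)} {D W : ℝ} (h : Lg Ω D W) {θ T l x x' y : ℝ} (h0 : 0 < θ)
    (h1 : θ < 1) (hT : θ * T = l) (ha : T ≤ x) (hb : x ≤ D - T) (hx : |x - x'| ≤ l)
    (hy : pt x y ∈ Ω) : pt x' ((1 - θ) * y) ∈ Ω := by
  have hx' := abs_le.1 hx
  have e1 : θ * T ≤ θ * x := mul_le_mul_of_nonneg_left ha h0.le
  have e2 : θ * T ≤ θ * (D - x) := mul_le_mul_of_nonneg_left (by linarith) h0.le
  have := tri h.dom.2.2.1 h.pos h.h0 h.h1 hy (s := 1 - θ) (x := x') (by linarith) (by linarith)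
    (by simp only [pt_zero]; nlinarith) (by simp only [pt_zero]; nlinarith)
  simpa using this

theorem zero_mem {Ω : Set (E 2)} {D W : ℝ} (h : Lg Ω D W) {x : ℝ} (ha : 0 ≤ x) (hb : x ≤ D) :
    pt x 0 ∈ Ω := by
  have := tri h.dom.2.2.1 h.pos h.h0 h.h1 h.h0 (s := 0) (x := x) le_rfl one_pos
    (by simpa using ha) (by simpa using hb)
  simpa using this

theorem S_sub {Ω : Set (E 2)} {D W : ℝ} (h : Lg Ω D W) (x : ℝ) : S Ω x ⊆ Icc (-W) W :=
  fun y hy => abs_le.1 (by simpa using h.bd _ hy)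

theorem S_open {Ω : Set (E 2)} (h : IsOpen Ω) (x : ℝ) : IsOpen (S Ω x) :=
  h.preimage (pt_cont.comp (Continuous.prodMk_right x))

theorem S_mid {Ω : Set (E 2)} (hc : Convex ℝ Ω) {x a b y : ℝ} (ha : a ∈ S Ω x) (hb : b ∈ S Ω x)
    (h1 : a < y) (h2 : y < b) : y ∈ S Ω x := by
  have hab : 0 < b - a := by linarith
  have t0 : 0 ≤ (y - a) / (b - a) := div_nonneg (by linarith) hab.le
  have t1 : (y - a) / (b - a) ≤ 1 := (div_le_one hab).2 (by linarith)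
  have a1 := hc ha hb (by linarith : 0 ≤ 1 - (y - a) / (b - a)) t0 (by ring)
  have e : (1 - (y - a) / (b - a)) • pt x a + ((y - a) / (b - a)) • pt x b = pt x y := by
    ext i
    fin_cases i
    · simp
      ring
    · simp
      field_simp
      ring
  rw [e] at a1
  exact a1

theorem sec_pos {Ω : Set (E 2)} {D W : ℝ} (h : Lg Ω D W) {x : ℝ} (ha : 0 ≤ x) (hb : x ≤ D) :
    0 < sec Ω x := by
  have h1 : 0 < volume (S Ω x) := (S_open h.dom.2.1 x).measure_pos _ ⟨0, zero_mem h ha hb⟩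
  have h2 : volume (S Ω x) ≠ ⊤ :=
    ((measure_mono (S_sub h x)).trans_lt measure_Icc_lt_top).ne
  exact ENNReal.toReal_pos h1.ne' h2

theorem sec_move {Ω : Set (E 2)} {D W : ℝ} (h : Lg Ω D W) {θ T l x x' : ℝ} (h0 : 0 < θ)
    (h1 : θ < 1) (hT : θ * T = l) (ha : T ≤ x) (hb : x ≤ D - T) (hx : |x - x'| ≤ l) :
    (1 - θ) * sec Ω x ≤ sec Ω x' := by
  have hs : 0 < 1 - θ := by linarith
  have hsub : S Ω x ⊆ (fun y => (1 - θ) * y) ⁻¹' S Ω x' := fun y hy =>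
    move h h0 h1 hT ha hb hx hy
  have h2 : volume (S Ω x') ≠ ⊤ :=
    ((measure_mono (S_sub h x')).trans_lt measure_Icc_lt_top).ne
  have h3 := measure_mono (μ := volume) hsub
  rw [Real.volume_preimage_mul_left hs.ne'] at h3
  have h4 := ENNReal.toReal_mono (ENNReal.mul_ne_top ENNReal.ofReal_ne_top h2) h3
  rw [ENNReal.toReal_mul, ENNReal.toReal_ofReal (abs_nonneg _), abs_of_pos (inv_pos.2 hs)] at h4
  have h5 := mul_le_mul_of_nonneg_left h4 hs.le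
  rw [← mul_assoc, mul_inv_cancel₀ hs.ne', one_mul] at h5
  exact h5

/-- Bottom of the inscribed rectangle. -/
noncomputable def lo (Ω : Set (E 2)) (θ x : ℝ) : ℝ := (1 - θ) * sInf (S Ω x)

/-- Height of the inscribed rectangle. -/
noncomputable def ht (Ω : Set (E 2)) (θ x : ℝ) : ℝ := (1 - θ) * (sSup (S Ω x) - sInf (S Ω x))

theorem inner {Ω : Set (E 2)} {D W : ℝ} (h : Lg Ω D W) {θ T l x : ℝ} (h0 : 0 < θ)
    (h1 : θ < 1) (hT : θ * T = l) (hl : 0 < l) (ha : T ≤ x) (hb : x + l ≤ D - T) :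
    rect x l (lo Ω θ x) (ht Ω θ x) ⊆ Ω := by
  rintro z ⟨z1, z2, z3, z4⟩
  have hs : 0 < 1 - θ := by linarith
  have hT0 : 0 < T := by nlinarith
  have hne : (S Ω x).Nonempty := ⟨0, zero_mem h (by linarith) (by linarith)⟩
  unfold lo at z3 z4
  unfold ht at z4
  have b1 : sInf (S Ω x) < z 1 / (1 - θ) := by
    rw [lt_div_iff₀ hs]
    linarith
  have b2 : z 1 / (1 - θ) < sSup (S Ω x) := by
    rw [div_lt_iff₀ hs]
    linarith
  obtain ⟨a, ha1, ha2⟩ := exists_lt_of_csInf_lt hne b1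
  obtain ⟨b, hb1, hb2⟩ := exists_lt_of_lt_csSup hne b2
  have hm := move h h0 h1 hT ha (by linarith) (x' := z 0)
    (abs_le.2 ⟨by linarith, by linarith⟩) (S_mid h.dom.2.2.1 ha1 hb1 ha2 hb2)
  rw [mul_div_cancel₀ _ hs.ne', pt_eta] at hm
  exact hm

theorem ends {Ω : Set (E 2)} {D W : ℝ} (h : Lg Ω D W) {x : ℝ} (ha : 0 ≤ x) (hb : x ≤ D) :
    -W ≤ sInf (S Ω x) ∧ sInf (S Ω x) ≤ 0 ∧ 0 ≤ sSup (S Ω x) ∧ sSup (S Ω x) ≤ W := by
  have hz : (0 : ℝ) ∈ S Ω x := zero_mem h ha hb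
  exact ⟨le_csInf ⟨0, hz⟩ fun y hy => (S_sub h x hy).1,
    csInf_le (bddBelow_Icc.mono (S_sub h x)) hz, le_csSup (bddAbove_Icc.mono (S_sub h x)) hz,
    csSup_le ⟨0, hz⟩ fun y hy => (S_sub h x hy).2⟩

theorem outer {Ω : Set (E 2)} {D W : ℝ} (h : Lg Ω D W) {θ T l x δ : ℝ} (h0 : 0 < θ)
    (h1 : θ < 1) (hT : θ * T = l) (hl : 0 < l) (ha : T ≤ x) (hb : x + l ≤ D - T)
    (hδ : 2 * W * θ < δ) :
    Ω ∩ slab x l ⊆ rect x l (lo Ω θ x - δ) (ht Ω θ x + 2 * δ) := by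
  rintro z ⟨hz, z1, z2⟩
  have hT0 : 0 < T := by nlinarith
  have hz' : pt (z 0) (z 1) ∈ Ω := by rwa [pt_eta]
  have hm : (1 - θ) * z 1 ∈ S Ω x := move h h0 h1 hT (by linarith) (by linarith) (x' := x)
    (abs_le.2 ⟨by linarith, by linarith⟩) hz'
  have c1 := csInf_le (bddBelow_Icc.mono (S_sub h x)) hm
  have c2 := le_csSup (bddAbove_Icc.mono (S_sub h x)) hm
  obtain ⟨e1, e2, e3, e4⟩ := ends h (x := x) (by linarith) (by linarith)
  have hw := abs_le.1 (h.bd z hz)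
  have m1 := mul_le_mul_of_nonneg_left hw.1 h0.le
  have m2 := mul_le_mul_of_nonneg_left hw.2 h0.le
  have m3 := mul_le_mul_of_nonneg_left e1 h0.le
  have m4 := mul_le_mul_of_nonneg_left e4 h0.le
  refine ⟨z1, z2, ?_, ?_⟩
  · unfold lo
    linarith
  · unfold lo ht
    linarith

theorem ht_le {Ω : Set (E 2)} {D W : ℝ} (h : Lg Ω D W) {θ x : ℝ} (h0 : 0 < θ)
    (ha : 0 ≤ x) (hb : x ≤ D) : ht Ω θ x ≤ 2 * W := by
  obtain ⟨e1, e2, e3, e4⟩ := ends h ha hb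
  unfold ht
  nlinarith

theorem ht_mono {Ω Ω' : Set (E 2)} {D W : ℝ} (h : Lg Ω D W) (h' : Lg Ω' D W) (hs : Ω ⊆ Ω')
    {θ x : ℝ} (h1 : θ < 1) (ha : 0 ≤ x) (hb : x ≤ D) : ht Ω θ x ≤ ht Ω' θ x := by
  have hne : (S Ω x).Nonempty := ⟨0, zero_mem h ha hb⟩
  have hsub : S Ω x ⊆ S Ω' x := fun y hy => hs hy
  have c1 := csInf_le_csInf (bddBelow_Icc.mono (S_sub h' x)) hne hsub
  have c2 := csSup_le_csSup (bddAbove_Icc.mono (S_sub h' x)) hne hsub
  unfold ht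
  exact mul_le_mul_of_nonneg_left (by linarith) (by linarith)

theorem slab_open (x l : ℝ) : IsOpen (slab x l) := by
  have hc : Continuous fun z : E 2 => z 0 := by fun_prop
  exact (isOpen_lt continuous_const hc).inter (isOpen_lt hc continuous_const)

theorem slab_convex (x l : ℝ) : Convex ℝ (slab x l) := by
  rintro z ⟨z1, z2⟩ w ⟨w1, w2⟩ a b ha hb hab
  have e : (a • z + b • w) 0 = a * z 0 + b * w 0 := by simp
  have hm := (convex_Ioo x (x + l)) (⟨z1, z2⟩ : z 0 ∈ Ioo x (x + l)) ⟨w1, w2⟩ ha hb hab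
  refine ⟨?_, ?_⟩
  · rw [e]
    simpa using hm.1
  · rw [e]
    simpa using hm.2

theorem piece_dom {Ω : Set (E 2)} (h : Dom Ω) {x l : ℝ} (hne : (Ω ∩ slab x l).Nonempty) :
    Dom (Ω ∩ slab x l) :=
  ⟨hne, h.2.1.inter (slab_open x l), h.2.2.1.inter (slab_convex x l),
    h.2.2.2.subset inter_subset_left⟩

theorem line_null (c : ℝ) : volume {z : E 2 | z 0 = c} = 0 := by
  have hc : Continuous fun z : E 2 => z 0 := by fun_prop
  have hm : MeasurableSet {z : E 2 | z 0 = c} := (isClosed_eq hc continuous_const).measurableSet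
  rw [← pt_mp.measure_preimage hm.nullMeasurableSet]
  have e : (fun q : ℝ × ℝ => pt q.1 q.2) ⁻¹' {z : E 2 | z 0 = c} = {c} ×ˢ univ := by
    ext q
    simp
  rw [e, Measure.volume_eq_prod, Measure.prod_prod]
  simp

/-- A piece inside a ball has boundedly many low eigenvalues. -/
theorem end_piece {A : Set (E 2)} (hA : Dom A) {Λ R c W : ℝ} (hΛ : 0 < Λ) (hR : 0 < R)
    (hW : 0 < W) (hb : ∀ z ∈ A, |z 0 - c| ≤ R ∧ |z 1| ≤ W) :
    ¬ Adm ⌈exp (130 * (√Λ * (R + W + 1)))⌉₊ A Λ := by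
  intro hk
  have hsub : A ⊆ ⋃ x ∈ ({pt c 0} : Finset (E 2)), Metric.ball x (R + W + 1) := by
    intro z hz
    simp only [Finset.mem_singleton, iUnion_iUnion_eq_left, Metric.mem_ball]
    obtain ⟨b1, b2⟩ := hb z hz
    rw [EuclideanSpace.dist_eq, Real.sqrt_lt' (by linarith), Fin.sum_univ_two]
    simp only [pt_zero, pt_one, Real.dist_eq, sub_zero]
    have q1 := pow_le_pow_left₀ (abs_nonneg _) b1 2
    have q2 := pow_le_pow_left₀ (abs_nonneg _) b2 2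
    nlinarith
  have h := hN 2 (by norm_num) A hA _ Λ (R + W + 1) hΛ (by linarith) {pt c 0} hsub hk
  have h2 := Nat.le_ceil (exp (130 * (√Λ * (R + W + 1))))
  simp only [Finset.card_singleton, Nat.cast_one, one_mul] at h
  linarith

theorem slab_disj {l : ℝ} (hl : 0 < l) (T : ℝ) {i j : ℕ} (hij : i ≠ j) :
    Disjoint (slab (T + i * l) l) (slab (T + j * l) l) := by
  rw [Set.disjoint_left]
  rintro z ⟨a1, a2⟩ ⟨b1, b2⟩
  rcases lt_or_gt_of_ne hij with h | h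
  · have : (i : ℝ) + 1 ≤ j := by exact_mod_cast h
    nlinarith
  · have : (j : ℝ) + 1 ≤ i := by exact_mod_cast h
    nlinarith

/-- The pieces of the smaller domain. -/
def pc (Ω : Set (E 2)) (D T l : ℝ) (m : ℕ) : Fin m ⊕ Bool → Set (E 2)
  | Sum.inl i => Ω ∩ slab (T + (i : ℕ) * l) l
  | Sum.inr true => Ω ∩ slab (-2) (T + 2)
  | Sum.inr false => Ω ∩ slab (T + m * l) (D + 2 - (T + m * l))

theorem pc_disj (Ω : Set (E 2)) (D T : ℝ) {l : ℝ} (hl : 0 < l) (m : ℕ) :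
    Pairwise (Function.onFun Disjoint (pc Ω D T l m)) := by
  have k1 : ∀ i : Fin m, Disjoint (pc Ω D T l m (Sum.inl i)) (pc Ω D T l m (Sum.inr true)) := by
    intro i
    rw [Set.disjoint_left]
    rintro z ⟨-, a1, a2⟩ ⟨-, b1, b2⟩
    have : (0 : ℝ) ≤ (i : ℕ) * l := by positivity
    linarith
  have k2 : ∀ i : Fin m, Disjoint (pc Ω D T l m (Sum.inl i)) (pc Ω D T l m (Sum.inr false)) := by
    intro i
    rw [Set.disjoint_left]
    rintro z ⟨-, a1, a2⟩ ⟨-, b1, b2⟩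
    have : ((i : ℕ) : ℝ) + 1 ≤ m := by exact_mod_cast i.2
    nlinarith
  have k3 : Disjoint (pc Ω D T l m (Sum.inr true)) (pc Ω D T l m (Sum.inr false)) := by
    rw [Set.disjoint_left]
    rintro z ⟨-, a1, a2⟩ ⟨-, b1, b2⟩
    have : (0 : ℝ) ≤ m * l := by positivity
    linarith
  rintro (i | _ | _) (j | _ | _) hij
  · have hne : (i : ℕ) ≠ j := fun e => hij (by rw [Fin.ext e])
    exact (slab_disj hl T hne).mono inter_subset_right inter_subset_right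
  · exact k2 i
  · exact k1 i
  · exact (k2 j).symm
  · exact absurd rfl hij
  · exact k3.symm
  · exact (k1 j).symm
  · exact k3
  · exact absurd rfl hij

theorem pc_null {Ω : Set (E 2)} {D T l : ℝ} (hl : 0 < l) (m : ℕ)
    (hb : ∀ z ∈ Ω, -1 ≤ z 0 ∧ z 0 ≤ D + 1) : volume (Ω \ ⋃ i, pc Ω D T l m i) = 0 := by
  have hsub : Ω \ ⋃ i, pc Ω D T l m i ⊆ ⋃ j : ℕ, {z : E 2 | z 0 = T + j * l} := by
    rintro z ⟨hz, hn⟩
    by_contra hc
    apply hn
    simp only [mem_iUnion, not_exists, mem_ofPred_eq] at hc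
    obtain ⟨b1, b2⟩ := hb z hz
    rcases lt_or_ge (z 0) T with h1 | h1
    · exact mem_iUnion.2 ⟨Sum.inr true, hz, by linarith, by linarith⟩
    rcases lt_or_ge (T + m * l) (z 0) with h2 | h2
    · exact mem_iUnion.2 ⟨Sum.inr false, hz, h2, by linarith⟩
    have hq : 0 ≤ (z 0 - T) / l := div_nonneg (by linarith) hl.le
    have f1 := Nat.floor_le hq
    have f2 := Nat.lt_floor_add_one ((z 0 - T) / l)
    rw [le_div_iff₀ hl] at f1
    rw [div_lt_iff₀ hl] at f2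
    have f3 : T + (⌊(z 0 - T) / l⌋₊ : ℝ) * l < z 0 :=
      lt_of_le_of_ne (by linarith) fun e => hc _ e.symm
    have f4 : ⌊(z 0 - T) / l⌋₊ < m := by
      have : (⌊(z 0 - T) / l⌋₊ : ℝ) < m := lt_of_mul_lt_mul_right (by linarith) hl.le
      exact_mod_cast this
    exact mem_iUnion.2 ⟨Sum.inl ⟨_, f4⟩, hz, f3, by linarith⟩
  exact measure_mono_null hsub (measure_iUnion_null fun j => line_null _)

/-- The comparison on one slab. -/
theorem one_slab (hn : StCnt) (h1 : StCellDN) (h2 : StCellThin) (hS : StSlab) {ε W : ℝ}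
    (hε : 0 < ε) (hε1 : ε ≤ 1) (hW : 0 < W) :
    ∃ l T : ℝ, 0 < l ∧ 0 < T ∧ ∀ (D : ℝ) (Ω₁ Ω₂ : Set (E 2)), Lg Ω₁ D W → Lg Ω₂ D W → Ω₁ ⊆ Ω₂ →
      ∀ x : ℝ, T ≤ x → x + l ≤ D - T → ∃ n n' : ℕ, ¬ Adm n (Ω₁ ∩ slab x l) (1 + ε / 4) ∧
        Spc Ω₂ (slab x l) n' (1 + ε) ∧ n + 1 ≤ n' := by
  obtain ⟨l, hl1, hc, -⟩ := hn.2.2.2 (1 + ε / 2) (1 + 3 * ε / 4) (by linarith) (by linarith)
  have hl : 0 < l := by linarith
  obtain ⟨w1, hw1, hS1⟩ := hS l (1 + ε / 4) (1 + ε / 2) hl (by linarith) (by linarith)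
  have hw0 : 0 < min w1 1 := lt_min hw1 one_pos
  obtain ⟨δ1, hδ1, hS2⟩ := hS1 (min w1 1) hw0 (min_le_left _ _)
  obtain ⟨δ2, hδ2, hC⟩ := h1 l (1 + 3 * ε / 4) (ε / 4) (min w1 1) (2 * W) hl (by linarith)
    (by linarith) hw0
  obtain ⟨κ, hκ, hK⟩ := h2 l (1 + 3 * ε / 4) (ε / 4) hl (by linarith) (by linarith)
  obtain ⟨θ, t0, t1, t2, t3, t4⟩ : ∃ θ : ℝ, 0 < θ ∧ θ < 1 ∧ 2 * W * θ < δ1 ∧ 2 * W * θ < δ2 ∧
      1 ≤ (1 + κ) * ((1 - θ) * (1 - θ)) := by
    have a1 : 0 < min δ1 δ2 / (4 * W) := div_pos (lt_min hδ1 hδ2) (by linarith)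
    have a2 : 0 < κ / (2 * (1 + κ)) := by positivity
    have b1 := min_le_left (min δ1 δ2 / (4 * W)) (κ / (2 * (1 + κ)))
    have b2 := min_le_right (min δ1 δ2 / (4 * W)) (κ / (2 * (1 + κ)))
    have b0 := lt_min a1 a2
    generalize min (min δ1 δ2 / (4 * W)) (κ / (2 * (1 + κ))) = θ at b0 b1 b2
    rw [le_div_iff₀ (by linarith)] at b1 b2
    have c1 := min_le_left δ1 δ2
    have c2 := min_le_right δ1 δ2
    have c3 : 0 < W * θ := mul_pos hW b0
    have c4 : 0 ≤ (1 + κ) * (θ * θ) := by positivity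
    refine ⟨θ, b0, by nlinarith, by linarith, by linarith, by linarith⟩
  have hT : θ * (l / θ) = l := mul_div_cancel₀ _ t0.ne'
  have hT0 : 0 < l / θ := div_pos hl t0
  refine ⟨l, l / θ, hl, hT0, fun D Ω₁ Ω₂ g1 g2 hsub x ha hb => ?_⟩
  have e : 1 + 3 * ε / 4 + ε / 4 = 1 + ε := by ring
  have hP : Dom (Ω₁ ∩ slab x l) := piece_dom g1.dom
    ⟨pt (x + l / 2) 0, zero_mem g1 (by linarith) (by linarith),
      by simp only [pt_zero]; linarith, by simp only [pt_zero]; linarith⟩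
  obtain ⟨s1, s2⟩ := hS2 _ hP x _ _ (outer g1 t0 t1 hT hl ha hb t2)
  rcases le_total (min w1 1) (ht Ω₁ θ x) with hh | hh
  · have hm := ht_mono g1 g2 hsub t1 (x := x) (by linarith) (by linarith)
    refine ⟨_, cnt 1 0 l (ht Ω₂ θ x) (1 + 3 * ε / 4),
      s1 hh fun z hz => ⟨inner g1 t0 t1 hT hl ha hb hz, hz.1, hz.2.1⟩, ?_, ?_⟩
    · rw [← e]
      exact hC Ω₂ g2.dom x _ _ (hh.trans hm) (ht_le g2 t0 (by linarith) (by linarith))
        (inner g2 t0 t1 hT hl ha hb) (outer g2 t0 t1 hT hl ha hb t3)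
    · exact (hc _ (hw0.trans_le hh)).trans (hn.1 1 0 l _ _ _ hl (hw0.trans_le hh) hm)
  · refine ⟨_, cnt 1 0 l (min w1 1) (1 + 3 * ε / 4), s2 hh, ?_, hc _ hw0⟩
    rw [← e]
    have hp := sec_pos g2 (x := x) (by linarith) (by linarith)
    refine hK Ω₂ g2.dom x ((1 - θ) * sec Ω₂ x) _ (mul_pos (by linarith) hp) hw0 ?_ ?_
    · have q1 : min w1 1 ^ 2 ≤ 1 := pow_le_one₀ hw0.le (min_le_right _ _)
      have q2 : (3 : ℝ) < π := pi_gt_three
      nlinarith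
    · rintro x' ⟨x1, x2⟩
      have m1 := sec_move g2 t0 t1 hT ha (by linarith) (x' := x')
        (abs_le.2 ⟨by linarith, by linarith⟩)
      have m2 := sec_move g2 t0 t1 hT (x := x') (by linarith) (by linarith) (x' := x)
        (abs_le.2 ⟨by linarith, by linarith⟩)
      have hp' := sec_pos g2 (x := x') (by linarith) (by linarith)
      refine ⟨m1, ?_⟩
      have m3 := mul_le_mul_of_nonneg_left m2
        (mul_pos (by linarith : 0 < 1 + κ) (by linarith : 0 < 1 - θ)).le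
      have m4 := mul_le_mul_of_nonneg_right t4 hp'.le
      linarith

end Thin

open Thin in
theorem pThin (hB : StBr2) (hD : StDS2) (hn : StCnt) (h1 : StCellDN) (h2 : StCellThin)
    (hS : StSlab) : StThin := by
  intro ε0 W hε0 hW
  obtain ⟨ε, hε, hε1, hεε⟩ : ∃ ε : ℝ, 0 < ε ∧ ε ≤ 1 ∧ ε ≤ ε0 :=
    ⟨min ε0 1, lt_min hε0 one_pos, min_le_right _ _, min_le_left _ _⟩
  obtain ⟨l, T, hl, hT, hs⟩ := one_slab hn h1 h2 hS hε hε1 hW
  set n0 : ℕ := ⌈exp (130 * (√(1 + ε / 4) * (T + l + 2 + W + 1)))⌉₊ with hn0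
  refine ⟨2 * T + 2 * n0 * l, fun D hD0 Ω₁ Ω₂ d1 d2 hsub p0 p1 hb hw k hk => ?_⟩
  have hn0l : (0 : ℝ) ≤ 2 * n0 * l := by positivity
  have hDp : 0 < D := by linarith
  have g1 : Lg Ω₁ D W := ⟨d1, hDp, p0, p1, fun z hz => hw z (hsub hz)⟩
  have g2 : Lg Ω₂ D W := ⟨d2, hDp, hsub p0, hsub p1, hw⟩
  obtain ⟨m, m1, m2, m3⟩ : ∃ m : ℕ, m * l ≤ D - 2 * T ∧ D - 2 * T < (m + 1) * l ∧ 2 * n0 ≤ m := by
    have hq : 0 ≤ (D - 2 * T) / l := div_nonneg (by linarith) hl.le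
    have f1 := Nat.floor_le hq
    have f2 := Nat.lt_floor_add_one ((D - 2 * T) / l)
    rw [le_div_iff₀ hl] at f1
    rw [div_lt_iff₀ hl] at f2
    refine ⟨_, f1, f2, Nat.le_floor ?_⟩
    rw [le_div_iff₀ hl]
    push_cast
    linarith
  have hsl : ∀ i : Fin m, ∃ n n' : ℕ, ¬ Adm n (Ω₁ ∩ slab (T + (i : ℕ) * l) l) (1 + ε / 4) ∧
      Spc Ω₂ (slab (T + (i : ℕ) * l) l) n' (1 + ε) ∧ n + 1 ≤ n' := by
    intro i
    have a1 : (0 : ℝ) ≤ (i : ℕ) * l := by positivity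
    have a2 : ((i : ℕ) : ℝ) + 1 ≤ m := by exact_mod_cast i.2
    exact hs D Ω₁ Ω₂ g1 g2 hsub _ (by linarith) (by nlinarith)
  choose n n' hn1 hn2 hn3 using hsl
  have hml : (0 : ℝ) ≤ m * l := by positivity
  have hsum : k + 1 ≤ ∑ i : Fin m ⊕ Bool, Sum.elim n (fun _ => n0) i := by
    by_contra hc
    have := hB 2 Ω₁ d1 (Fin m ⊕ Bool) (pc Ω₁ D T l m) (Sum.elim n fun _ => n0) k (1 + ε / 4) 1
      ?_ ?_ (pc_disj Ω₁ D T hl m) (pc_null hl m hb) (by linarith) ?_ (by omega) hk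
    · linarith
    · rintro (i | _ | _) <;> exact d1.2.1.inter (slab_open _ _)
    · rintro (i | _ | _) <;> exact inter_subset_left
    · rintro (i | _ | _)
      · exact hn1 i
      · refine end_piece (c := D) (piece_dom d1 ⟨pt D 0, p1, ?_, ?_⟩) (by linarith) (by linarith)
          hW fun z hz => ⟨?_, g1.bd z hz.1⟩
        · simp only [pt_zero]
          linarith
        · simp only [pt_zero]
          linarith
        · have := hz.2.1
          have := (hb z hz.1).2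
          exact abs_le.2 ⟨by linarith, by linarith⟩
      · refine end_piece (c := 0) (piece_dom d1 ⟨pt 0 0, p0, ?_, ?_⟩) (by linarith) (by linarith)
          hW fun z hz => ⟨?_, g1.bd z hz.1⟩
        · simp only [pt_zero]
          linarith
        · simp only [pt_zero]
          linarith
        · have := hz.2.2
          have := (hb z hz.1).1
          exact abs_le.2 ⟨by linarith, by linarith⟩
  have hfin : k + 1 ≤ ∑ i, n' i := by
    rw [Fintype.sum_sum_type] at hsum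
    simp only [Sum.elim_inl, Sum.elim_inr, Finset.sum_const, Finset.card_univ, Fintype.card_bool,
      smul_eq_mul] at hsum
    have h3 : ∑ i, (n i + 1) ≤ ∑ i, n' i := Finset.sum_le_sum fun i _ => hn3 i
    rw [Finset.sum_add_distrib] at h3
    simp only [Finset.sum_const, Finset.card_univ, Fintype.card_fin, smul_eq_mul, mul_one] at h3
    omega
  refine (pAdm 2 Ω₂ k).2.2.1 (1 + ε) _ (by linarith) ?_
  exact hD 2 Ω₂ d2 (Fin m) (fun i => slab (T + (i : ℕ) * l) l) n' k (1 + ε)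
    (fun i j hij => slab_disj hl T fun e => hij (Fin.ext e)) hn2 hfin

end Pool.Agent.P.MP_5c8462_an.Pl
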