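import Pool.Agent.P.MP_5c8462_an.Pl.Basic
import Pool.Agent.P.MP_5c8462_an.Pl.CellD
import Pool.Agent.P.MP_5c8462_an.Pl.CellThin
import Pool.Agent.P.MP_5c8462_an.Pl.Cnt
import Pool.Agent.P.MP_5c8462_an.Pl.Cut
import Pool.Agent.P.MP_5c8462_an.Pl.Fat
import Pool.Agent.P.MP_5c8462_an.Pl.Gram
import Pool.Agent.P.MP_5c8462_an.Pl.Mixed
import Pool.Agent.P.MP_5c8462_an.Pl.One
import Pool.Agent.P.MP_5c8462_an.Pl.Plane
import Pool.Agent.P.MP_5c8462_an.Pl.RectN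
import Pool.Agent.P.MP_5c8462_an.Pl.Slab
import Pool.Agent.P.MP_5c8462_an.Pl.Sliver
import Pool.Agent.P.MP_5c8462_an.Pl.Thin

set_option autoImplicit false

namespace Pool.Agent.P.MP_5c8462_an.Pl

theorem plane : StPlane :=
  pPlane pIso (pFat pBr2 pDS2 pCnt (pRectN pOne) (pCellDD pCut pGram))
    (pMixed pDS2 pCnt (pCellDD pCut pGram))
    (pThin pBr2 pDS2 pCnt (pCellDN pCut pGram pCnt) (pCellThin pCut pGram)
      (pSlab (pRectN pOne) pSliver pBr2 pCnt))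

end Pool.Agent.P.MP_5c8462_an.Pl
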