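import Pool.Agent.P.MP_5c8462_an.Pl.Defs

set_option autoImplicit false

namespace Pool.Agent.P.MP_5c8462_an.Pl

open MeasureTheory Real Set Pool.Agent.P.MP_5c8462_an.Ord

namespace RectN

theorem io {f : ℝ → ℝ} (hf : Continuous f) (a b : ℝ) : IntegrableOn f (Ioo a b) :=
  (hf.continuousOn.integrableOn_compact isCompact_Icc).mono_set Ioo_subset_Icc_self

theorem int_rect {G : E 2 → ℝ} (hG : Continuous G) (x0 l y0 h : ℝ) :
    ∫ z in rect x0 l y0 h, G z =
      ∫ x in Ioo x0 (x0 + l), ∫ y in Ioo y0 (y0 + h), G (pt x y) := by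
  rw [← pt_mp.setIntegral_preimage_emb pt_emb]
  have e : (fun q : ℝ × ℝ => pt q.1 q.2) ⁻¹' rect x0 l y0 h =
      Ioo x0 (x0 + l) ×ˢ Ioo y0 (y0 + h) := by
    ext q
    simp [rect, and_assoc]
  rw [e]
  have hi : IntegrableOn (fun q : ℝ × ℝ => G (pt q.1 q.2))
      (Ioo x0 (x0 + l) ×ˢ Ioo y0 (y0 + h)) (volume.prod volume) :=
    ((hG.comp pt_cont).continuousOn.integrableOn_compact
      (isCompact_Icc.prod isCompact_Icc)).mono_set
      (prod_mono Ioo_subset_Icc_self Ioo_subset_Icc_self)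
  exact setIntegral_prod _ hi

theorem cont_par {K : ℝ → ℝ → ℝ} (hK : Continuous fun q : ℝ × ℝ => K q.1 q.2) (a b : ℝ) :
    Continuous fun x => ∫ y in Ioo a b, K x y := by
  have h := continuous_parametric_integral_of_continuous (μ := volume) (f := K) hK
    (isCompact_Icc (a := a) (b := b))
  simpa only [integral_Icc_eq_integral_Ioo] using h

theorem deriv_par {K K' : ℝ → ℝ → ℝ} (hK : Continuous fun q : ℝ × ℝ => K q.1 q.2)
    (hK' : Continuous fun q : ℝ × ℝ => K' q.1 q.2)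
    (hd : ∀ x y, HasDerivAt (fun s => K s y) (K' x y) x) (a b x : ℝ) :
    HasDerivAt (fun s => ∫ y in Ioo a b, K s y) (∫ y in Ioo a b, K' x y) x := by
  obtain ⟨B, hB⟩ := ((isCompact_closedBall x 1).prod
    (isCompact_Icc (a := a) (b := b))).exists_bound_of_continuousOn hK'.continuousOn
  have c1 : ∀ s, Continuous (K s) := fun s => hK.comp (Continuous.prodMk_right s)
  have c2 : ∀ s, Continuous (K' s) := fun s => hK'.comp (Continuous.prodMk_right s)
  refine (hasDerivAt_integral_of_dominated_loc_of_deriv_le (μ := volume.restrict (Ioo a b))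
    (s := Metric.closedBall x 1) (bound := fun _ => B) (F := K) (F' := K')
    (Metric.closedBall_mem_nhds x one_pos)
    (Filter.Eventually.of_forall fun s => (c1 s).aestronglyMeasurable) (io (c1 x) a b)
    (c2 x).aestronglyMeasurable ?_ (io continuous_const a b)
    (Filter.Eventually.of_forall fun y s _ => hd s y)).2
  refine (ae_restrict_iff' measurableSet_Ioo).2 (Filter.Eventually.of_forall fun y hy s hs => ?_)
  exact hB (s, y) ⟨hs, Ioo_subset_Icc_self hy⟩

theorem nrm_pos {h : ℝ} (hh : 0 < h) (j : ℕ) : 0 < nrm h j := by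
  unfold nrm
  split_ifs <;> positivity

theorem big {l : ℝ} (hl : 0 < l) (Λ : ℝ) : ∃ I : ℕ, Λ ≤ (π * I / l) ^ 2 := by
  refine ⟨⌈l * √Λ / π⌉₊, ?_⟩
  have h1 : l * √Λ / π ≤ ⌈l * √Λ / π⌉₊ := Nat.le_ceil _
  rw [div_le_iff₀ pi_pos] at h1
  have h2 : √Λ ≤ π * ⌈l * √Λ / π⌉₊ / l := by
    rw [le_div_iff₀ hl]
    linarith
  have h3 : Λ ≤ √Λ ^ 2 := by
    rw [Real.sq_sqrt']
    exact le_max_left _ _
  exact h3.trans (pow_le_pow_left₀ (Real.sqrt_nonneg _) h2 2)

/-- cosine mode -/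
noncomputable def ee (a h : ℝ) (j : ℕ) (t : ℝ) : ℝ := cos (π * j / h * (t - a))

theorem ee_cont (a h : ℝ) (j : ℕ) : Continuous (ee a h j) := by
  unfold ee
  fun_prop

theorem main (h1 : StOne) {x0 l y0 h Λ : ℝ} (hl : 0 < l) (hh : 0 < h) {u : E 2 → ℝ}
    (hu : ContDiff ℝ 1 u)
    (h0 : ∀ i j : ℕ, (π * i / l) ^ 2 + (π * j / h) ^ 2 < Λ →
      ∫ z in rect x0 l y0 h, u z * (ee y0 h j (z 1) * ee x0 l i (z 0)) = 0) :
    Λ * Sq (rect x0 l y0 h) u ≤ En (rect x0 l y0 h) u := by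
  obtain ⟨I, hI⟩ := big hl Λ
  obtain ⟨J, hJ⟩ := big hh Λ
  have hd : Differentiable ℝ u := hu.differentiable one_ne_zero
  have cu : Continuous fun q : ℝ × ℝ => u (pt q.1 q.2) := hu.continuous.comp pt_cont
  have cd : ∀ r, Continuous fun q : ℝ × ℝ => dd u r (pt q.1 q.2) := fun r =>
    (dd_cont hu r).comp pt_cont
  have ce : ∀ j, Continuous fun q : ℝ × ℝ => ee y0 h j q.2 := fun j =>
    (ee_cont y0 h j).comp continuous_snd
  set c : ℕ → ℝ → ℝ := fun j x => ∫ y in Ioo y0 (y0 + h), u (pt x y) * ee y0 h j y with hc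
  set g : ℕ → ℝ → ℝ := fun j x => ∫ y in Ioo y0 (y0 + h), dd u 0 (pt x y) * ee y0 h j y with hg
  set S : ℝ → ℝ := fun x => ∫ y in Ioo y0 (y0 + h), u (pt x y) ^ 2 with hS
  set D : Fin 2 → ℝ → ℝ := fun r x => ∫ y in Ioo y0 (y0 + h), dd u r (pt x y) ^ 2 with hD
  have cc : ∀ j, Continuous (c j) := fun j =>
    cont_par (K := fun x y => u (pt x y) * ee y0 h j y) (cu.mul (ce j)) _ _
  have cg : ∀ j, Continuous (g j) := fun j =>
    cont_par (K := fun x y => dd u 0 (pt x y) * ee y0 h j y) ((cd 0).mul (ce j)) _ _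
  have cS : Continuous S := cont_par (K := fun x y => u (pt x y) ^ 2) (cu.pow 2) _ _
  have cD : ∀ r, Continuous (D r) := fun r =>
    cont_par (K := fun x y => dd u r (pt x y) ^ 2) ((cd r).pow 2) _ _
  have dc : ∀ j x, HasDerivAt (c j) (g j x) x := fun j x =>
    deriv_par (K := fun x y => u (pt x y) * ee y0 h j y)
      (K' := fun x y => dd u 0 (pt x y) * ee y0 h j y) (cu.mul (ce j)) ((cd 0).mul (ce j))
      (fun s y => (dd_x hd s y).mul_const _) _ _ x
  have pA : ∀ x, Λ * S x ≤ D 1 x +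
      ∑ j ∈ Finset.range J, (Λ - (π * j / h) ^ 2) / nrm h j * c j x ^ 2 := fun x => by
    have := (h1 y0 h J hh).1 Λ (fun y => u (pt x y)) (fun y => dd u 1 (pt x y)) hJ
      (fun t => dd_y hd x t) ((cd 1).comp (Continuous.prodMk_right x))
    refine this.trans (le_of_eq ?_)
    congr 1
    refine Finset.sum_congr rfl fun j _ => ?_
    simp only [hc, ee]
    ring
  have pB : ∀ x, ∑ j ∈ Finset.range J, (nrm h j)⁻¹ * g j x ^ 2 ≤ D 0 x := fun x => by
    have := (h1 y0 h J hh).2 (fun y => dd u 0 (pt x y)) ((cd 0).comp (Continuous.prodMk_right x))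
    refine (le_of_eq ?_).trans this
    refine Finset.sum_congr rfl fun j _ => ?_
    simp only [hg, ee]
    ring
  have pC : ∀ j : ℕ, (Λ - (π * j / h) ^ 2) * ∫ x in Ioo x0 (x0 + l), c j x ^ 2 ≤
      ∫ x in Ioo x0 (x0 + l), g j x ^ 2 := fun j => by
    have := (h1 x0 l I hl).1 (Λ - (π * j / h) ^ 2) (c j) (g j)
      (by linarith [sq_nonneg (π * j / h)]) (dc j) (cg j)
    refine this.trans (add_le_of_nonpos_right (Finset.sum_nonpos fun i _ => ?_))
    by_cases hij : (π * i / l) ^ 2 + (π * j / h) ^ 2 < Λ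
    · have h2 := h0 i j hij
      rw [int_rect (G := fun z => u z * (ee y0 h j (z 1) * ee x0 l i (z 0)))
        (hu.continuous.mul (((ee_cont _ _ _).comp (by fun_prop)).mul
          ((ee_cont _ _ _).comp (by fun_prop))))] at h2
      have h3 : ∫ t in Ioo x0 (x0 + l), c j t * cos (π * i / l * (t - x0)) = 0 := by
        rw [← h2]
        refine integral_congr_ae (Filter.Eventually.of_forall fun x => ?_)
        simp only [hc, pt_zero, pt_one, ← mul_assoc, integral_mul_const, ee]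
      rw [h3]
      simp
    · exact mul_nonpos_of_nonpos_of_nonneg (by linarith [not_lt.1 hij])
        (div_nonneg (sq_nonneg _) (nrm_pos hl i).le)
  have eS : Sq (rect x0 l y0 h) u = ∫ x in Ioo x0 (x0 + l), S x :=
    int_rect (G := fun z => u z ^ 2) (hu.continuous.pow 2) _ _ _ _
  have eE : En (rect x0 l y0 h) u =
      (∫ x in Ioo x0 (x0 + l), D 0 x) + ∫ x in Ioo x0 (x0 + l), D 1 x := by
    unfold En
    simp only [dd_norm]
    rw [int_rect (G := fun z => dd u 0 z ^ 2 + dd u 1 z ^ 2)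
      (((dd_cont hu 0).pow 2).add ((dd_cont hu 1).pow 2)),
      ← integral_add (io (cD 0) _ _) (io (cD 1) _ _)]
    refine integral_congr_ae (Filter.Eventually.of_forall fun x => ?_)
    exact integral_add (io (((cd 0).comp (Continuous.prodMk_right x)).pow 2) _ _)
      (io (((cd 1).comp (Continuous.prodMk_right x)).pow 2) _ _)
  have sm : ∀ (w : ℕ → ℝ) (p : ℕ → ℝ → ℝ), (∀ j, Continuous (p j)) →
      Continuous (fun x => ∑ j ∈ Finset.range J, w j * p j x ^ 2) ∧
      ∫ x in Ioo x0 (x0 + l), ∑ j ∈ Finset.range J, w j * p j x ^ 2 =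
        ∑ j ∈ Finset.range J, w j * ∫ x in Ioo x0 (x0 + l), p j x ^ 2 := fun w p hp => by
    refine ⟨continuous_finsetSum _ fun j _ => continuous_const.mul ((hp j).pow 2), ?_⟩
    have hI : ∀ j, IntegrableOn (fun x => w j * p j x ^ 2) (Ioo x0 (x0 + l)) := fun j =>
      io (continuous_const.mul ((hp j).pow 2)) _ _
    rw [integral_finsetSum _ fun j _ => hI j]
    simp only [integral_const_mul]
  obtain ⟨a1, a2⟩ := sm (fun j => (Λ - (π * j / h) ^ 2) / nrm h j) c cc
  obtain ⟨b1, b2⟩ := sm (fun j => (nrm h j)⁻¹) g cg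
  have iA : ∫ x in Ioo x0 (x0 + l), Λ * S x ≤ ∫ x in Ioo x0 (x0 + l), (D 1 x +
      ∑ j ∈ Finset.range J, (Λ - (π * j / h) ^ 2) / nrm h j * c j x ^ 2) :=
    integral_mono (io (continuous_const.mul cS) x0 (x0 + l)) (io ((cD 1).add a1) x0 (x0 + l)) pA
  have iB := integral_mono (io b1 x0 (x0 + l)) (io (cD 0) x0 (x0 + l)) pB
  rw [integral_const_mul, integral_add (io (cD 1) _ _) (io a1 _ _), a2] at iA
  rw [b2] at iB
  have iC : ∑ j ∈ Finset.range J, (Λ - (π * j / h) ^ 2) / nrm h j *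
      ∫ x in Ioo x0 (x0 + l), c j x ^ 2 ≤
      ∑ j ∈ Finset.range J, (nrm h j)⁻¹ * ∫ x in Ioo x0 (x0 + l), g j x ^ 2 := by
    refine Finset.sum_le_sum fun j _ => ?_
    have := mul_le_mul_of_nonneg_left (pC j) (inv_pos.2 (nrm_pos hh j)).le
    calc _ = _ := by ring
      _ ≤ _ := this
  rw [eS, eE]
  linarith

theorem rect_open (x0 l y0 h : ℝ) : IsOpen (rect x0 l y0 h) := by
  have c0 : Continuous fun z : E 2 => z 0 := by fun_prop
  have c1 : Continuous fun z : E 2 => z 1 := by fun_prop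
  exact (isOpen_lt continuous_const c0).inter ((isOpen_lt c0 continuous_const).inter
    ((isOpen_lt continuous_const c1).inter (isOpen_lt c1 continuous_const)))

theorem rect_bdd (x0 l y0 h : ℝ) : Bornology.IsBounded (rect x0 l y0 h) := by
  refine (((isCompact_Icc (a := x0) (b := x0 + l)).prod
    (isCompact_Icc (a := y0) (b := y0 + h))).image pt_cont).isBounded.subset ?_
  rintro z ⟨a, b, c, d⟩
  exact ⟨(z 0, z 1), ⟨⟨a.le, b.le⟩, c.le, d.le⟩, pt_eta z⟩

end RectN

theorem pRectN (h1 : StOne) : StRectN := by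
  intro x0 l y0 h Λ M hl hh hM hA
  obtain ⟨f, hf, hi, hE⟩ := AdmL.adm_iff.1 hA
  have hb := RectN.rect_bdd x0 l y0 h
  have hfin := cnt_fin 0 0 hl hh Λ
  have cw : ∀ q : ℕ × ℕ, Continuous fun z : E 2 =>
      RectN.ee y0 h q.2 (z 1) * RectN.ee x0 l q.1 (z 0) := fun q =>
    ((RectN.ee_cont _ _ _).comp (by fun_prop)).mul ((RectN.ee_cont _ _ _).comp (by fun_prop))
  obtain ⟨c, hc, hc0⟩ : ∃ c : Fin (cnt 0 0 l h Λ + 1) → ℝ,
      Matrix.mulVecLin (Matrix.of fun (q : hfin.toFinset) i => ∫ z in rect x0 l y0 h,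
        f i z * (RectN.ee y0 h q.1.2 (z 1) * RectN.ee x0 l q.1.1 (z 0))) c = 0 ∧ c ≠ 0 := by
    refine Submodule.exists_mem_ne_zero_of_ne_bot (LinearMap.ker_ne_bot_of_finrank_lt ?_)
    simp only [Module.finrank_fintype_fun_eq_card, Fintype.card_coe, Fintype.card_fin]
    rw [cnt, Set.ncard_eq_toFinset_card _ hfin]
    exact Nat.lt_succ_self _
  have hu := AdmL.cm_cd hf c
  have h2 := RectN.main h1 (x0 := x0) (y0 := y0) (Λ := Λ) hl hh hu fun i j hij => by
    have h3 := congrFun hc ⟨(i, j), hfin.mem_toFinset.2 ⟨Nat.zero_le _, Nat.zero_le _, hij⟩⟩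
    simp only [Matrix.mulVecLin_apply, Matrix.mulVec, dotProduct, Matrix.of_apply,
      Pi.zero_apply] at h3
    rw [← h3]
    simp only [AdmL.cm, Finset.sum_mul]
    have hI : ∀ k, IntegrableOn (fun z : E 2 => c k * f k z *
        (RectN.ee y0 h j (z 1) * RectN.ee x0 l i (z 0))) (rect x0 l y0 h) := fun k =>
      AdmL.intOn hb ((continuous_const.mul (hf k).continuous).mul (cw (i, j)))
    rw [integral_finsetSum _ fun k _ => hI k]
    refine Finset.sum_congr rfl fun k _ => ?_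
    rw [mul_comm, ← integral_const_mul]
    simp only [mul_assoc]
  have h3 : 0 < Sq (rect x0 l y0 h) (AdmL.cm f c) := by
    refine int_pos (RectN.rect_open _ _ _ _) hb hu.continuous ?_
    by_contra hcon
    push Not at hcon
    exact hc0 (hi c hcon)
  have h4 := hE c
  nlinarith

end Pool.Agent.P.MP_5c8462_an.Pl
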